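import Pool.Agent.Helper36.QA.Defs
import Pool.Agent.Helper24.Kneser

set_option autoImplicit false

namespace Pool.Agent.Helper36.QA

open Finset
open scoped Pointwise
open Pool.Agent.Helper36.CL (HasF Ham IsChord)
open Pool.Agent.Helper36.Hub (Cy)

/-- Fibres of the quotient map on a finite set have at most `|K|` elements. -/
private lemma grow_fib {G : Type*} [AddCommGroup G] [Finite G] [DecidableEq G]
    (K : AddSubgroup G) [DecidableEq (G ⧸ K)] (T : Finset G) :
    T.card ≤ Nat.card K * (T.image (QuotientAddGroup.mk : G → G ⧸ K)).card := by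
  classical
  refine Finset.card_le_mul_card_image T (Nat.card K) ?_
  intro q hq
  obtain ⟨c, hc, rfl⟩ := Finset.mem_image.1 hq
  have : Fintype K := Fintype.ofFinite K
  rw [Nat.card_eq_fintype_card, ← Finset.card_univ]
  refine Finset.card_le_card_of_surjOn (fun x : K => c + x.1) ?_
  intro b hb
  have hb' : b ∈ T ∧ (QuotientAddGroup.mk b : G ⧸ K) = QuotientAddGroup.mk c := by
    simpa using hb
  refine ⟨⟨-c + b, QuotientAddGroup.eq.1 hb'.2.symm⟩, Finset.mem_coe.2 (Finset.mem_univ _), ?_⟩
  simp

/-- A subgroup of `ZMod m` that contains `2` has index at most `2`. -/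
private lemma grow_two (m : ℕ) [NeZero m] (K : AddSubgroup (ZMod m)) (h2 : (2 : ZMod m) ∈ K) :
    m ≤ 2 * Nat.card K := by
  classical
  have : Fintype K := Fintype.ofFinite K
  have hs : (Finset.univ : Finset (ZMod m)).card ≤ (Finset.univ : Finset (K × Bool)).card := by
    refine Finset.card_le_card_of_surjOn
      (fun p : K × Bool => p.1.1 + (if p.2 then 1 else 0)) ?_
    intro x _
    have hx : ((x.val : ℕ) : ZMod m) = x := ZMod.natCast_zmod_val x
    have hk : ∀ j : ℕ, ((2 * j : ℕ) : ZMod m) ∈ K := by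
      intro j
      have h := K.nsmul_mem h2 j
      have e : j • (2 : ZMod m) = ((2 * j : ℕ) : ZMod m) := by
        push_cast
        rw [nsmul_eq_mul]
        ring
      rwa [e] at h
    rcases Nat.even_or_odd' x.val with ⟨j, hj | hj⟩
    · refine ⟨(⟨((2 * j : ℕ) : ZMod m), hk j⟩, false), Finset.mem_coe.2 (Finset.mem_univ _), ?_⟩
      simp only [Bool.false_eq_true, if_false, add_zero]
      rw [← hj, hx]
    · refine ⟨(⟨((2 * j : ℕ) : ZMod m), hk j⟩, true), Finset.mem_coe.2 (Finset.mem_univ _), ?_⟩
      simp only [if_true]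
      have : ((2 * j + 1 : ℕ) : ZMod m) = x := by rw [← hj, hx]
      rw [← this]
      push_cast
      ring
  rw [Finset.card_univ, ZMod.card, Finset.card_univ, Fintype.card_prod, Fintype.card_bool,
    ← Nat.card_eq_fintype_card] at hs
  omega

theorem grow (m : ℕ) [NeZero m] (T R : Finset (ZMod m)) (hT : T.Nonempty) (h0 : 0 ∈ R)
    (h2 : ∃ a ∈ R, ∃ b ∈ R, a + b + 2 ∈ R) :
    2 * T.card + R.card ≤ 2 * (T + R).card ∨ m ≤ 2 * (T + R).card := by
  classical
  have hR : R.Nonempty := ⟨0, h0⟩
  have hC : (T + R).Nonempty := hT.add hR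
  set K := Helper24.Kneser.stab (T + R) with hK
  have hkn := Helper24.Kneser.kneser_quot (A := T) (B := R) hT hR
  have hcard := Helper24.Kneser.card_eq_of_per (Helper24.Kneser.per_stab (T + R))
  have hTf := grow_fib K T
  have hRf := grow_fib K R
  rw [← hK] at hkn hcard
  by_cases hr : ∀ r ∈ R, r ∈ K
  · right
    obtain ⟨a, ha, b, hb, hab⟩ := h2
    have h2K : (2 : ZMod m) ∈ K := by
      have h := K.sub_mem (hr _ hab) (K.add_mem (hr _ ha) (hr _ hb))
      have e : a + b + 2 - (a + b) = (2 : ZMod m) := by ring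
      rwa [e] at h
    have hm := grow_two m K h2K
    have hpos : 1 ≤ ((T + R).image (QuotientAddGroup.mk : ZMod m → ZMod m ⧸ K)).card :=
      Finset.card_pos.2 (hC.image _)
    have := Nat.mul_le_mul_left (Nat.card K) hpos
    rw [← hcard, mul_one] at this
    omega
  · left
    push Not at hr
    obtain ⟨r, hrR, hrK⟩ := hr
    have h2R : 2 ≤ (R.image (QuotientAddGroup.mk : ZMod m → ZMod m ⧸ K)).card := by
      refine Finset.one_lt_card.2 ⟨QuotientAddGroup.mk 0, Finset.mem_image_of_mem _ h0,
        QuotientAddGroup.mk r, Finset.mem_image_of_mem _ hrR, ?_⟩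
      intro h
      apply hrK
      have := QuotientAddGroup.eq.1 h
      simpa using this
    generalize (T.image (QuotientAddGroup.mk : ZMod m → ZMod m ⧸ K)).card = t at *
    generalize (R.image (QuotientAddGroup.mk : ZMod m → ZMod m ⧸ K)).card = u at *
    generalize ((T + R).image (QuotientAddGroup.mk : ZMod m → ZMod m ⧸ K)).card = c at *
    generalize Nat.card K = k at *
    rw [hcard]
    have h1 : k * (2 * t + u) ≤ k * (2 * c) := Nat.mul_le_mul_left k (by omega)
    have e1 : k * (2 * t + u) = 2 * (k * t) + k * u := by ring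
    have e2 : k * (2 * c) = 2 * (k * c) := by ring
    omega

end Pool.Agent.Helper36.QA
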