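import Pool.Agent.Helper36.QA.Defs
import Pool.Agent.Helper36.QA.Grow

/-!
QA-5. One growth step with representatives in `[0, m)`.
-/

set_option autoImplicit false

namespace Pool.Agent.Helper36.QA

open Finset
open scoped Pointwise
open Pool.Agent.Helper36.CL (HasF IsChord)
open Pool.Agent.Helper36.Hub (Cy)

theorem step_mem_red {Y : Finset ℕ} {y y' : ℕ} (h : y ∈ Y) (h' : y' ∈ Y) (hy : y + 2 ≤ y') :
    y' - y - 2 ∈ red Y := by
  unfold red
  rw [mem_insert]
  right
  rw [mem_image]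
  exact ⟨(y, y'), mem_filter.2 ⟨mem_product.2 ⟨h, h'⟩, hy⟩, rfl⟩

theorem step_red_le {Y : Finset ℕ} {m : ℕ} (hY : ∀ y ∈ Y, ∀ y' ∈ Y, y' ≤ y + m + 2) {r : ℕ}
    (hr : r ∈ red Y) : r ≤ m := by
  unfold red at hr
  rw [mem_insert, mem_image] at hr
  rcases hr with rfl | ⟨p, hp, rfl⟩
  · exact Nat.zero_le _
  · rw [mem_filter, mem_product] at hp
    have := hY p.1 hp.1.1 p.2 hp.1.2
    omega

theorem step_card {Y : Finset ℕ} {m : ℕ} (hY : ∀ y ∈ Y, ∀ y' ∈ Y, y' ≤ y + m + 2)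
    (hne : Y.Nonempty) :
    Y.card ≤ ((red Y).image (fun r : ℕ => (r : ZMod m))).card + 3 := by
  set y0 := Y.min' hne with hy0
  have hy0Y : y0 ∈ Y := Y.min'_mem hne
  have hmin : ∀ y ∈ Y, y0 ≤ y := fun y hy => Y.min'_le y hy
  set B := ((Y.erase y0).erase (y0 + 1)).erase (y0 + 2 + m) with hB
  have h1 : Y.card ≤ B.card + 3 := by
    have a1 : Y.card - 1 ≤ (Y.erase y0).card := Finset.pred_card_le_card_erase
    have a2 : (Y.erase y0).card - 1 ≤ ((Y.erase y0).erase (y0 + 1)).card :=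
      Finset.pred_card_le_card_erase
    have a3 : ((Y.erase y0).erase (y0 + 1)).card - 1 ≤ B.card := Finset.pred_card_le_card_erase
    omega
  have h2 : ∀ y ∈ B, y ∈ Y ∧ y0 + 2 ≤ y ∧ y - y0 - 2 < m := by
    intro y hy
    rw [hB, mem_erase, mem_erase, mem_erase] at hy
    obtain ⟨b1, b2, b3, b4⟩ := hy
    have b5 := hmin y b4
    have b6 := hY y0 hy0Y y b4
    refine ⟨b4, by omega, by omega⟩
  have h3 : B.card ≤ ((red Y).image (fun r : ℕ => (r : ZMod m))).card := by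
    apply Finset.card_le_card_of_injOn (fun y => ((y - y0 - 2 : ℕ) : ZMod m))
    · intro y hy
      have h4 := h2 y hy
      rw [Finset.mem_coe, mem_image]
      exact ⟨_, step_mem_red hy0Y h4.1 h4.2.1, rfl⟩
    · intro y hy z hz hyz
      have h4 := h2 y hy
      have h5 := h2 z hz
      dsimp only at hyz
      rw [ZMod.natCast_eq_natCast_iff'] at hyz
      rw [Nat.mod_eq_of_lt h4.2.2, Nat.mod_eq_of_lt h5.2.2] at hyz
      omega
  omega

theorem step (m' m : ℕ) (hm : m' ≤ m) (A Y : Finset ℕ) (hA : ∀ a ∈ A, a < m')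
    (hAne : A.Nonempty) (hY : ∀ y ∈ Y, ∀ y' ∈ Y, y' ≤ y + m + 2) (hY5 : 5 ≤ Y.card) :
    ∃ A' : Finset ℕ, (∀ a' ∈ A', a' < m ∧ ∃ a ∈ A, ∃ r ∈ red Y, a + r = a' ∨ a + r = a' + m) ∧
      A.card ≤ A'.card ∧ (2 * A.card + Y.card ≤ 2 * A'.card + 3 ∨ m ≤ 2 * A'.card) := by
  classical
  obtain ⟨a0, ha0⟩ := hAne
  have hm0 : 0 < m := by
    have := hA a0 ha0
    omega
  have : NeZero m := ⟨hm0.ne'⟩
  set T : Finset (ZMod m) := A.image (fun a : ℕ => (a : ZMod m)) with hT
  set R : Finset (ZMod m) := (red Y).image (fun r : ℕ => (r : ZMod m)) with hR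
  have hTcard : T.card = A.card := by
    rw [hT, Finset.card_image_of_injOn]
    intro a ha b hb hab
    have h1 := hA a ha
    have h2 := hA b hb
    dsimp only at hab
    rw [ZMod.natCast_eq_natCast_iff'] at hab
    rwa [Nat.mod_eq_of_lt (by omega), Nat.mod_eq_of_lt (by omega)] at hab
  have h0 : (0 : ZMod m) ∈ R := by
    rw [hR, mem_image]
    refine ⟨0, ?_, by simp⟩
    unfold red
    exact mem_insert_self _ _
  have hTR : T ⊆ T + R := by
    intro t ht
    rw [Finset.mem_add]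
    exact ⟨t, ht, 0, h0, add_zero t⟩
  have h2 : ∃ a ∈ R, ∃ b ∈ R, a + b + 2 ∈ R := by
    set f := Y.orderEmbOfFin rfl with hf
    have hmem : ∀ i, f i ∈ Y := fun i => Y.orderEmbOfFin_mem rfl i
    have l01 : f ⟨0, by omega⟩ < f ⟨1, by omega⟩ := f.strictMono (by
      rw [Fin.mk_lt_mk]; omega)
    have l12 : f ⟨1, by omega⟩ < f ⟨2, by omega⟩ := f.strictMono (by
      rw [Fin.mk_lt_mk]; omega)
    have l23 : f ⟨2, by omega⟩ < f ⟨3, by omega⟩ := f.strictMono (by
      rw [Fin.mk_lt_mk]; omega)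
    have l34 : f ⟨3, by omega⟩ < f ⟨4, by omega⟩ := f.strictMono (by
      rw [Fin.mk_lt_mk]; omega)
    have a1 := hmem ⟨0, by omega⟩
    have a2 := hmem ⟨2, by omega⟩
    have a3 := hmem ⟨4, by omega⟩
    generalize f ⟨0, by omega⟩ = u0 at *
    generalize f ⟨1, by omega⟩ = u1 at *
    generalize f ⟨2, by omega⟩ = u2 at *
    generalize f ⟨3, by omega⟩ = u3 at *
    generalize f ⟨4, by omega⟩ = u4 at *
    refine ⟨((u2 - u0 - 2 : ℕ) : ZMod m), mem_image_of_mem _ (step_mem_red a1 a2 (by omega)),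
      ((u4 - u2 - 2 : ℕ) : ZMod m), mem_image_of_mem _ (step_mem_red a2 a3 (by omega)), ?_⟩
    have h3 : ((u2 - u0 - 2 : ℕ) : ZMod m) + ((u4 - u2 - 2 : ℕ) : ZMod m) + 2 =
        ((u4 - u0 - 2 : ℕ) : ZMod m) := by
      rw [show u4 - u0 - 2 = (u2 - u0 - 2) + (u4 - u2 - 2) + 2 by omega]
      push_cast
      ring
    rw [h3]
    exact mem_image_of_mem _ (step_mem_red a1 a3 (by omega))
  have hYne : Y.Nonempty := by
    rw [← Finset.card_pos]
    omega
  have hRcard := step_card hY hYne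
  rw [← hR] at hRcard
  have hTne : T.Nonempty := ⟨_, mem_image_of_mem _ ha0⟩
  have hg := grow m T R hTne h0 h2
  have hA' : ((T + R).image ZMod.val).card = (T + R).card :=
    Finset.card_image_of_injective _ (ZMod.val_injective m)
  refine ⟨(T + R).image ZMod.val, ?_, ?_, ?_⟩
  · intro a' ha'
    rw [mem_image] at ha'
    obtain ⟨z, hz, rfl⟩ := ha'
    refine ⟨ZMod.val_lt z, ?_⟩
    rw [Finset.mem_add] at hz
    obtain ⟨t, ht, r, hr, rfl⟩ := hz
    rw [hT, mem_image] at ht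
    rw [hR, mem_image] at hr
    obtain ⟨a, ha, rfl⟩ := ht
    obtain ⟨r, hr, rfl⟩ := hr
    refine ⟨a, ha, r, hr, ?_⟩
    have h4 : ((a : ZMod m) + (r : ZMod m)).val = (a + r) % m := by
      rw [← Nat.cast_add, ZMod.val_natCast]
    rw [h4]
    have h5 := hA a ha
    have h6 := step_red_le hY hr
    have h7 := Nat.div_add_mod (a + r) m
    have h8 : (a + r) / m < 2 := by
      rw [Nat.div_lt_iff_lt_mul hm0]
      omega
    have h9 : (a + r) / m = 0 ∨ (a + r) / m = 1 := by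
      generalize (a + r) / m = q at h8 ⊢
      omega
    rcases h9 with h9 | h9
    · left
      rw [h9] at h7
      omega
    · right
      rw [h9] at h7
      omega
  · rw [hA', ← hTcard]
    exact Finset.card_le_card hTR
  · rw [hA']
    rcases hg with hg | hg
    · left
      omega
    · right
      exact hg

end Pool.Agent.Helper36.QA
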