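import Pool.Agent.Helper36.QA.Defs
import Pool.Agent.Helper36.QA.Step

set_option autoImplicit false

namespace Pool.Agent.Helper36.QA

open Finset
open scoped Pointwise
open Pool.Agent.Helper36.CL (HasF Ham IsChord Gad)
open Pool.Agent.Helper36.Hub (Cy)

private theorem gr_zero (Y : Finset ℕ) : 0 ∈ red Y := Finset.mem_insert_self _ _

private theorem gr_mem {Y : Finset ℕ} {y r : ℕ} (h1 : y ∈ Y) (h2 : y + (r + 2) ∈ Y) : r ∈ red Y := by
  unfold red
  refine Finset.mem_insert_of_mem (Finset.mem_image.2 ⟨(y, y + (r + 2)), ?_, ?_⟩)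
  · refine Finset.mem_filter.2 ⟨Finset.mem_product.2 ⟨h1, h2⟩, ?_⟩
    show y + 2 ≤ y + (r + 2)
    omega
  · show y + (r + 2) - y - 2 = r
    omega

private theorem gr_mono {H Y : Finset ℕ} (h : H ⊆ Y) : red H ⊆ red Y := by
  unfold red
  exact Finset.insert_subset_insert _ (Finset.image_subset_image
    (Finset.filter_subset_filter _ (Finset.product_subset_product h h)))

private theorem gr_real_insert {ι : Type*} [DecidableEq ι] {T : Finset ι} {Y : ι → Finset ℕ}
    {i : ι} (hi : i ∉ T) {t r : ℕ} (h : Real T Y t) (hr : r ∈ red (Y i)) :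
    Real (insert i T) Y (t + r) := by
  obtain ⟨ρ, h1, h2⟩ := h
  refine ⟨Function.update ρ i r, ?_, ?_⟩
  · intro j hj
    rcases Finset.mem_insert.1 hj with rfl | hj
    · rw [Function.update_self]; exact hr
    · have hji : j ≠ i := fun e => hi (e ▸ hj)
      rw [Function.update_of_ne hji]; exact h1 j hj
  · rw [Finset.sum_insert hi, Function.update_self]
    have : ∑ j ∈ T, Function.update ρ i r j = ∑ j ∈ T, ρ j := by
      refine Finset.sum_congr rfl (fun j hj => ?_)
      have hji : j ≠ i := fun e => hi (e ▸ hj)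
      rw [Function.update_of_ne hji]
    rw [this, h2]; omega

private theorem gr_card {Y : Finset ℕ} {l : ℕ} (h : ∀ y ∈ Y, ∀ y' ∈ Y, y' ≤ y + l) :
    Y.card ≤ l + 1 := by
  rcases Y.eq_empty_or_nonempty with rfl | hne
  · simp
  · have hmin := Finset.min'_mem Y hne
    have hsub : Y ⊆ Finset.Icc (Y.min' hne) (Y.min' hne + l) := by
      intro y hy
      exact Finset.mem_Icc.2 ⟨Finset.min'_le Y y hy, h _ hmin y hy⟩
    have := Finset.card_le_card hsub
    rw [Nat.card_Icc] at this
    omega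

/-- half of a set -/
private theorem gr_half {Y : Finset ℕ} {l l' y0 : ℕ} (hy : y0 ∈ Y) (hy' : y0 + l' ∈ Y)
    (h : ∀ y ∈ Y, ∀ y' ∈ Y, y' ≤ y + l') (hll : l' ≤ 2 * l) :
    ∃ H ⊆ Y, (∀ y ∈ H, ∀ y' ∈ H, y' ≤ y + l) ∧ Y.card ≤ 2 * H.card := by
  classical
  have hmin : ∀ y ∈ Y, y0 ≤ y := fun y hyy => by have := h y hyy _ hy'; omega
  have hmax : ∀ y ∈ Y, y ≤ y0 + l' := fun y hyy => h _ hy y hyy
  set H1 := Y.filter (fun y => y ≤ y0 + l)
  set H2 := Y.filter (fun y => y0 + l' ≤ y + l)
  have hcov : Y ⊆ H1 ∪ H2 := by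
    intro y hyy
    rw [Finset.mem_union, Finset.mem_filter, Finset.mem_filter]
    by_cases h1 : y ≤ y0 + l
    · exact Or.inl ⟨hyy, h1⟩
    · exact Or.inr ⟨hyy, by omega⟩
  have hc : Y.card ≤ H1.card + H2.card :=
    (Finset.card_le_card hcov).trans (Finset.card_union_le _ _)
  rcases le_total H2.card H1.card with h12 | h12
  · refine ⟨H1, Finset.filter_subset _ _, ?_, by omega⟩
    intro y hyy y' hyy'
    have a1 := hmin y (Finset.mem_filter.1 hyy).1
    have a2 := (Finset.mem_filter.1 hyy').2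
    omega
  · refine ⟨H2, Finset.filter_subset _ _, ?_, by omega⟩
    intro y hyy y' hyy'
    have a1 := hmax y' (Finset.mem_filter.1 hyy').1
    have a2 := (Finset.mem_filter.1 hyy).2
    omega

/-- one step of the growth, abstract form -/
private theorem gr_one {ι : Type*} [DecidableEq ι] {T' : Finset ι} {Y : ι → Finset ℕ}
    {g h : ι} (hgh : g ≠ h) (hg : g ∉ T') (hh : h ∉ T') {β' m' m : ℕ} {A' Yg : Finset ℕ}
    (hYg : red Yg ⊆ red (Y g)) (hmh : m ∈ red (Y h)) (hm : m' ≤ m)
    (hA : ∀ a ∈ A', a < m' ∧ Real T' Y (β' + a)) (hAne : A'.Nonempty)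
    (hY : ∀ y ∈ Yg, ∀ y' ∈ Yg, y' ≤ y + m + 2) (hY5 : 5 ≤ Yg.card) :
    ∃ A : Finset ℕ, (∀ a ∈ A, a < m ∧ Real (insert h (insert g T')) Y (β' + m + a)) ∧
      A'.card ≤ A.card ∧ (2 * A'.card + Yg.card ≤ 2 * A.card + 3 ∨ m ≤ 2 * A.card) := by
  obtain ⟨A, h1, h2, h3⟩ := step m' m hm A' Yg (fun a ha => (hA a ha).1) hAne hY hY5
  refine ⟨A, ?_, h2, h3⟩
  intro a ha
  obtain ⟨ham, a0, ha0, r, hr, hor⟩ := h1 a ha
  refine ⟨ham, ?_⟩
  have hR := gr_real_insert hg (hA a0 ha0).2 (hYg hr)
  have hhn : h ∉ insert g T' := by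
    intro hmem
    rcases Finset.mem_insert.1 hmem with e | e
    · exact hgh e.symm
    · exact hh e
  rcases hor with e | e
  · have := gr_real_insert hhn hR hmh
    have e2 : β' + a0 + r + m = β' + m + a := by omega
    rwa [e2] at this
  · have := gr_real_insert hhn hR (gr_zero (Y h))
    have e2 : β' + a0 + r + 0 = β' + m + a := by omega
    rwa [e2] at this

private theorem gr_even {ι : Type*} [DecidableEq ι] (Y : ι → Finset ℕ) (l : ι → ℕ) (ℓ : ℕ) :
    ∀ (k : ℕ) (T : Finset ι), T.card = 2 * k → Diam T Y l → (∀ i ∈ T, 12 ≤ (Y i).card) →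
    (∀ i ∈ T, ℓ ≤ l i ∧ l i < 2 * ℓ) →
    ∃ (β m : ℕ) (A : Finset ℕ), A.Nonempty ∧ (∀ a ∈ A, a < m ∧ Real T Y (β + a)) ∧
      ((T = ∅ ∧ m = 1) ∨ ∃ j ∈ T, m + 2 ≤ l j) ∧
      (16 + ∑ i ∈ T, (Y i).card ≤ 16 * A.card ∨ ℓ ≤ 2 * A.card + 2) := by
  intro k
  induction k with
  | zero =>
    intro T hT _ _ _
    have hT0 : T = ∅ := Finset.card_eq_zero.1 (by omega)
    subst hT0
    refine ⟨0, 1, {0}, Finset.singleton_nonempty _, ?_, Or.inl ⟨rfl, rfl⟩, Or.inl (by simp)⟩
    intro a ha
    rw [Finset.mem_singleton] at ha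
    subst ha
    exact ⟨by norm_num, fun _ => 0, fun i hi => absurd hi (Finset.notMem_empty i), by simp⟩
  | succ k ih =>
    intro T hT hd hc hl
    have hTne : T.Nonempty := Finset.card_pos.1 (by omega)
    obtain ⟨i', hi', hmax'⟩ := Finset.exists_max_image T l hTne
    have hEc : (T.erase i').card = 2 * k + 1 := by rw [Finset.card_erase_of_mem hi']; omega
    have hEne : (T.erase i').Nonempty := Finset.card_pos.1 (by omega)
    obtain ⟨i, hi, hmax⟩ := Finset.exists_max_image (T.erase i') l hEne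
    have hiT : i ∈ T := Finset.mem_of_mem_erase hi
    have hii : i ≠ i' := Finset.ne_of_mem_erase hi
    set T' := (T.erase i').erase i with hT'
    have hT'c : T'.card = 2 * k := by rw [hT', Finset.card_erase_of_mem hi]; omega
    have hT'T : T' ⊆ T := (Finset.erase_subset _ _).trans (Finset.erase_subset _ _)
    have hTe : T = insert i' (insert i T') := by
      rw [hT', Finset.insert_erase hi, Finset.insert_erase hi']
    have hiT' : i ∉ T' := Finset.notMem_erase _ _
    have hi'T' : i' ∉ T' := fun h => (Finset.notMem_erase i' T) (Finset.mem_of_mem_erase h)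
    obtain ⟨β', m', A', hAne, hA, hm', hsz⟩ := ih T' hT'c (fun j hj => hd j (hT'T hj))
      (fun j hj => hc j (hT'T hj)) (fun j hj => hl j (hT'T hj))
    have hll : l i ≤ l i' := hmax' i hiT
    have hli := hl i hiT
    have hli' := hl i' hi'
    have hci := hc i hiT
    have hci' := hc i' hi'
    have hli11 : 11 ≤ l i := by have := gr_card (hd i hiT).2; omega
    have hm'i : m' + 2 ≤ l i := by
      rcases hm' with ⟨_, h⟩ | ⟨j, hj, h⟩
      · omega
      · have := hmax j (Finset.mem_of_mem_erase hj)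
        omega
    have hsum : ∑ j ∈ T, (Y j).card = (Y i').card + ((Y i).card + ∑ j ∈ T', (Y j).card) := by
      rw [hTe, Finset.sum_insert, Finset.sum_insert hiT']
      intro h
      rcases Finset.mem_insert.1 h with e | e
      · exact hii e.symm
      · exact hi'T' e
    have hcomm : insert i (insert i' T') = T := by rw [hTe, Finset.insert_comm]
    -- the common end of both cases
    have fin : ∀ (m : ℕ) (A Yg : Finset ℕ), (∀ a ∈ A, a < m ∧ Real T Y (β' + m + a)) →
        A'.card ≤ A.card → (2 * A'.card + Yg.card ≤ 2 * A.card + 3 ∨ m ≤ 2 * A.card) →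
        (∃ j ∈ T, m + 2 = l j) → (Y i).card + (Y i').card ≤ 4 * Yg.card →
        ∃ (β m : ℕ) (A : Finset ℕ), A.Nonempty ∧ (∀ a ∈ A, a < m ∧ Real T Y (β + a)) ∧
          ((T = ∅ ∧ m = 1) ∨ ∃ j ∈ T, m + 2 ≤ l j) ∧
          (16 + ∑ i ∈ T, (Y i).card ≤ 16 * A.card ∨ ℓ ≤ 2 * A.card + 2) := by
      intro m A Yg h1 h2 h3 h4 h5
      obtain ⟨j, hj, hmj⟩ := h4
      have hA'pos : 0 < A'.card := Finset.card_pos.2 hAne
      refine ⟨β' + m, m, A, Finset.card_pos.1 (by omega), h1, Or.inr ⟨j, hj, hmj.le⟩, ?_⟩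
      have hlj := (hl j hj).1
      rw [hsum]
      rcases hsz with hsz | hsz
      · rcases h3 with h3 | h3
        · left; omega
        · right; omega
      · right; omega
    rcases le_or_gt (Y i').card (Y i).card with hcmp | hcmp
    · -- case (a)
      obtain ⟨⟨y, hy, hyl⟩, _⟩ := hd i' hi'
      have hmem : l i' - 2 ∈ red (Y i') := by
        refine gr_mem hy ?_
        have e : l i' - 2 + 2 = l i' := by omega
        rw [e]; exact hyl
      obtain ⟨A, h1, h2, h3⟩ := gr_one (T' := T') (Y := Y) (g := i) (h := i') hii hiT' hi'T'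
        (β' := β') (m' := m') (m := l i' - 2) (A' := A') (Yg := Y i) (fun x hx => hx) hmem
        (by omega) hA hAne
        (fun y hy y' hy' => by have := (hd i hiT).2 y hy y' hy'; omega) (by omega)
      rw [← hTe] at h1
      exact fin _ A (Y i) h1 h2 h3 ⟨i', hi', by omega⟩ (by omega)
    · -- case (b)
      obtain ⟨⟨y, hy, hyl⟩, _⟩ := hd i hiT
      have hmem : l i - 2 ∈ red (Y i) := by
        refine gr_mem hy ?_
        have e : l i - 2 + 2 = l i := by omega
        rw [e]; exact hyl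
      obtain ⟨⟨z, hz, hzl⟩, hdz⟩ := hd i' hi'
      obtain ⟨H, hHs, hHd, hHc⟩ := gr_half (l := l i) hz hzl hdz (by omega)
      obtain ⟨A, h1, h2, h3⟩ := gr_one (T' := T') (Y := Y) (g := i') (h := i) hii.symm hi'T' hiT'
        (β' := β') (m' := m') (m := l i - 2) (A' := A') (Yg := H) (gr_mono hHs) hmem
        (by omega) hA hAne
        (fun y hy y' hy' => by have := hHd y hy y' hy'; omega) (by omega)
      rw [hcomm] at h1
      exact fin _ A H h1 h2 h3 ⟨i, hiT, by omega⟩ (by omega)

private theorem gr_red_card {Y : Finset ℕ} {y0 : ℕ} (hy : y0 ∈ Y)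
    (h : ∀ y ∈ Y, y0 ≤ y) : Y.card ≤ (red Y).card + 2 := by
  classical
  have hsub : Y ⊆ insert y0 (insert (y0 + 1) ((red Y).image (fun r => y0 + (r + 2)))) := by
    intro y hyy
    have h0 := h y hyy
    rw [Finset.mem_insert, Finset.mem_insert]
    by_cases h1 : y = y0
    · exact Or.inl h1
    · by_cases h2 : y = y0 + 1
      · exact Or.inr (Or.inl h2)
      · refine Or.inr (Or.inr (Finset.mem_image.2 ⟨y - y0 - 2, ?_, by omega⟩))
        refine gr_mem hy ?_
        have e : y0 + (y - y0 - 2 + 2) = y := by omega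
        rw [e]; exact hyy
  have h1 := Finset.card_le_card hsub
  have h2 := Finset.card_insert_le y0 (insert (y0 + 1) ((red Y).image (fun r => y0 + (r + 2))))
  have h3 := Finset.card_insert_le (y0 + 1) ((red Y).image (fun r => y0 + (r + 2)))
  have h4 := Finset.card_image_le (s := red Y) (f := fun r => y0 + (r + 2))
  omega

theorem gr {ι : Type*} [DecidableEq ι] (T : Finset ι) (Y : ι → Finset ℕ) (l : ι → ℕ) (ℓ : ℕ)
    (hne : T.Nonempty) (hd : Diam T Y l) (hc : ∀ i ∈ T, 12 ≤ (Y i).card)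
    (hl : ∀ i ∈ T, ℓ ≤ l i ∧ l i < 2 * ℓ) :
    ∃ (β : ℕ) (A : Finset ℕ), A.Nonempty ∧ (∀ a ∈ A, a < 2 * ℓ ∧ Real T Y (β + a)) ∧
      (24 + ∑ i ∈ T, (Y i).card ≤ 24 * A.card ∨ ℓ ≤ 2 * A.card + 2) := by
  rcases Nat.even_or_odd T.card with ⟨k, hk⟩ | ⟨k, hk⟩
  · obtain ⟨β, m, A, hAne, hA, hm, hsz⟩ := gr_even Y l ℓ k T (by omega) hd hc hl
    have hm2 : m < 2 * ℓ := by
      rcases hm with ⟨h, _⟩ | ⟨j, hj, h⟩
      · exact absurd h hne.ne_empty
      · have := hl j hj; omega
    refine ⟨β, A, hAne, fun a ha => ⟨by have := (hA a ha).1; omega, (hA a ha).2⟩, ?_⟩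
    rcases hsz with h | h
    · left; omega
    · right; exact h
  · rcases Nat.eq_zero_or_pos k with rfl | hkpos
    · -- one toggle
      obtain ⟨i, hi⟩ := Finset.card_eq_one.1 (by omega : T.card = 1)
      subst hi
      have hiT : i ∈ ({i} : Finset ι) := Finset.mem_singleton_self i
      obtain ⟨⟨y0, hy0, hyl⟩, hdi⟩ := hd i hiT
      have hli := hl i hiT
      have hci := hc i hiT
      have hmin : ∀ y ∈ Y i, y0 ≤ y := fun y hy => by have := hdi y hy _ hyl; omega
      have hrc := gr_red_card hy0 hmin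
      refine ⟨0, red (Y i), ⟨0, gr_zero _⟩, ?_, ?_⟩
      · intro a ha
        refine ⟨?_, fun _ => a, ?_, ?_⟩
        · unfold red at ha
          rcases Finset.mem_insert.1 ha with rfl | ha
          · omega
          · obtain ⟨⟨p, q⟩, hpq, rfl⟩ := Finset.mem_image.1 ha
            obtain ⟨hpq1, hpq2⟩ := Finset.mem_filter.1 hpq
            obtain ⟨hp, hq⟩ := Finset.mem_product.1 hpq1
            have := hdi p hp q hq
            simp only at hpq2 this ⊢
            omega
        · intro j hj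
          rw [Finset.mem_singleton] at hj
          subst hj
          exact ha
        · rw [Finset.sum_singleton]; omega
      · left
        rw [Finset.sum_singleton]
        omega
    · -- remove a smallest toggle
      obtain ⟨i0, hi0, hmin⟩ := Finset.exists_min_image T (fun i => (Y i).card) hne
      have hTc : (T.erase i0).card = 2 * k := by rw [Finset.card_erase_of_mem hi0]; omega
      have hsubT : T.erase i0 ⊆ T := Finset.erase_subset _ _
      obtain ⟨β, m, A, hAne, hA, hm, hsz⟩ := gr_even Y l ℓ k (T.erase i0) hTc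
        (fun j hj => hd j (hsubT hj)) (fun j hj => hc j (hsubT hj)) (fun j hj => hl j (hsubT hj))
      have hm2 : m < 2 * ℓ := by
        rcases hm with ⟨h, _⟩ | ⟨j, hj, h⟩
        · rw [h] at hTc; simp at hTc; omega
        · have := hl j (hsubT hj); omega
      have hi0n : i0 ∉ T.erase i0 := Finset.notMem_erase _ _
      refine ⟨β, A, hAne, fun a ha => ⟨by have := (hA a ha).1; omega, ?_⟩, ?_⟩
      · have := gr_real_insert hi0n (hA a ha).2 (gr_zero (Y i0))
        rw [Finset.insert_erase hi0] at this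
        exact this
      · rcases hsz with h | h
        · left
          have hs : ∑ i ∈ T, (Y i).card = (Y i0).card + ∑ i ∈ T.erase i0, (Y i).card :=
            (Finset.add_sum_erase T (fun i => (Y i).card) hi0).symm
          have h2 : (T.erase i0).card * (Y i0).card ≤ ∑ i ∈ T.erase i0, (Y i).card := by
            have := Finset.card_nsmul_le_sum (T.erase i0) (fun i => (Y i).card) (Y i0).card
              (fun j hj => hmin j (hsubT hj))
            rwa [smul_eq_mul] at this
          rw [hTc] at h2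
          have h3 : 2 * (Y i0).card ≤ 2 * k * (Y i0).card := by
            have : 1 ≤ k := hkpos
            nlinarith
          rw [hs]
          omega
        · right; exact h

end Pool.Agent.Helper36.QA
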