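import Pool.Agent.Helper36.QA.Defs
import Pool.Agent.Helper36.QA.Gr

set_option autoImplicit false

namespace Pool.Agent.Helper36.QA

open Finset
open scoped Pointwise
open Pool.Agent.Helper36.CL (HasF Ham IsChord Gad)
open Pool.Agent.Helper36.Hub (Cy)

private theorem classsums_zero_mem (Y : Finset ℕ) : 0 ∈ red Y := mem_insert_self _ _

private theorem classsums_full {Y : Finset ℕ} {y l : ℕ} (h1 : y ∈ Y) (h2 : y + l ∈ Y)
    (hl : 2 ≤ l) : l - 2 ∈ red Y := by
  refine mem_insert_of_mem (mem_image.2 ⟨(y, y + l), mem_filter.2 ⟨mem_product.2 ⟨h1, h2⟩, ?_⟩, ?_⟩)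
  · simp only
    omega
  · simp only
    omega

private theorem classsums_add {ι : Type*} [DecidableEq ι] {S S' : Finset ι} {Y : ι → Finset ℕ}
    {s s' : ℕ} (hd : Disjoint S S') (h : Real S Y s) (h' : Real S' Y s') :
    Real (S ∪ S') Y (s + s') := by
  obtain ⟨ρ, h1, h2⟩ := h
  obtain ⟨ρ', h1', h2'⟩ := h'
  refine ⟨fun i => if i ∈ S then ρ i else ρ' i, ?_, ?_⟩
  · intro i hi
    by_cases hS : i ∈ S
    · simp only [hS, if_true]
      exact h1 i hS
    · simp only [hS, if_false]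
      exact h1' i ((mem_union.1 hi).resolve_left hS)
  · rw [sum_union hd]
    congr 1
    · rw [← h2]
      exact sum_congr rfl fun i hi => by simp [hi]
    · rw [← h2']
      refine sum_congr rfl fun i hi => ?_
      have : i ∉ S := fun h => (disjoint_left.1 hd) h hi
      simp [this]

private theorem classsums_zero {ι : Type*} (S : Finset ι) (Y : ι → Finset ℕ) : Real S Y 0 :=
  ⟨fun _ => 0, fun _ _ => classsums_zero_mem _, by simp⟩

private theorem classsums_mono {ι : Type*} [DecidableEq ι] {S T : Finset ι} {Y : ι → Finset ℕ}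
    {s : ℕ} (hST : S ⊆ T) (h : Real S Y s) : Real T Y s := by
  have h1 := classsums_add (disjoint_sdiff (s := S) (t := T)) h (classsums_zero (T \ S) Y)
  rwa [union_sdiff_of_subset hST, add_zero] at h1

private theorem classsums_card {ι : Type*} {T : Finset ι} {Y : ι → Finset ℕ} {l : ι → ℕ}
    (hd : Diam T Y l) {i : ι} (hi : i ∈ T) : (Y i).card ≤ l i + 1 := by
  obtain ⟨⟨y, hy, hy'⟩, h⟩ := hd i hi
  have : Y i ⊆ Icc y (y + l i) := by
    intro z hz
    rw [mem_Icc]
    refine ⟨?_, h y hy z hz⟩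
    have := h z hz _ hy'
    omega
  have h2 := card_le_card this
  rw [Nat.card_Icc] at h2
  omega

private theorem classsums_split {ι : Type*} [DecidableEq ι] (c : ι → ℕ) (ℓ : ℕ) (T : Finset ι)
    (hc : ∀ i ∈ T, c i ≤ 2 * ℓ) (hT : 24 * ℓ < ∑ i ∈ T, c i) :
    ∃ T0 ⊆ T, 24 * ℓ < ∑ i ∈ T0, c i ∧ ∑ i ∈ T0, c i ≤ 26 * ℓ := by
  induction T using Finset.induction_on with
  | empty => simp at hT
  | insert i T hi ih =>
    by_cases h : ∑ j ∈ insert i T, c j ≤ 26 * ℓ
    · exact ⟨_, Subset.refl _, hT, h⟩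
    · have h1 : ∑ j ∈ insert i T, c j = c i + ∑ j ∈ T, c j := sum_insert hi
      have h2 := hc i (mem_insert_self _ _)
      obtain ⟨T0, hT0, h3⟩ := ih (fun j hj => hc j (mem_insert_of_mem hj)) (by omega)
      exact ⟨T0, hT0.trans (subset_insert _ _), h3⟩

private theorem classsums_chain {ι : Type*} [DecidableEq ι] (T0 U : Finset ι)
    (Y : ι → Finset ℕ) (f : ι → ℕ) (ℓ β : ℕ) (A : Finset ℕ) (hℓ : 6 ≤ ℓ)
    (hA : ∀ a ∈ A, a < 2 * ℓ ∧ Real T0 Y (β + a)) (hdis : Disjoint T0 U)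
    (hf : ∀ i ∈ U, f i ∈ red (Y i)) (hf' : ∀ i ∈ U, ℓ ≤ f i + 2) (k : ℕ) (hk : 3 * k ≤ U.card) :
    ∃ V ⊆ U, V.card = 3 * k ∧ ∃ B : Finset ℕ,
      (∀ t ∈ B, β ≤ t ∧ t < β + ∑ i ∈ V, f i + 2 * ℓ ∧ Real (T0 ∪ V) Y t) ∧
      (k + 1) * A.card ≤ B.card := by
  induction k with
  | zero =>
    refine ⟨∅, empty_subset _, by simp, A.image (fun a => β + a), ?_, ?_⟩
    · intro t ht
      obtain ⟨a, ha, rfl⟩ := mem_image.1 ht
      obtain ⟨h1, h2⟩ := hA a ha
      refine ⟨by omega, ?_, ?_⟩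
      · rw [sum_empty]
        omega
      · rw [union_empty]
        exact h2
    · rw [card_image_of_injective _ (fun a b h => by simpa using h)]
      omega
  | succ k ih =>
    obtain ⟨V, hVU, hVc, B, hB, hBc⟩ := ih (by omega)
    have h3 : 3 ≤ (U \ V).card := by
      rw [card_sdiff_of_subset hVU]
      omega
    obtain ⟨W, hWU, hWc⟩ := exists_subset_card_eq h3
    have hVW : Disjoint V W := disjoint_of_subset_right hWU disjoint_sdiff
    have hWU' : W ⊆ U := hWU.trans sdiff_subset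
    have hV'U : V ∪ W ⊆ U := union_subset hVU hWU'
    have hsum : ∑ i ∈ V ∪ W, f i = ∑ i ∈ V, f i + ∑ i ∈ W, f i := sum_union hVW
    have hW3 : 3 * ℓ ≤ ∑ i ∈ W, f i + 6 := by
      have h4 : ∑ i ∈ W, ℓ ≤ ∑ i ∈ W, (f i + 2) := sum_le_sum fun i hi => hf' i (hWU' hi)
      rw [sum_const, sum_add_distrib, sum_const, hWc] at h4
      simp only [smul_eq_mul] at h4
      omega
    have hfull : Real (V ∪ W) Y (∑ i ∈ V ∪ W, f i) :=
      ⟨f, fun i hi => hf i (hV'U hi), rfl⟩
    refine ⟨V ∪ W, hV'U, by rw [card_union_of_disjoint hVW]; omega,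
      B ∪ A.image (fun a => β + a + ∑ i ∈ V ∪ W, f i), ?_, ?_⟩
    · intro t ht
      rcases mem_union.1 ht with ht | ht
      · obtain ⟨h4, h5, h6⟩ := hB t ht
        refine ⟨h4, by omega, classsums_mono (union_subset_union_right subset_union_left) h6⟩
      · obtain ⟨a, ha, rfl⟩ := mem_image.1 ht
        obtain ⟨h4, h5⟩ := hA a ha
        refine ⟨by omega, by omega, ?_⟩
        exact classsums_add (disjoint_of_subset_right hV'U hdis) h5 hfull
    · rw [card_union_of_disjoint, card_image_of_injective _ (fun a b h => by simpa using h)]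
      · rw [add_mul (k + 1) 1]
        omega
      · rw [disjoint_left]
        intro t ht ht'
        obtain ⟨a, ha, rfl⟩ := mem_image.1 ht'
        obtain ⟨h4, h5, -⟩ := hB _ ht
        omega

theorem class_sums {ι : Type*} [DecidableEq ι] (T : Finset ι) (Y : ι → Finset ℕ) (l : ι → ℕ)
    (ℓ : ℕ) (hd : Diam T Y l) (hc : ∀ i ∈ T, 12 ≤ (Y i).card)
    (hl : ∀ i ∈ T, ℓ ≤ l i ∧ l i < 2 * ℓ) :
    ∃ (x : ℕ) (B : Finset ℕ), (∀ t ∈ B, x ≤ t ∧ t ≤ x + (∑ i ∈ T, (Y i).card + 2 * ℓ) ∧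
      Real T Y t) ∧ ∑ i ∈ T, (Y i).card + 480 ≤ 480 * B.card := by
  rcases T.eq_empty_or_nonempty with rfl | hne
  · refine ⟨0, {0}, ?_, by simp⟩
    intro t ht
    rw [mem_singleton] at ht
    subst ht
    exact ⟨le_rfl, by simp, classsums_zero _ _⟩
  have hY : ∀ i ∈ T, (Y i).card ≤ 2 * ℓ := fun i hi => by
    have h1 := classsums_card hd hi
    have h2 := (hl i hi).2
    omega
  have hℓ : 6 ≤ ℓ := by
    obtain ⟨i, hi⟩ := hne
    have h1 := hY i hi
    have h2 := hc i hi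
    omega
  set M := ∑ i ∈ T, (Y i).card with hM
  by_cases hcase : M ≤ 48 * ℓ
  · obtain ⟨β, A, hAne, hA, hA2⟩ := gr T Y l ℓ hne hd hc hl
    refine ⟨β, A.image (fun a => β + a), ?_, ?_⟩
    · intro t ht
      obtain ⟨a, ha, rfl⟩ := mem_image.1 ht
      obtain ⟨h1, h2⟩ := hA a ha
      exact ⟨by omega, by omega, h2⟩
    · rw [card_image_of_injective _ (fun a b h => by simpa using h)]
      rcases hA2 with h | h
      · rw [← hM] at h
        omega
      · omega
  · push Not at hcase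
    obtain ⟨T0, hT0, hm1, hm2⟩ := classsums_split (fun i => (Y i).card) ℓ T hY (by omega)
    have hT0ne : T0.Nonempty := by
      rw [nonempty_iff_ne_empty]
      rintro rfl
      simp at hm1
    obtain ⟨β, A, hAne, hA, hA2⟩ := gr T0 Y l ℓ hT0ne (fun i hi => hd i (hT0 hi))
      (fun i hi => hc i (hT0 hi)) (fun i hi => hl i (hT0 hi))
    have hA3 : ℓ ≤ 3 * A.card := by
      rcases hA2 with h | h
      · omega
      · omega
    -- the rest
    have hmass : ∑ i ∈ T \ T0, (Y i).card + ∑ i ∈ T0, (Y i).card = M := sum_sdiff hT0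
    have hmass2 : ∑ i ∈ T \ T0, (Y i).card ≤ (T \ T0).card * (2 * ℓ) := by
      have := sum_le_card_nsmul (T \ T0) (fun i => (Y i).card) (2 * ℓ)
        (fun i hi => hY i (sdiff_subset hi))
      simpa using this
    set J := M / (5 * ℓ) with hJ
    have hJ1 : 5 * ℓ * J ≤ M := Nat.mul_div_le _ _
    have hJ2 : M < 5 * ℓ * (J + 1) := by
      have := Nat.lt_div_mul_add (a := M) (b := 5 * ℓ) (by omega)
      rw [← hJ] at this
      nlinarith
    have hJ3 : J ≤ (T \ T0).card := by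
      by_contra hcon
      push Not at hcon
      have h1 : (T \ T0).card + 1 ≤ J := hcon
      have h2 : ((T \ T0).card + 1) * (2 * ℓ) ≤ J * (2 * ℓ) := Nat.mul_le_mul_right _ h1
      nlinarith
    obtain ⟨V, hVU, hVc, B, hB, hBc⟩ := classsums_chain T0 (T \ T0) Y (fun i => l i - 2) ℓ β A hℓ
      hA disjoint_sdiff
      (fun i hi => by
        obtain ⟨⟨y, hy, hy'⟩, -⟩ := hd i (sdiff_subset hi)
        have h1 := (hl i (sdiff_subset hi)).1
        exact classsums_full hy hy' (by omega))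
      (fun i hi => by
        have h1 := (hl i (sdiff_subset hi)).1
        omega)
      (J / 3) (by omega)
    have hVsum : ∑ i ∈ V, (l i - 2) ≤ M := by
      have h1 : ∑ i ∈ V, (l i - 2) ≤ V.card * (2 * ℓ) := by
        have := sum_le_card_nsmul V (fun i => l i - 2) (2 * ℓ) (fun i hi => by
          have h1 := (hl i (sdiff_subset (hVU hi))).2
          omega)
        simpa using this
      have h2 : V.card ≤ J := by omega
      have h3 : V.card * (2 * ℓ) ≤ J * (2 * ℓ) := Nat.mul_le_mul_right _ h2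
      nlinarith
    refine ⟨β, B, ?_, ?_⟩
    · intro t ht
      obtain ⟨h1, h2, h3⟩ := hB t ht
      exact ⟨h1, by omega, classsums_mono (union_subset hT0 (hVU.trans sdiff_subset)) h3⟩
    · -- 9 |B| ≥ (J+1) ℓ
      have h1 : J + 1 ≤ 3 * (J / 3 + 1) := by omega
      have h2 : (J + 1) * ℓ ≤ (3 * (J / 3 + 1)) * (3 * A.card) := Nat.mul_le_mul h1 hA3
      have h3 : (3 * (J / 3 + 1)) * (3 * A.card) = 9 * ((J / 3 + 1) * A.card) := by ring
      have h4 : (J + 1) * ℓ ≤ 9 * B.card := by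
        rw [h3] at h2
        omega
      have h5 : 5 * ℓ * (J + 1) = 5 * ((J + 1) * ℓ) := by ring
      rw [h5] at hJ2
      omega

end Pool.Agent.Helper36.QA
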