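import Pool.Agent.Helper36.QA.Defs
import Pool.Agent.Helper36.QA.ClassSums

set_option autoImplicit false

namespace Pool.Agent.Helper36.QA

open Finset
open scoped Pointwise
open Pool.Agent.Helper36.CL (HasF Ham IsChord Gad)
open Pool.Agent.Helper36.Hub (Cy)

theorem sums_real_empty {ι : Type*} (Y : ι → Finset ℕ) : Real ∅ Y 0 :=
  ⟨fun _ => 0, fun i hi => absurd hi (Finset.notMem_empty i), Finset.sum_empty⟩

theorem sums_real_union {ι : Type*} [DecidableEq ι] {T C : Finset ι} {Y : ι → Finset ℕ}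
    (hdis : Disjoint T C) {a c : ℕ} (ha : Real T Y a) (hc : Real C Y c) :
    Real (T ∪ C) Y (a + c) := by
  obtain ⟨ρ, h1, h2⟩ := ha
  obtain ⟨σ, h3, h4⟩ := hc
  refine ⟨fun i => if i ∈ T then ρ i else σ i, ?_, ?_⟩
  · intro i hi
    by_cases hT : i ∈ T
    · simp only [hT, if_true]
      exact h1 i hT
    · simp only [hT, if_false]
      rcases Finset.mem_union.mp hi with h | h
      · exact absurd h hT
      · exact h3 i h
  · rw [Finset.sum_union hdis, ← h2, ← h4]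
    congr 1
    · apply Finset.sum_congr rfl
      intro i hi
      rw [if_pos hi]
    · apply Finset.sum_congr rfl
      intro i hi
      rw [if_neg (fun h => Finset.disjoint_left.mp hdis h hi)]

theorem sums_diam (Z : Finset ℕ) (h : Z.Nonempty) :
    ∃ L : ℕ, (∃ y ∈ Z, y + L ∈ Z) ∧ ∀ y ∈ Z, ∀ y' ∈ Z, y' ≤ y + L := by
  refine ⟨Z.max' h - Z.min' h, ⟨Z.min' h, Z.min'_mem h, ?_⟩, ?_⟩
  · have h1 : Z.min' h ≤ Z.max' h := Z.min'_le _ (Z.max'_mem h)
    rw [Nat.add_sub_cancel' h1]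
    exact Z.max'_mem h
  · intro y hy y' hy'
    have h1 := Z.min'_le _ hy
    have h2 := Z.le_max' _ hy'
    omega

theorem sums_step {ι : Type*} [DecidableEq ι] (T : Finset ι) (Y : ι → Finset ℕ) (l : ι → ℕ)
    (hd : Diam T Y l) (hc : ∀ i ∈ T, 12 ≤ (Y i).card) (hl : ∀ i ∈ T, 1 ≤ l i) (k : ℕ) :
    ∃ (x : ℕ) (S : Finset ℕ), (∀ s ∈ S, x ≤ s ∧
      s ≤ x + (∑ i ∈ T.filter (fun i => l i < 2 ^ k), (Y i).card + 2 * 2 ^ k) ∧
      Real (T.filter (fun i => l i < 2 ^ k)) Y s) ∧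
      ∑ i ∈ T.filter (fun i => l i < 2 ^ k), (Y i).card + 480 ≤ 480 * S.card := by
  induction k with
  | zero =>
    have h0 : T.filter (fun i => l i < 2 ^ 0) = ∅ := by
      rw [Finset.filter_eq_empty_iff]
      intro i hi h
      have := hl i hi
      rw [pow_zero] at h
      omega
    rw [h0]
    refine ⟨0, {0}, ?_, by simp⟩
    intro s hs
    rw [Finset.mem_singleton] at hs
    subst hs
    exact ⟨le_rfl, by omega, sums_real_empty Y⟩
  | succ k ih =>
    obtain ⟨x, S, hS, hSc⟩ := ih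
    obtain ⟨x', B, hB, hBc⟩ := class_sums (T.filter (fun i => 2 ^ k ≤ l i ∧ l i < 2 * 2 ^ k)) Y l
      (2 ^ k) (fun i hi => hd i (Finset.mem_filter.mp hi).1)
      (fun i hi => hc i (Finset.mem_filter.mp hi).1) (fun i hi => (Finset.mem_filter.mp hi).2)
    have hdis : Disjoint (T.filter (fun i => l i < 2 ^ k))
        (T.filter (fun i => 2 ^ k ≤ l i ∧ l i < 2 * 2 ^ k)) := by
      rw [Finset.disjoint_left]
      intro i h1 h2
      have h3 := (Finset.mem_filter.mp h1).2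
      have h4 := (Finset.mem_filter.mp h2).2
      omega
    have hun : T.filter (fun i => l i < 2 ^ (k + 1)) = T.filter (fun i => l i < 2 ^ k) ∪
        T.filter (fun i => 2 ^ k ≤ l i ∧ l i < 2 * 2 ^ k) := by
      ext i
      simp only [Finset.mem_union, Finset.mem_filter, pow_succ]
      constructor
      · rintro ⟨h1, h2⟩
        by_cases h3 : l i < 2 ^ k
        · exact Or.inl ⟨h1, h3⟩
        · exact Or.inr ⟨h1, by omega, by omega⟩
      · rintro (⟨h1, h2⟩ | ⟨h1, h2, h3⟩)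
        · exact ⟨h1, by omega⟩
        · exact ⟨h1, by omega⟩
    rw [hun, Finset.sum_union hdis]
    refine ⟨x + x', S + B, ?_, ?_⟩
    · intro s hs
      obtain ⟨a, ha, c, hc', rfl⟩ := Finset.mem_add.mp hs
      obtain ⟨h1, h2, h3⟩ := hS a ha
      obtain ⟨h4, h5, h6⟩ := hB c hc'
      refine ⟨by omega, ?_, sums_real_union hdis h3 h6⟩
      rw [pow_succ]
      omega
    · have hSn : S.Nonempty := by
        rw [← Finset.card_pos]; omega
      have hBn : B.Nonempty := by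
        rw [← Finset.card_pos]; omega
      have h7 : S.card + B.card - 1 ≤ (S + B).card :=
        cauchy_davenport_add_of_linearOrder_isCancelAdd hSn hBn
      omega

theorem sums_cluster {ι : Type*} [DecidableEq ι] (T : Finset ι) (Y : ι → Finset ℕ) (b : ℕ)
    (hc : ∀ i ∈ T, 12 ≤ (Y i).card) (hb : ∀ i ∈ T, ∀ y ∈ Y i, ∀ y' ∈ Y i, y' < y + b) :
    ∃ (x : ℕ) (S : Finset ℕ), (∀ s ∈ S, x ≤ s ∧ s ≤ x + (∑ i ∈ T, (Y i).card + 4 * b) ∧
      Real T Y s) ∧ ∑ i ∈ T, (Y i).card + 480 ≤ 480 * S.card := by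
  rcases T.eq_empty_or_nonempty with hT | hT
  · subst hT
    refine ⟨0, {0}, ?_, by simp⟩
    intro s hs
    rw [Finset.mem_singleton] at hs
    subst hs
    exact ⟨le_rfl, by omega, sums_real_empty Y⟩
  have hex : ∀ i, ∃ L : ℕ, i ∈ T → ((∃ y ∈ Y i, y + L ∈ Y i) ∧
      ∀ y ∈ Y i, ∀ y' ∈ Y i, y' ≤ y + L) := by
    intro i
    by_cases hi : i ∈ T
    · have h1 : (Y i).Nonempty := by
        rw [← Finset.card_pos]
        have := hc i hi
        omega
      obtain ⟨L, hL⟩ := sums_diam (Y i) h1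
      exact ⟨L, fun _ => hL⟩
    · exact ⟨0, fun h => absurd h hi⟩
  choose l hl using hex
  have hd : Diam T Y l := fun i hi => hl i hi
  have hl1 : ∀ i ∈ T, 1 ≤ l i := by
    intro i hi
    by_contra h0
    have h0' : l i = 0 := by omega
    have h1 : (Y i).card ≤ 1 := by
      rw [Finset.card_le_one]
      intro a ha c hc'
      have h2 := (hl i hi).2 a ha c hc'
      have h3 := (hl i hi).2 c hc' a ha
      omega
    have := hc i hi
    omega
  have hlb : ∀ i ∈ T, l i < b := by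
    intro i hi
    obtain ⟨y, hy, hy'⟩ := (hl i hi).1
    have := hb i hi y hy _ hy'
    omega
  have hb2 : 1 < b := by
    obtain ⟨i, hi⟩ := hT
    have h1 := hl1 i hi
    have h2 := hlb i hi
    omega
  obtain ⟨k, hk1, hk2⟩ : ∃ k : ℕ, b ≤ 2 ^ k ∧ 2 ^ k ≤ 2 * b := by
    refine ⟨Nat.clog 2 b, Nat.le_pow_clog one_lt_two b, ?_⟩
    have h1 := Nat.pow_pred_clog_lt_self one_lt_two hb2
    have h2 : 0 < Nat.clog 2 b := Nat.clog_pos one_lt_two hb2
    obtain ⟨j, hj⟩ : ∃ j, Nat.clog 2 b = j + 1 := ⟨Nat.clog 2 b - 1, by omega⟩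
    rw [hj] at h1 ⊢
    rw [Nat.pred_succ] at h1
    rw [pow_succ]
    omega
  obtain ⟨x, S, hS, hSc⟩ := sums_step T Y l hd hc hl1 k
  have hTk : T.filter (fun i => l i < 2 ^ k) = T := by
    rw [Finset.filter_eq_self]
    intro i hi
    exact (hlb i hi).trans_le hk1
  rw [hTk] at hS hSc
  refine ⟨x, S, ?_, hSc⟩
  intro s hs
  obtain ⟨h1, h2, h3⟩ := hS s hs
  exact ⟨h1, by omega, h3⟩

end Pool.Agent.Helper36.QA
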