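import Pool.Agent.Helper36.QA.Defs

/-!
# Shortening a cycle at free hubs
-/

set_option autoImplicit false

namespace Pool.Agent.Helper36.QA

open Finset
open scoped Pointwise
open Pool.Agent.Helper36.CL (HasF Ham IsChord Gad)
open Pool.Agent.Helper36.Hub (Cy)

/-- The cycle which uses the hub `h` instead of the vertices strictly between the positions
`y` and `y + d + 2`. -/
def tog_u (u : ℕ → ℕ) (y d h : ℕ) (k : ℕ) : ℕ :=
  if k ≤ y then u k else if k = y + 1 then h else u (k + d)

theorem tog_u_le {u : ℕ → ℕ} {y d h k : ℕ} (hk : k ≤ y) : tog_u u y d h k = u k := by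
  rw [tog_u, if_pos hk]

theorem tog_u_eq {u : ℕ → ℕ} {y d h k : ℕ} (hk : k = y + 1) : tog_u u y d h k = h := by
  rw [tog_u, if_neg (by omega), if_pos hk]

theorem tog_u_gt {u : ℕ → ℕ} {y d h k : ℕ} (hk : y + 2 ≤ k) : tog_u u y d h k = u (k + d) := by
  rw [tog_u, if_neg (by omega), if_neg (by omega)]

theorem tog_cy {G : SimpleGraph ℕ} {N : ℕ} {u : ℕ → ℕ} (hu : Cy G N u) {y d h : ℕ}
    (hN : y + d + 2 < N) (h1 : G.Adj (u y) h) (h2 : G.Adj (u (y + d + 2)) h)
    (hoff : ∀ k < N, u k ≠ h) : Cy G (N - d) (tog_u u y d h) := by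
  refine ⟨by omega, ?_, ?_, ?_⟩
  · intro i hi j hj hij
    rcases Nat.lt_trichotomy i (y + 1) with hi1 | hi1 | hi1
    · rw [tog_u_le (by omega : i ≤ y)] at hij
      rcases Nat.lt_trichotomy j (y + 1) with hj1 | hj1 | hj1
      · rw [tog_u_le (by omega : j ≤ y)] at hij
        exact hu.inj i (by omega) j (by omega) hij
      · rw [tog_u_eq hj1] at hij
        exact absurd hij (hoff i (by omega))
      · rw [tog_u_gt (by omega : y + 2 ≤ j)] at hij
        have := hu.inj i (by omega) (j + d) (by omega) hij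
        omega
    · rw [tog_u_eq hi1] at hij
      rcases Nat.lt_trichotomy j (y + 1) with hj1 | hj1 | hj1
      · rw [tog_u_le (by omega : j ≤ y)] at hij
        exact absurd hij.symm (hoff j (by omega))
      · omega
      · rw [tog_u_gt (by omega : y + 2 ≤ j)] at hij
        exact absurd hij.symm (hoff (j + d) (by omega))
    · rw [tog_u_gt (by omega : y + 2 ≤ i)] at hij
      rcases Nat.lt_trichotomy j (y + 1) with hj1 | hj1 | hj1
      · rw [tog_u_le (by omega : j ≤ y)] at hij
        have := hu.inj (i + d) (by omega) j (by omega) hij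
        omega
      · rw [tog_u_eq hj1] at hij
        exact absurd hij (hoff (i + d) (by omega))
      · rw [tog_u_gt (by omega : y + 2 ≤ j)] at hij
        have := hu.inj (i + d) (by omega) (j + d) (by omega) hij
        omega
  · intro i hi
    rcases Nat.lt_trichotomy i y with hi1 | hi1 | hi1
    · rw [tog_u_le (by omega : i ≤ y), tog_u_le (by omega : i + 1 ≤ y)]
      exact hu.step i (by omega)
    · rw [tog_u_le (by omega : i ≤ y), tog_u_eq (by omega : i + 1 = y + 1), hi1]
      exact h1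
    · rcases Nat.lt_or_ge i (y + 2) with hi2 | hi2
      · rw [tog_u_eq (by omega : i = y + 1), tog_u_gt (by omega : y + 2 ≤ i + 1)]
        have : i + 1 + d = y + d + 2 := by omega
        rw [this]
        exact h2.symm
      · rw [tog_u_gt hi2, tog_u_gt (by omega : y + 2 ≤ i + 1)]
        have : i + 1 + d = i + d + 1 := by omega
        rw [this]
        exact hu.step (i + d) (by omega)
  · rw [tog_u_gt (by omega : y + 2 ≤ N - d - 1), tog_u_le (Nat.zero_le y)]
    have : N - d - 1 + d = N - 1 := by omega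
    rw [this]
    exact hu.close

theorem toggles_hasF {ι : Type*} [DecidableEq ι] {G : SimpleGraph ℕ} {N : ℕ} {u : ℕ → ℕ}
    (hu : Cy G N u) (T : Finset ι) (Y : ι → Finset ℕ) (g : ι → ℕ)
    (hne : ∀ i ∈ T, (Y i).Nonempty)
    (hY : ∀ i ∈ T, ∀ y ∈ Y i, y < N ∧ G.Adj (u y) (g i))
    (hoff : ∀ i ∈ T, ∀ y < N, u y ≠ g i) (hinj : ∀ i ∈ T, ∀ j ∈ T, i ≠ j → g i ≠ g j)
    (hdis : ∀ i ∈ T, ∀ j ∈ T, i ≠ j →
      (∀ y ∈ Y i, ∀ y' ∈ Y j, y < y') ∨ (∀ y ∈ Y i, ∀ y' ∈ Y j, y' < y))
    {t : ℕ} (ht : Real T Y t) : t + 3 ≤ N ∧ HasF G (N - t) := by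
  induction hc : T.card generalizing T N u t with
  | zero =>
    have hT : T = ∅ := Finset.card_eq_zero.mp hc
    subst hT
    obtain ⟨ρ, -, hρ⟩ := ht
    rw [Finset.sum_empty] at hρ
    subst hρ
    have h3 := hu.three
    refine ⟨by omega, ?_⟩
    rw [Nat.sub_zero]
    exact ⟨h3, u, hu.inj, hu.step, hu.close⟩
  | succ c ih =>
    have hTne : T.Nonempty := by
      rw [← Finset.card_pos]
      omega
    obtain ⟨i₀, hi₀, hmax⟩ := Finset.exists_max_image T (fun i => (Y i).sup id) hTne
    have hlt : ∀ j ∈ T, j ≠ i₀ → ∀ y ∈ Y j, ∀ y' ∈ Y i₀, y < y' := by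
      intro j hj hji
      rcases hdis j hj i₀ hi₀ hji with h | h
      · exact h
      · exfalso
        obtain ⟨y, hy⟩ := hne j hj
        obtain ⟨y', hy'⟩ := hne i₀ hi₀
        have h1 : (Y i₀).sup id < y := by
          rw [Finset.sup_lt_iff (by have := h y hy y' hy'; simp only [Nat.bot_eq_zero]; omega)]
          intro b hb
          exact h y hy b hb
        have h2 : y ≤ (Y j).sup id := Finset.le_sup (f := id) hy
        have h3 := hmax j hj
        omega
    have hsub : ∀ j ∈ T.erase i₀, j ∈ T := fun j hj => Finset.mem_of_mem_erase hj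
    have hcard : (T.erase i₀).card = c := by
      rw [Finset.card_erase_of_mem hi₀, hc]
      rfl
    obtain ⟨ρ, hρ, hsum⟩ := ht
    rw [← Finset.add_sum_erase T ρ hi₀] at hsum
    have hreal : Real (T.erase i₀) Y (∑ i ∈ T.erase i₀, ρ i) :=
      ⟨ρ, fun i hi => hρ i (hsub i hi), rfl⟩
    have hρ0 := hρ i₀ hi₀
    rw [red, Finset.mem_insert] at hρ0
    rcases hρ0 with h0 | h0
    · have h4 := ih hu (T.erase i₀) (fun i hi => hne i (hsub i hi))
        (fun i hi => hY i (hsub i hi)) (fun i hi => hoff i (hsub i hi))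
        (fun i hi j hj => hinj i (hsub i hi) j (hsub j hj))
        (fun i hi j hj => hdis i (hsub i hi) j (hsub j hj)) hreal hcard
      rw [h0, zero_add] at hsum
      rw [hsum] at h4
      exact h4
    · rw [Finset.mem_image] at h0
      obtain ⟨⟨y, y'⟩, hp, hd⟩ := h0
      rw [Finset.mem_filter, Finset.mem_product] at hp
      obtain ⟨⟨hy, hy'⟩, hyy⟩ := hp
      dsimp only at hy hy' hyy hd
      have hyN := (hY i₀ hi₀ y' hy').1
      obtain ⟨d, hd'⟩ : ∃ d, d = y' - y - 2 := ⟨_, rfl⟩
      have hy'e : y' = y + d + 2 := by omega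
      rw [← hd'] at hd
      have hcy : Cy G (N - d) (tog_u u y d (g i₀)) := by
        refine tog_cy hu (by omega) (hY i₀ hi₀ y hy).2 ?_ (fun k hk => hoff i₀ hi₀ k hk)
        rw [← hy'e]
        exact (hY i₀ hi₀ y' hy').2
      have h4 := ih hcy (T.erase i₀) (fun i hi => hne i (hsub i hi)) ?_ ?_
        (fun i hi j hj => hinj i (hsub i hi) j (hsub j hj))
        (fun i hi j hj => hdis i (hsub i hi) j (hsub j hj)) hreal hcard
      · have h5 : N - d - ∑ i ∈ T.erase i₀, ρ i = N - t := by omega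
        rw [h5] at h4
        refine ⟨?_, h4.2⟩
        have := h4.1
        omega
      · intro i hi z hz
        have h5 := hlt i (hsub i hi) (Finset.ne_of_mem_erase hi) z hz y hy
        refine ⟨by omega, ?_⟩
        rw [tog_u_le (by omega : z ≤ y)]
        exact (hY i (hsub i hi) z hz).2
      · intro i hi z hz
        rcases Nat.lt_trichotomy z (y + 1) with hz1 | hz1 | hz1
        · rw [tog_u_le (by omega : z ≤ y)]
          exact hoff i (hsub i hi) z (by omega)
        · rw [tog_u_eq hz1]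
          exact hinj i₀ hi₀ i (hsub i hi) (Ne.symm (Finset.ne_of_mem_erase hi))
        · rw [tog_u_gt (by omega : y + 2 ≤ z)]
          exact hoff i (hsub i hi) (z + d) (by omega)

end Pool.Agent.Helper36.QA
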