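import Pool.Agent.Helper36.QA.Defs
import Pool.Agent.Helper36.QA.Sums
import Pool.Agent.Helper36.QA.Tog

/-!
# A crossing matching of cells gives a cluster of cycle lengths
-/

set_option autoImplicit false

namespace Pool.Agent.Helper36.QA

open Finset
open scoped Pointwise
open Pool.Agent.Helper36.CL (HasF Ham IsChord Gad)
open Pool.Agent.Helper36.Hub (Cy)

/-- The general form: a cycle and free hubs with separated position sets. -/
theorem cellswin_core {G : SimpleGraph ℕ} {N : ℕ} {u : ℕ → ℕ} (hu : Cy G N u) (b : ℕ)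
    (F : Finset (ℕ × ℕ)) (Z : ℕ × ℕ → Finset ℕ) (g : ℕ × ℕ → ℕ)
    (hc : ∀ f ∈ F, 12 ≤ (Z f).card)
    (hZ : ∀ f ∈ F, ∀ y ∈ Z f, y < N ∧ G.Adj (u y) (g f))
    (hb : ∀ f ∈ F, ∀ y ∈ Z f, ∀ y' ∈ Z f, y' < y + b)
    (hoff : ∀ f ∈ F, ∀ y < N, u y ≠ g f) (hinj : ∀ e ∈ F, ∀ f ∈ F, e ≠ f → g e ≠ g f)
    (hdis : ∀ e ∈ F, ∀ f ∈ F, e ≠ f →
      (∀ y ∈ Z e, ∀ y' ∈ Z f, y < y') ∨ (∀ y ∈ Z e, ∀ y' ∈ Z f, y' < y))
    (hM : ∑ f ∈ F, (Z f).card ≤ 2 * b) :
    ∃ k, Clus G (6 * b) k ∧ ∑ f ∈ F, (Z f).card ≤ 480 * k := by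
  obtain ⟨x, S, hS, hcard⟩ := sums_cluster F Z b hc hb
  have hne : ∀ f ∈ F, (Z f).Nonempty := by
    intro f hf
    rw [← Finset.card_pos]
    have := hc f hf
    omega
  have hs : ∀ s ∈ S, s + 3 ≤ N ∧ HasF G (N - s) := fun s hs =>
    toggles_hasF hu F Z g hne hZ hoff hinj hdis (hS s hs).2.2
  refine ⟨S.card, ⟨N - (x + (∑ f ∈ F, (Z f).card + 4 * b)), S.image (fun s => N - s), ?_, ?_⟩,
    by omega⟩
  · intro t ht
    rw [Finset.mem_image] at ht
    obtain ⟨s, hsS, rfl⟩ := ht
    have h1 := hS s hsS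
    have h2 := hs s hsS
    exact ⟨by omega, by omega, h2.2⟩
  · rw [Finset.card_image_of_injOn]
    intro s hsS s' hsS' h
    have h1 := (hs s hsS).1
    have h2 := (hs s' hsS').1
    have h3 : N - s = N - s' := h
    omega

theorem cells_win {G : SimpleGraph ℕ} {n : ℕ} (hG : Ham G n) (lam : ℕ → ℕ) (b : ℕ)
    (hmono : Monotone lam) (hwid : ∀ x y, x ≤ y → lam x = lam y → y < x + b)
    (F : Finset (ℕ × ℕ)) (hF : Mat F) (Y : ℕ × ℕ → Finset ℕ) (g : ℕ × ℕ → ℕ)
    (hY : ∀ f ∈ F, 12 ≤ (Y f).card ∧ ∀ v ∈ Y f, lam v = f.1 ∧ v < n ∧ G.Adj v (g f))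
    (hg : ∀ f ∈ F, lam (g f) = f.2 ∧ g f < n) (l ρ : ℕ) (hr : IsChord G n l ρ)
    (hcr : (∀ f ∈ F, f.1 < lam l ∧ lam l < f.2 ∧ f.2 < lam ρ) ∨
      (∀ f ∈ F, lam l < f.1 ∧ f.1 < lam ρ ∧ lam ρ < f.2))
    (hM : ∑ f ∈ F, (Y f).card ≤ 2 * b) :
    ∃ k, Clus G (6 * b) k ∧ ∑ f ∈ F, (Y f).card ≤ 480 * k := by
  obtain ⟨hr1, hr2, hr3, hr4⟩ := hr
  obtain ⟨hn3, hstep, hclose⟩ := hG
  have hlt : ∀ x y, lam x < lam y → x < y := by
    intro x y h
    by_contra h'
    have := hmono (Nat.le_of_not_lt h')
    omega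
  have hinj : ∀ e ∈ F, ∀ f ∈ F, e ≠ f → g e ≠ g f := by
    intro e he f hf hef h
    have h1 := (hF e he f hf hef).2
    rw [← (hg e he).1, ← (hg f hf).1, h] at h1
    exact h1 rfl
  have hb : ∀ f ∈ F, ∀ y ∈ Y f, ∀ y' ∈ Y f, y' < y + b := by
    intro f hf y hy y' hy'
    have h1 := ((hY f hf).2 y hy).1
    have h2 := ((hY f hf).2 y' hy').1
    rcases Nat.le_total y y' with h | h
    · exact hwid y y' h (by omega)
    · have := hwid y' y h (by omega)
      rcases Nat.eq_or_lt_of_le h with h3 | h3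
      · omega
      · omega
  have hdis : ∀ e ∈ F, ∀ f ∈ F, e ≠ f →
      (∀ y ∈ Y e, ∀ y' ∈ Y f, y < y') ∨ (∀ y ∈ Y e, ∀ y' ∈ Y f, y' < y) := by
    intro e he f hf hef
    have h1 := (hF e he f hf hef).1
    rcases Nat.lt_or_gt_of_ne h1 with h | h
    · left
      intro y hy y' hy'
      apply hlt
      rw [((hY e he).2 y hy).1, ((hY f hf).2 y' hy').1]
      exact h
    · right
      intro y hy y' hy'
      apply hlt
      rw [((hY e he).2 y hy).1, ((hY f hf).2 y' hy').1]
      exact h
  rcases hcr with hcr | hcr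
  · have hu : Cy G (l + 1 + (n - ρ)) (fun k => if k ≤ l then k else ρ + (k - l - 1)) := by
      refine ⟨by omega, ?_, ?_, ?_⟩
      · intro i hi j hj hij
        split_ifs at hij <;> omega
      · intro i hi
        rcases Nat.lt_trichotomy i l with h | h | h
        · rw [if_pos (by omega), if_pos (by omega)]
          exact hstep i (by omega)
        · rw [if_pos (by omega), if_neg (by omega), h]
          have : ρ + (l + 1 - l - 1) = ρ := by omega
          rw [this]
          exact hr4
        · rw [if_neg (by omega), if_neg (by omega)]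
          have : ρ + (i + 1 - l - 1) = ρ + (i - l - 1) + 1 := by omega
          rw [this]
          exact hstep _ (by omega)
      · rw [if_neg (by omega), if_pos (Nat.zero_le l)]
        have : ρ + (l + 1 + (n - ρ) - 1 - l - 1) = n - 1 := by omega
        rw [this]
        exact hclose
    refine cellswin_core hu b F Y g (fun f hf => (hY f hf).1) ?_ hb ?_ hinj hdis hM
    · intro f hf y hy
      have h1 := (hY f hf).2 y hy
      have h2 : y < l := by
        apply hlt
        rw [h1.1]
        exact (hcr f hf).1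
      refine ⟨by omega, ?_⟩
      rw [if_pos (by omega)]
      exact h1.2.2
    · intro f hf y hy h
      have h1 := hg f hf
      have h2 := hcr f hf
      have h3 : l < g f := by
        apply hlt
        rw [h1.1]
        exact h2.2.1
      have h4 : g f < ρ := by
        apply hlt
        rw [h1.1]
        exact h2.2.2
      split_ifs at h <;> omega
  · have hu : Cy G (ρ - l + 1) (fun k => l + k) := by
      refine ⟨by omega, ?_, ?_, ?_⟩
      · intro i hi j hj hij
        omega
      · intro i hi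
        have : l + (i + 1) = l + i + 1 := by omega
        rw [this]
        exact hstep _ (by omega)
      · have : l + (ρ - l + 1 - 1) = ρ := by omega
        rw [this, Nat.add_zero]
        exact hr4.symm
    have hpos : ∀ f ∈ F, ∀ v ∈ Y f, l < v ∧ v < ρ := by
      intro f hf v hv
      have h1 := (hY f hf).2 v hv
      have h2 := hcr f hf
      refine ⟨hlt _ _ ?_, hlt _ _ ?_⟩
      · rw [h1.1]
        exact h2.1
      · rw [h1.1]
        exact h2.2.1
    have hcard : ∀ f ∈ F, ((Y f).image (fun v => v - l)).card = (Y f).card := by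
      intro f hf
      apply Finset.card_image_of_injOn
      intro v hv v' hv' h
      have h1 := hpos f hf v hv
      have h2 := hpos f hf v' hv'
      have h3 : v - l = v' - l := h
      omega
    have hsum : ∑ f ∈ F, ((Y f).image (fun v => v - l)).card = ∑ f ∈ F, (Y f).card :=
      Finset.sum_congr rfl hcard
    rw [← hsum] at hM ⊢
    refine cellswin_core hu b F (fun f => (Y f).image (fun v => v - l)) g ?_ ?_ ?_ ?_ hinj ?_ hM
    · intro f hf
      rw [hcard f hf]
      exact (hY f hf).1
    · intro f hf y hy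
      rw [Finset.mem_image] at hy
      obtain ⟨v, hv, rfl⟩ := hy
      have h1 := hpos f hf v hv
      refine ⟨by omega, ?_⟩
      have : l + (v - l) = v := by omega
      rw [this]
      exact ((hY f hf).2 v hv).2.2
    · intro f hf y hy y' hy'
      rw [Finset.mem_image] at hy hy'
      obtain ⟨v, hv, rfl⟩ := hy
      obtain ⟨v', hv', rfl⟩ := hy'
      have h1 := hpos f hf v hv
      have h2 := hpos f hf v' hv'
      have h3 := hb f hf v hv v' hv'
      omega
    · intro f hf y hy h
      have h1 := hg f hf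
      have h2 := (hcr f hf).2.2
      have h3 : ρ < g f := by
        apply hlt
        rw [h1.1]
        exact h2
      omega
    · intro e he f hf hef
      rcases hdis e he f hf hef with h | h
      · left
        intro y hy y' hy'
        rw [Finset.mem_image] at hy hy'
        obtain ⟨v, hv, rfl⟩ := hy
        obtain ⟨v', hv', rfl⟩ := hy'
        have h1 := hpos e he v hv
        have h2 := hpos f hf v' hv'
        have h3 := h v hv v' hv'
        omega
      · right
        intro y hy y' hy'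
        rw [Finset.mem_image] at hy hy'
        obtain ⟨v, hv, rfl⟩ := hy
        obtain ⟨v', hv', rfl⟩ := hy'
        have h1 := hpos e he v hv
        have h2 := hpos f hf v' hv'
        have h3 := h v hv v' hv'
        omega

end Pool.Agent.Helper36.QA
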