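import Pool.Agent.Helper36.QA.Defs

/-!
# QA-1: the matching number `nu` and the greedy matching inequality
-/

set_option autoImplicit false

namespace Pool.Agent.Helper36.QA

open Finset
open scoped Pointwise
open Pool.Agent.Helper36.CL (HasF Ham IsChord Gad)
open Pool.Agent.Helper36.Hub (Cy)

theorem nu_le {F : Finset (ℕ × ℕ)} {k : ℕ} (h : ∀ T ⊆ F, Mat T → T.card ≤ k) : nu F ≤ k := by
  classical
  unfold nu
  refine Finset.sup_le fun T hT => ?_
  rw [mem_filter, mem_powerset] at hT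
  exact h T hT.1 hT.2

theorem le_nu {F T : Finset (ℕ × ℕ)} (hT : T ⊆ F) (hM : Mat T) : T.card ≤ nu F := by
  classical
  unfold nu
  exact Finset.le_sup (f := Finset.card) (mem_filter.2 ⟨mem_powerset.2 hT, hM⟩)

theorem exists_nu (F : Finset (ℕ × ℕ)) : ∃ T ⊆ F, Mat T ∧ T.card = nu F := by
  classical
  have hne : (F.powerset.filter (fun T => Mat T)).Nonempty :=
    ⟨∅, mem_filter.2 ⟨mem_powerset.2 (empty_subset _), fun e he => absurd he (notMem_empty e)⟩⟩
  obtain ⟨T, hT, h⟩ := Finset.exists_mem_eq_sup _ hne Finset.card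
  rw [mem_filter, mem_powerset] at hT
  exact ⟨T, hT.1, hT.2, h.symm⟩

theorem nu_mono {F F' : Finset (ℕ × ℕ)} (h : F ⊆ F') : nu F ≤ nu F' :=
  nu_le fun _ hT hM => le_nu (hT.trans h) hM

theorem greedy_family (w : ℕ × ℕ → ℕ) (F : Finset (ℕ × ℕ)) :
    ∃ T ⊆ F, Mat T ∧ ∀ f ∈ F, ∃ g ∈ T, (f.1 = g.1 ∨ f.2 = g.2) ∧ w f ≤ w g := by
  classical
  induction F using Finset.strongInduction with
  | H F ih =>
    rcases F.eq_empty_or_nonempty with rfl | hne
    · exact ⟨∅, empty_subset _, fun e he => absurd he (notMem_empty e),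
        fun f hf => absurd hf (notMem_empty f)⟩
    obtain ⟨g, hg, hmax⟩ := F.exists_max_image w hne
    have hss : F.filter (fun f => f.1 ≠ g.1 ∧ f.2 ≠ g.2) ⊂ F := by
      refine ⟨filter_subset _ _, fun h => ?_⟩
      have := (mem_filter.1 (h hg)).2
      exact this.1 rfl
    obtain ⟨T, hT, hM, hc⟩ := ih _ hss
    have hTg : ∀ f ∈ T, f.1 ≠ g.1 ∧ f.2 ≠ g.2 := fun f hf => (mem_filter.1 (hT hf)).2
    refine ⟨insert g T, ?_, ?_, ?_⟩
    · intro f hf
      rcases mem_insert.1 hf with rfl | hf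
      · exact hg
      · exact (mem_filter.1 (hT hf)).1
    · intro e he f hf hef
      rcases mem_insert.1 he with rfl | he' <;> rcases mem_insert.1 hf with rfl | hf'
      · exact absurd rfl hef
      · exact ⟨(hTg f hf').1.symm, (hTg f hf').2.symm⟩
      · exact hTg e he'
      · exact hM e he' f hf' hef
    · intro f hf
      by_cases h : f.1 ≠ g.1 ∧ f.2 ≠ g.2
      · obtain ⟨g', hg', h'⟩ := hc f (mem_filter.2 ⟨hf, h⟩)
        exact ⟨g', mem_insert_of_mem hg', h'⟩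
      · refine ⟨g, mem_insert_self _ _, ?_, hmax f hf⟩
        by_contra h2
        push Not at h2
        exact h h2

theorem greedy_le {w : ℕ × ℕ → ℕ} {F T : Finset (ℕ × ℕ)}
    (hc : ∀ f ∈ F, ∃ g ∈ T, (f.1 = g.1 ∨ f.2 = g.2) ∧ w f ≤ w g) (s : ℕ) :
    nu (F.filter (fun f => s ≤ w f)) ≤ 2 * (T.filter (fun f => s ≤ w f)).card := by
  classical
  refine nu_le fun P hP hM => ?_
  have hc' : ∀ f : ℕ × ℕ, ∃ g : ℕ × ℕ, f ∈ P →
      (g ∈ T.filter (fun f => s ≤ w f) ∧ (f.1 = g.1 ∨ f.2 = g.2)) := by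
    intro f
    by_cases hf : f ∈ P
    · have h1 := mem_filter.1 (hP hf)
      obtain ⟨g, hg, h2, h3⟩ := hc f h1.1
      exact ⟨g, fun _ => ⟨mem_filter.2 ⟨hg, h1.2.trans h3⟩, h2⟩⟩
    · exact ⟨f, fun h => absurd h hf⟩
  choose φ hφ using hc'
  refine Finset.card_le_mul_card_image_of_maps_to (f := φ) (fun f hf => (hφ f hf).1) 2
    fun g _ => ?_
  have h1 : (P.filter (fun f => φ f = g)) ⊆
      (P.filter (fun f => f.1 = g.1)) ∪ (P.filter (fun f => f.2 = g.2)) := by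
    intro f hf
    obtain ⟨hf1, hf2⟩ := mem_filter.1 hf
    have h2 := (hφ f hf1).2
    rw [hf2] at h2
    rcases h2 with h2 | h2
    · exact mem_union_left _ (mem_filter.2 ⟨hf1, h2⟩)
    · exact mem_union_right _ (mem_filter.2 ⟨hf1, h2⟩)
  have h2 : (P.filter (fun f => f.1 = g.1)).card ≤ 1 := by
    rw [card_le_one]
    intro a ha b hb
    by_contra hab
    exact (hM a (mem_filter.1 ha).1 b (mem_filter.1 hb).1 hab).1
      ((mem_filter.1 ha).2.trans (mem_filter.1 hb).2.symm)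
  have h3 : (P.filter (fun f => f.2 = g.2)).card ≤ 1 := by
    rw [card_le_one]
    intro a ha b hb
    by_contra hab
    exact (hM a (mem_filter.1 ha).1 b (mem_filter.1 hb).1 hab).2
      ((mem_filter.1 ha).2.trans (mem_filter.1 hb).2.symm)
  have h4 := (card_le_card h1).trans (card_union_le _ _)
  omega

theorem greedy (F : Finset (ℕ × ℕ)) (w : ℕ × ℕ → ℕ) (D ε : ℕ) (hw : ∀ f ∈ F, w f ≤ D)
    (hε : ∀ T ⊆ F, Mat T → ∑ f ∈ T, w f ≤ ε) :
    ∑ s ∈ Finset.Icc 1 D, nu (F.filter (fun f => s ≤ w f)) ≤ 2 * ε := by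
  classical
  obtain ⟨T, hT, hM, hc⟩ := greedy_family w F
  have h1 : ∑ s ∈ Finset.Icc 1 D, nu (F.filter (fun f => s ≤ w f)) ≤
      ∑ s ∈ Finset.Icc 1 D, 2 * (T.filter (fun f => s ≤ w f)).card :=
    sum_le_sum fun s _ => greedy_le hc s
  refine h1.trans ?_
  rw [← mul_sum]
  refine Nat.mul_le_mul_left 2 (le_trans (le_of_eq ?_) (hε T hT hM))
  simp only [card_filter]
  rw [sum_comm]
  refine sum_congr rfl fun f hf => ?_
  rw [← card_filter]
  have h2 : (Finset.Icc 1 D).filter (fun s => s ≤ w f) = Finset.Icc 1 (w f) := by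
    ext s
    have := hw f (hT hf)
    simp only [mem_filter, mem_Icc]
    omega
  rw [h2, Nat.card_Icc]
  omega

end Pool.Agent.Helper36.QA
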