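import Pool.Agent.Helper36.QA.Defs
import Pool.Agent.Helper36.QA.Greedy

/-!
# Inserting a vertex: gain of the matching numbers (project QA)
-/

set_option autoImplicit false

namespace Pool.Agent.Helper36.QA

open Finset
open scoped Pointwise

private theorem insert_index_le (S : Finset ℕ) (m : ℕ) (g : ℕ → ℕ) (hm : m ≤ S.card)
    (h : ∀ z ∈ S, (S.filter (fun x => x ≤ z)).card ≤ m → 1 ≤ g z) : m ≤ ∑ z ∈ S, g z := by
  induction S using Finset.induction_on_max generalizing m with
  | empty => simpa using hm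
  | insert a s hmax ih =>
    have ha : a ∉ s := fun h' => lt_irrefl _ (hmax a h')
    rw [Finset.sum_insert ha]
    rw [Finset.card_insert_of_notMem ha] at hm
    have hf : ∀ z ∈ s, (insert a s).filter (fun x => x ≤ z) = s.filter (fun x => x ≤ z) := by
      intro z hz
      rw [Finset.filter_insert, if_neg (not_le.mpr (hmax z hz))]
    rcases Nat.lt_or_ge s.card m with hlt | hge
    · have hm' : m = s.card + 1 := by omega
      have h1 : s.card ≤ ∑ z ∈ s, g z :=
        ih s.card le_rfl (fun z hz hc => h z (mem_insert_of_mem hz) (by rw [hf z hz]; omega))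
      have h2 : 1 ≤ g a := h a (mem_insert_self _ _) (by
        have h3 := card_filter_le (insert a s) (fun x => x ≤ a)
        rw [card_insert_of_notMem ha] at h3
        omega)
      omega
    · have h1 := ih m hge (fun z hz hc => h z (mem_insert_of_mem hz) (by rw [hf z hz]; exact hc))
      omega

private theorem insert_index_ge (S : Finset ℕ) (m : ℕ) (g : ℕ → ℕ) (hm : m ≤ S.card)
    (h : ∀ z ∈ S, (S.filter (fun x => z ≤ x)).card ≤ m → 1 ≤ g z) : m ≤ ∑ z ∈ S, g z := by
  induction S using Finset.induction_on_min generalizing m with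
  | empty => simpa using hm
  | insert a s hmin ih =>
    have ha : a ∉ s := fun h' => lt_irrefl _ (hmin a h')
    rw [Finset.sum_insert ha]
    rw [Finset.card_insert_of_notMem ha] at hm
    have hf : ∀ z ∈ s, (insert a s).filter (fun x => z ≤ x) = s.filter (fun x => z ≤ x) := by
      intro z hz
      rw [Finset.filter_insert, if_neg (not_le.mpr (hmin z hz))]
    rcases Nat.lt_or_ge s.card m with hlt | hge
    · have hm' : m = s.card + 1 := by omega
      have h1 : s.card ≤ ∑ z ∈ s, g z :=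
        ih s.card le_rfl (fun z hz hc => h z (mem_insert_of_mem hz) (by rw [hf z hz]; omega))
      have h2 : 1 ≤ g a := h a (mem_insert_self _ _) (by
        have h3 := card_filter_le (insert a s) (fun x => a ≤ x)
        rw [card_insert_of_notMem ha] at h3
        omega)
      omega
    · have h1 := ih m hge (fun z hz hc => h z (mem_insert_of_mem hz) (by rw [hf z hz]; exact hc))
      omega

private theorem insert_MN_mono (E : Finset (ℕ × ℕ)) (w : ℕ × ℕ → ℕ) (rz : ℕ → ℕ × ℕ)
    (C : Finset ℕ) (q z s : ℕ) : MN E w rz C z s ≤ MN E w rz (insert q C) z s := by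
  unfold MN
  apply nu_mono
  intro f hf
  rw [mem_filter] at hf ⊢
  exact ⟨hf.1, hf.2.1, mem_insert_of_mem hf.2.2.1, mem_insert_of_mem hf.2.2.2⟩

private theorem insert_key_right (E : Finset (ℕ × ℕ)) (w : ℕ × ℕ → ℕ) (rz : ℕ → ℕ × ℕ)
    (C : Finset ℕ) (q : ℕ) (hq : q ∉ C)
    (hr : ∀ z ∈ C, rz z ∈ E ∧ ((rz z).1 = z ∨ (rz z).2 = z))
    (hL : ∀ z ∈ C, ∀ e ∈ E, (e.1 = q ∨ e.2 = q) → e.2 - e.1 ≤ (rz z).2 - (rz z).1)
    (z s ps : ℕ) (hz : z ∈ C) (hqz : q < z) (K : Finset ℕ)
    (hK : ∀ p ∈ K, p ∈ C ∧ q < p ∧ p < ps ∧ (q, p) ∈ E ∧ s ≤ w (q, p))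
    (hno : MN E w rz (insert q C) z s ≤ MN E w rz C z s) :
    K.card + 1 ≤ nu ((E.filter (fun f => f.1 < q ∧ q < f.2 ∧ f.2 < ps)).filter
      (fun f => s ≤ w f)) + 2 * (C.filter (fun x => q < x ∧ x ≤ z)).card := by
  obtain ⟨T, hTF, hTM, hTc⟩ :=
    exists_nu ((Jmp E (rz z) z).filter (fun f => s ≤ w f ∧ f.1 ∈ C ∧ f.2 ∈ C))
  have hT : ∀ f ∈ T, f ∈ E ∧ f.1 < z ∧ z < f.2 ∧ s ≤ w f ∧ f.1 ∈ C ∧ f.2 ∈ C := by
    intro f hf
    have h1 := hTF hf
    rw [mem_filter] at h1
    unfold Jmp at h1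
    rw [mem_filter] at h1
    exact ⟨h1.1.1, h1.1.2.1, h1.1.2.2.1, h1.2.1, h1.2.2.1, h1.2.2.2⟩
  have hcov : ∀ p ∈ K, z < p → ∃ f ∈ T, f.2 = p := by
    intro p hp hzp
    by_contra hcon
    push Not at hcon
    obtain ⟨hpC, hqp, hps, hpE, hpw⟩ := hK p hp
    have hnot : (q, p) ∉ T := fun h => hcon _ h rfl
    have hle : (insert (q, p) T).card ≤ MN E w rz (insert q C) z s := by
      unfold MN
      apply le_nu
      · intro f hf
        rcases mem_insert.mp hf with rfl | hf'
        · rw [mem_filter]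
          refine ⟨?_, hpw, mem_insert_self _ _, mem_insert_of_mem hpC⟩
          unfold Jmp
          rw [mem_filter]
          refine ⟨hpE, hqz, hzp, ?_⟩
          have hl := hL z hz (q, p) hpE (Or.inl rfl)
          rcases (hr z hz).2 with h1 | h2
          · left
            refine ⟨h1, ?_⟩
            simp only at hl ⊢
            omega
          · right
            refine ⟨h2, ?_⟩
            simp only at hl ⊢
            omega
        · have h1 := hTF hf'
          rw [mem_filter] at h1 ⊢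
          exact ⟨h1.1, h1.2.1, mem_insert_of_mem h1.2.2.1, mem_insert_of_mem h1.2.2.2⟩
      · intro e he f hf hef
        rcases mem_insert.mp he with rfl | he' <;> rcases mem_insert.mp hf with rfl | hf'
        · exact absurd rfl hef
        · refine ⟨?_, ?_⟩
          · intro h
            simp only at h
            exact hq (h ▸ (hT f hf').2.2.2.2.1)
          · intro h
            exact hcon f hf' h.symm
        · refine ⟨?_, ?_⟩
          · intro h
            simp only at h
            exact hq (h ▸ (hT e he').2.2.2.2.1)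
          · intro h
            exact hcon e he' h
        · exact hTM e he' f hf' hef
    rw [card_insert_of_notMem hnot] at hle
    have hTc' : T.card = MN E w rz C z s := hTc
    omega
  -- counting
  have hsplit : K.card = (K.filter (fun p => p ≤ z)).card + (K.filter (fun p => ¬ p ≤ z)).card :=
    (Finset.card_filter_add_card_filter_not (s := K) (fun p => p ≤ z)).symm
  have h1 : (K.filter (fun p => p ≤ z)).card ≤ (C.filter (fun x => q < x ∧ x ≤ z)).card := by
    apply card_le_card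
    intro p hp
    rw [mem_filter] at hp ⊢
    exact ⟨(hK p hp.1).1, (hK p hp.1).2.1, hp.2⟩
  have h2 : (K.filter (fun p => ¬ p ≤ z)).card ≤ (T.filter (fun f => f.2 ∈ K)).card := by
    have hsub : K.filter (fun p => ¬ p ≤ z) ⊆ (T.filter (fun f => f.2 ∈ K)).image Prod.snd := by
      intro p hp
      rw [mem_filter] at hp
      obtain ⟨f, hf, hfp⟩ := hcov p hp.1 (by omega)
      rw [mem_image]
      exact ⟨f, mem_filter.mpr ⟨hf, hfp ▸ hp.1⟩, hfp⟩
    exact (card_le_card hsub).trans card_image_le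
  have hsplit2 : (T.filter (fun f => f.2 ∈ K)).card =
      ((T.filter (fun f => f.2 ∈ K)).filter (fun f => f.1 < q)).card +
      ((T.filter (fun f => f.2 ∈ K)).filter (fun f => ¬ f.1 < q)).card :=
    (Finset.card_filter_add_card_filter_not (s := T.filter (fun f => f.2 ∈ K))
      (fun f => f.1 < q)).symm
  have h3 : ((T.filter (fun f => f.2 ∈ K)).filter (fun f => f.1 < q)).card ≤
      nu ((E.filter (fun f => f.1 < q ∧ q < f.2 ∧ f.2 < ps)).filter (fun f => s ≤ w f)) := by
    apply le_nu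
    · intro f hf
      rw [mem_filter, mem_filter] at hf
      obtain ⟨hfE, hf1, hf2, hfw, hfC1, hfC2⟩ := hT f hf.1.1
      rw [mem_filter, mem_filter]
      exact ⟨⟨hfE, hf.2, by omega, (hK _ hf.1.2).2.2.1⟩, hfw⟩
    · intro e he f hf hef
      rw [mem_filter, mem_filter] at he hf
      exact hTM e he.1.1 f hf.1.1 hef
  have h4 : ((T.filter (fun f => f.2 ∈ K)).filter (fun f => ¬ f.1 < q)).card + 1 ≤
      (C.filter (fun x => q < x ∧ x ≤ z)).card := by
    have hinj : Set.InjOn Prod.fst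
        (((T.filter (fun f => f.2 ∈ K)).filter (fun f => ¬ f.1 < q) : Finset (ℕ × ℕ)) :
          Set (ℕ × ℕ)) := by
      intro e he f hf hef
      by_contra hne
      rw [mem_coe, mem_filter, mem_filter] at he hf
      exact (hTM e he.1.1 f hf.1.1 hne).1 hef
    rw [← card_image_of_injOn hinj]
    have hzn : z ∉ ((T.filter (fun f => f.2 ∈ K)).filter (fun f => ¬ f.1 < q)).image Prod.fst := by
      intro h
      rw [mem_image] at h
      obtain ⟨f, hf, hfz⟩ := h
      rw [mem_filter, mem_filter] at hf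
      have := (hT f hf.1.1).2.1
      omega
    rw [← card_insert_of_notMem hzn]
    apply card_le_card
    intro x hx
    rcases mem_insert.mp hx with rfl | hx'
    · rw [mem_filter]
      exact ⟨hz, hqz, le_rfl⟩
    · rw [mem_image] at hx'
      obtain ⟨f, hf, hfx⟩ := hx'
      rw [mem_filter, mem_filter] at hf
      obtain ⟨hfE, hf1, hf2, hfw, hfC1, hfC2⟩ := hT f hf.1.1
      have hne : f.1 ≠ q := fun h => hq (h ▸ hfC1)
      rw [mem_filter]
      subst hfx
      exact ⟨hfC1, by omega, by omega⟩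
  omega

private theorem insert_key_left (E : Finset (ℕ × ℕ)) (w : ℕ × ℕ → ℕ) (rz : ℕ → ℕ × ℕ)
    (C : Finset ℕ) (q : ℕ) (hq : q ∉ C)
    (hr : ∀ z ∈ C, rz z ∈ E ∧ ((rz z).1 = z ∨ (rz z).2 = z))
    (hL : ∀ z ∈ C, ∀ e ∈ E, (e.1 = q ∨ e.2 = q) → e.2 - e.1 ≤ (rz z).2 - (rz z).1)
    (z s ps : ℕ) (hz : z ∈ C) (hqz : z < q) (K : Finset ℕ)
    (hK : ∀ p ∈ K, p ∈ C ∧ p < q ∧ ps < p ∧ (p, q) ∈ E ∧ s ≤ w (p, q))
    (hno : MN E w rz (insert q C) z s ≤ MN E w rz C z s) :
    K.card + 1 ≤ nu ((E.filter (fun f => ps < f.1 ∧ f.1 < q ∧ q < f.2)).filter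
      (fun f => s ≤ w f)) + 2 * (C.filter (fun x => x < q ∧ z ≤ x)).card := by
  obtain ⟨T, hTF, hTM, hTc⟩ :=
    exists_nu ((Jmp E (rz z) z).filter (fun f => s ≤ w f ∧ f.1 ∈ C ∧ f.2 ∈ C))
  have hT : ∀ f ∈ T, f ∈ E ∧ f.1 < z ∧ z < f.2 ∧ s ≤ w f ∧ f.1 ∈ C ∧ f.2 ∈ C := by
    intro f hf
    have h1 := hTF hf
    rw [mem_filter] at h1
    unfold Jmp at h1
    rw [mem_filter] at h1
    exact ⟨h1.1.1, h1.1.2.1, h1.1.2.2.1, h1.2.1, h1.2.2.1, h1.2.2.2⟩
  have hcov : ∀ p ∈ K, p < z → ∃ f ∈ T, f.1 = p := by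
    intro p hp hzp
    by_contra hcon
    push Not at hcon
    obtain ⟨hpC, hqp, hps, hpE, hpw⟩ := hK p hp
    have hnot : (p, q) ∉ T := fun h => hcon _ h rfl
    have hle : (insert (p, q) T).card ≤ MN E w rz (insert q C) z s := by
      unfold MN
      apply le_nu
      · intro f hf
        rcases mem_insert.mp hf with rfl | hf'
        · rw [mem_filter]
          refine ⟨?_, hpw, mem_insert_of_mem hpC, mem_insert_self _ _⟩
          unfold Jmp
          rw [mem_filter]
          refine ⟨hpE, hzp, hqz, ?_⟩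
          have hl := hL z hz (p, q) hpE (Or.inr rfl)
          rcases (hr z hz).2 with h1 | h2
          · left
            refine ⟨h1, ?_⟩
            simp only at hl ⊢
            omega
          · right
            refine ⟨h2, ?_⟩
            simp only at hl ⊢
            omega
        · have h1 := hTF hf'
          rw [mem_filter] at h1 ⊢
          exact ⟨h1.1, h1.2.1, mem_insert_of_mem h1.2.2.1, mem_insert_of_mem h1.2.2.2⟩
      · intro e he f hf hef
        rcases mem_insert.mp he with rfl | he' <;> rcases mem_insert.mp hf with rfl | hf'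
        · exact absurd rfl hef
        · refine ⟨?_, ?_⟩
          · intro h
            exact hcon f hf' h.symm
          · intro h
            simp only at h
            exact hq (h ▸ (hT f hf').2.2.2.2.2)
        · refine ⟨?_, ?_⟩
          · intro h
            exact hcon e he' h
          · intro h
            simp only at h
            exact hq (h ▸ (hT e he').2.2.2.2.2)
        · exact hTM e he' f hf' hef
    rw [card_insert_of_notMem hnot] at hle
    have hTc' : T.card = MN E w rz C z s := hTc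
    omega
  -- counting
  have hsplit : K.card = (K.filter (fun p => z ≤ p)).card + (K.filter (fun p => ¬ z ≤ p)).card :=
    (Finset.card_filter_add_card_filter_not (s := K) (fun p => z ≤ p)).symm
  have h1 : (K.filter (fun p => z ≤ p)).card ≤ (C.filter (fun x => x < q ∧ z ≤ x)).card := by
    apply card_le_card
    intro p hp
    rw [mem_filter] at hp ⊢
    exact ⟨(hK p hp.1).1, (hK p hp.1).2.1, hp.2⟩
  have h2 : (K.filter (fun p => ¬ z ≤ p)).card ≤ (T.filter (fun f => f.1 ∈ K)).card := by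
    have hsub : K.filter (fun p => ¬ z ≤ p) ⊆ (T.filter (fun f => f.1 ∈ K)).image Prod.fst := by
      intro p hp
      rw [mem_filter] at hp
      obtain ⟨f, hf, hfp⟩ := hcov p hp.1 (by omega)
      rw [mem_image]
      exact ⟨f, mem_filter.mpr ⟨hf, hfp ▸ hp.1⟩, hfp⟩
    exact (card_le_card hsub).trans card_image_le
  have hsplit2 : (T.filter (fun f => f.1 ∈ K)).card =
      ((T.filter (fun f => f.1 ∈ K)).filter (fun f => q < f.2)).card +
      ((T.filter (fun f => f.1 ∈ K)).filter (fun f => ¬ q < f.2)).card :=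
    (Finset.card_filter_add_card_filter_not (s := T.filter (fun f => f.1 ∈ K))
      (fun f => q < f.2)).symm
  have h3 : ((T.filter (fun f => f.1 ∈ K)).filter (fun f => q < f.2)).card ≤
      nu ((E.filter (fun f => ps < f.1 ∧ f.1 < q ∧ q < f.2)).filter (fun f => s ≤ w f)) := by
    apply le_nu
    · intro f hf
      rw [mem_filter, mem_filter] at hf
      obtain ⟨hfE, hf1, hf2, hfw, hfC1, hfC2⟩ := hT f hf.1.1
      rw [mem_filter, mem_filter]
      exact ⟨⟨hfE, (hK _ hf.1.2).2.2.1, by omega, hf.2⟩, hfw⟩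
    · intro e he f hf hef
      rw [mem_filter, mem_filter] at he hf
      exact hTM e he.1.1 f hf.1.1 hef
  have h4 : ((T.filter (fun f => f.1 ∈ K)).filter (fun f => ¬ q < f.2)).card + 1 ≤
      (C.filter (fun x => x < q ∧ z ≤ x)).card := by
    have hinj : Set.InjOn Prod.snd
        (((T.filter (fun f => f.1 ∈ K)).filter (fun f => ¬ q < f.2) : Finset (ℕ × ℕ)) :
          Set (ℕ × ℕ)) := by
      intro e he f hf hef
      by_contra hne
      rw [mem_coe, mem_filter, mem_filter] at he hf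
      exact (hTM e he.1.1 f hf.1.1 hne).2 hef
    rw [← card_image_of_injOn hinj]
    have hzn : z ∉ ((T.filter (fun f => f.1 ∈ K)).filter (fun f => ¬ q < f.2)).image Prod.snd := by
      intro h
      rw [mem_image] at h
      obtain ⟨f, hf, hfz⟩ := h
      rw [mem_filter, mem_filter] at hf
      have := (hT f hf.1.1).2.2.1
      omega
    rw [← card_insert_of_notMem hzn]
    apply card_le_card
    intro x hx
    rcases mem_insert.mp hx with rfl | hx'
    · rw [mem_filter]
      exact ⟨hz, hqz, le_rfl⟩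
    · rw [mem_image] at hx'
      obtain ⟨f, hf, hfx⟩ := hx'
      rw [mem_filter, mem_filter] at hf
      obtain ⟨hfE, hf1, hf2, hfw, hfC1, hfC2⟩ := hT f hf.1.1
      have hne : f.2 ≠ q := fun h => hq (h ▸ hfC2)
      rw [mem_filter]
      subst hfx
      exact ⟨hfC2, by omega, by omega⟩
  omega

/-- layer cake -/
private theorem insert_layer (P : Finset ℕ) (v : ℕ → ℕ) (D : ℕ) (hv : ∀ p ∈ P, v p ≤ D) :
    ∑ p ∈ P, v p = ∑ s ∈ Finset.Icc 1 D, (P.filter (fun p => s ≤ v p)).card := by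
  have h1 : ∀ p ∈ P, v p = ((Finset.Icc 1 D).filter (fun s => s ≤ v p)).card := by
    intro p hp
    have h2 : (Finset.Icc 1 D).filter (fun s => s ≤ v p) = Finset.Icc 1 (v p) := by
      ext s
      rw [mem_filter, mem_Icc, mem_Icc]
      have := hv p hp
      constructor
      · rintro ⟨⟨h3, h4⟩, h5⟩
        exact ⟨h3, h5⟩
      · rintro ⟨h3, h4⟩
        exact ⟨⟨h3, by omega⟩, h4⟩
    rw [h2, Nat.card_Icc]
    omega
  rw [Finset.sum_congr rfl h1]
  simp_rw [Finset.card_filter]
  rw [Finset.sum_comm]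

theorem insert_right (E : Finset (ℕ × ℕ)) (w : ℕ × ℕ → ℕ) (D ε : ℕ) (rz : ℕ → ℕ × ℕ)
    (C : Finset ℕ) (q : ℕ) (hq : q ∉ C) (hE : ∀ e ∈ E, e.1 < e.2) (hw : ∀ e ∈ E, w e ≤ D)
    (hr : ∀ z ∈ C, rz z ∈ E ∧ ((rz z).1 = z ∨ (rz z).2 = z))
    (hL : ∀ z ∈ C, ∀ e ∈ E, (e.1 = q ∨ e.2 = q) → e.2 - e.1 ≤ (rz z).2 - (rz z).1)
    (hε : ∀ r ∈ E, ∀ T ⊆ E, Mat T → (∀ f ∈ T, f.1 < r.1 ∧ r.1 < f.2 ∧ f.2 < r.2) →
      ∑ f ∈ T, w f ≤ ε) :
    ∑ p ∈ C.filter (fun p => (q, p) ∈ E), w (q, p) +
      2 * ∑ z ∈ C.filter (fun z => q < z), ∑ s ∈ Finset.Icc 1 D, MN E w rz C z s ≤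
    2 * D + 2 * ε +
      2 * ∑ z ∈ C.filter (fun z => q < z), ∑ s ∈ Finset.Icc 1 D, MN E w rz (insert q C) z s := by
  set P := C.filter (fun p => (q, p) ∈ E) with hP
  rcases P.eq_empty_or_nonempty with h0 | hne
  · rw [h0, Finset.sum_empty]
    have h1 : ∑ z ∈ C.filter (fun z => q < z), ∑ s ∈ Finset.Icc 1 D, MN E w rz C z s ≤
        ∑ z ∈ C.filter (fun z => q < z), ∑ s ∈ Finset.Icc 1 D, MN E w rz (insert q C) z s :=
      Finset.sum_le_sum fun z _ => Finset.sum_le_sum fun s _ => insert_MN_mono E w rz C q z s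
    omega
  set ps := P.max' hne with hps
  have hpsP : ps ∈ P := P.max'_mem hne
  have hPiff : ∀ p, p ∈ P ↔ p ∈ C ∧ (q, p) ∈ E := fun p => by rw [hP, mem_filter]
  have hpsE : (q, ps) ∈ E := ((hPiff ps).mp hpsP).2
  have hPmem : ∀ p ∈ P.erase ps, p ∈ C ∧ q < p ∧ p < ps ∧ (q, p) ∈ E := by
    intro p hp
    rw [mem_erase] at hp
    have h1 := (hPiff p).mp hp.2
    have h2 : p ≤ ps := P.le_max' p hp.2
    have h3 := hE _ h1.2
    simp only at h3
    exact ⟨h1.1, h3, lt_of_le_of_ne h2 hp.1, h1.2⟩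
  -- one level
  have hlev : ∀ s ∈ Finset.Icc 1 D,
      ((P.erase ps).filter (fun p => s ≤ w (q, p))).card +
        2 * ∑ z ∈ C.filter (fun z => q < z), MN E w rz C z s ≤
      nu ((E.filter (fun f => f.1 < q ∧ q < f.2 ∧ f.2 < ps)).filter (fun f => s ≤ w f)) + 1 +
        2 * ∑ z ∈ C.filter (fun z => q < z), MN E w rz (insert q C) z s := by
    intro s _
    set K := (P.erase ps).filter (fun p => s ≤ w (q, p)) with hKdef
    set Z := nu ((E.filter (fun f => f.1 < q ∧ q < f.2 ∧ f.2 < ps)).filter (fun f => s ≤ w f))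
      with hZ
    have hK : ∀ p ∈ K, p ∈ C ∧ q < p ∧ p < ps ∧ (q, p) ∈ E ∧ s ≤ w (q, p) := by
      intro p hp
      rw [hKdef, mem_filter] at hp
      obtain ⟨h1, h2, h3, h4⟩ := hPmem p hp.1
      exact ⟨h1, h2, h3, h4, hp.2⟩
    have hKcard : K.card ≤ (C.filter (fun z => q < z)).card := by
      apply card_le_card
      intro p hp
      rw [mem_filter]
      exact ⟨(hK p hp).1, (hK p hp).2.1⟩
    have hg := insert_index_le (C.filter (fun z => q < z)) ((K.card - Z) / 2)
      (fun z => MN E w rz (insert q C) z s - MN E w rz C z s) (by omega) (by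
        intro z hz hc
        by_contra hcon
        rw [mem_filter] at hz
        have hcon' : MN E w rz (insert q C) z s ≤ MN E w rz C z s := by
          omega
        have h1 := insert_key_right E w rz C q hq hr hL z s ps hz.1 hz.2 K hK hcon'
        rw [← hZ] at h1
        rw [filter_filter] at hc
        have h2 : 0 < (C.filter (fun x => q < x ∧ x ≤ z)).card :=
          card_pos.mpr ⟨z, mem_filter.mpr ⟨hz.1, hz.2, le_rfl⟩⟩
        omega)
    have hsum : ∑ z ∈ C.filter (fun z => q < z), MN E w rz (insert q C) z s =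
        ∑ z ∈ C.filter (fun z => q < z), (MN E w rz (insert q C) z s - MN E w rz C z s) +
        ∑ z ∈ C.filter (fun z => q < z), MN E w rz C z s := by
      rw [← Finset.sum_add_distrib]
      refine Finset.sum_congr rfl fun z _ => ?_
      have := insert_MN_mono E w rz C q z s
      omega
    rw [hsum]
    omega
  have hsumlev := Finset.sum_le_sum hlev
  rw [Finset.sum_add_distrib, Finset.sum_add_distrib, Finset.sum_add_distrib,
    ← Finset.mul_sum, ← Finset.mul_sum] at hsumlev
  have hlayer := insert_layer (P.erase ps) (fun p => w (q, p)) D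
    (fun p hp => hw _ (hPmem p hp).2.2.2)
  have hgr := greedy (E.filter (fun f => f.1 < q ∧ q < f.2 ∧ f.2 < ps)) w D ε
    (fun f hf => hw f (mem_filter.mp hf).1) (by
      intro T hT hM
      refine hε (q, ps) hpsE T (fun f hf => (mem_filter.mp (hT hf)).1) hM ?_
      intro f hf
      exact (mem_filter.mp (hT hf)).2)
  have hPsum : ∑ p ∈ P, w (q, p) = ∑ p ∈ P.erase ps, w (q, p) + w (q, ps) :=
    (Finset.sum_erase_add P (fun p => w (q, p)) hpsP).symm
  have hwps := hw _ hpsE
  have hc1 : ∑ z ∈ C.filter (fun z => q < z), ∑ s ∈ Finset.Icc 1 D, MN E w rz C z s =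
      ∑ s ∈ Finset.Icc 1 D, ∑ z ∈ C.filter (fun z => q < z), MN E w rz C z s :=
    Finset.sum_comm
  have hc2 : ∑ z ∈ C.filter (fun z => q < z), ∑ s ∈ Finset.Icc 1 D,
      MN E w rz (insert q C) z s =
      ∑ s ∈ Finset.Icc 1 D, ∑ z ∈ C.filter (fun z => q < z), MN E w rz (insert q C) z s :=
    Finset.sum_comm
  have hone : ∑ _s ∈ Finset.Icc 1 D, 1 = D := by simp
  rw [hc1, hc2, hPsum]
  omega

theorem insert_left (E : Finset (ℕ × ℕ)) (w : ℕ × ℕ → ℕ) (D ε : ℕ) (rz : ℕ → ℕ × ℕ)
    (C : Finset ℕ) (q : ℕ) (hq : q ∉ C) (hE : ∀ e ∈ E, e.1 < e.2) (hw : ∀ e ∈ E, w e ≤ D)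
    (hr : ∀ z ∈ C, rz z ∈ E ∧ ((rz z).1 = z ∨ (rz z).2 = z))
    (hL : ∀ z ∈ C, ∀ e ∈ E, (e.1 = q ∨ e.2 = q) → e.2 - e.1 ≤ (rz z).2 - (rz z).1)
    (hε : ∀ r ∈ E, ∀ T ⊆ E, Mat T → (∀ f ∈ T, r.1 < f.1 ∧ f.1 < r.2 ∧ r.2 < f.2) →
      ∑ f ∈ T, w f ≤ ε) :
    ∑ p ∈ C.filter (fun p => (p, q) ∈ E), w (p, q) +
      2 * ∑ z ∈ C.filter (fun z => z < q), ∑ s ∈ Finset.Icc 1 D, MN E w rz C z s ≤
    2 * D + 2 * ε +
      2 * ∑ z ∈ C.filter (fun z => z < q), ∑ s ∈ Finset.Icc 1 D, MN E w rz (insert q C) z s := by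
  set P := C.filter (fun p => (p, q) ∈ E) with hP
  rcases P.eq_empty_or_nonempty with h0 | hne
  · rw [h0, Finset.sum_empty]
    have h1 : ∑ z ∈ C.filter (fun z => z < q), ∑ s ∈ Finset.Icc 1 D, MN E w rz C z s ≤
        ∑ z ∈ C.filter (fun z => z < q), ∑ s ∈ Finset.Icc 1 D, MN E w rz (insert q C) z s :=
      Finset.sum_le_sum fun z _ => Finset.sum_le_sum fun s _ => insert_MN_mono E w rz C q z s
    omega
  set ps := P.min' hne with hps
  have hpsP : ps ∈ P := P.min'_mem hne
  have hPiff : ∀ p, p ∈ P ↔ p ∈ C ∧ (p, q) ∈ E := fun p => by rw [hP, mem_filter]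
  have hpsE : (ps, q) ∈ E := ((hPiff ps).mp hpsP).2
  have hPmem : ∀ p ∈ P.erase ps, p ∈ C ∧ p < q ∧ ps < p ∧ (p, q) ∈ E := by
    intro p hp
    rw [mem_erase] at hp
    have h1 := (hPiff p).mp hp.2
    have h2 : ps ≤ p := P.min'_le p hp.2
    have h3 := hE _ h1.2
    simp only at h3
    exact ⟨h1.1, h3, lt_of_le_of_ne h2 (Ne.symm hp.1), h1.2⟩
  -- one level
  have hlev : ∀ s ∈ Finset.Icc 1 D,
      ((P.erase ps).filter (fun p => s ≤ w (p, q))).card +
        2 * ∑ z ∈ C.filter (fun z => z < q), MN E w rz C z s ≤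
      nu ((E.filter (fun f => ps < f.1 ∧ f.1 < q ∧ q < f.2)).filter (fun f => s ≤ w f)) + 1 +
        2 * ∑ z ∈ C.filter (fun z => z < q), MN E w rz (insert q C) z s := by
    intro s _
    set K := (P.erase ps).filter (fun p => s ≤ w (p, q)) with hKdef
    set Z := nu ((E.filter (fun f => ps < f.1 ∧ f.1 < q ∧ q < f.2)).filter (fun f => s ≤ w f))
      with hZ
    have hK : ∀ p ∈ K, p ∈ C ∧ p < q ∧ ps < p ∧ (p, q) ∈ E ∧ s ≤ w (p, q) := by
      intro p hp
      rw [hKdef, mem_filter] at hp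
      obtain ⟨h1, h2, h3, h4⟩ := hPmem p hp.1
      exact ⟨h1, h2, h3, h4, hp.2⟩
    have hKcard : K.card ≤ (C.filter (fun z => z < q)).card := by
      apply card_le_card
      intro p hp
      rw [mem_filter]
      exact ⟨(hK p hp).1, (hK p hp).2.1⟩
    have hg := insert_index_ge (C.filter (fun z => z < q)) ((K.card - Z) / 2)
      (fun z => MN E w rz (insert q C) z s - MN E w rz C z s) (by omega) (by
        intro z hz hc
        by_contra hcon
        rw [mem_filter] at hz
        have hcon' : MN E w rz (insert q C) z s ≤ MN E w rz C z s := by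
          omega
        have h1 := insert_key_left E w rz C q hq hr hL z s ps hz.1 hz.2 K hK hcon'
        rw [← hZ] at h1
        rw [filter_filter] at hc
        have h2 : 0 < (C.filter (fun x => x < q ∧ z ≤ x)).card :=
          card_pos.mpr ⟨z, mem_filter.mpr ⟨hz.1, hz.2, le_rfl⟩⟩
        omega)
    have hsum : ∑ z ∈ C.filter (fun z => z < q), MN E w rz (insert q C) z s =
        ∑ z ∈ C.filter (fun z => z < q), (MN E w rz (insert q C) z s - MN E w rz C z s) +
        ∑ z ∈ C.filter (fun z => z < q), MN E w rz C z s := by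
      rw [← Finset.sum_add_distrib]
      refine Finset.sum_congr rfl fun z _ => ?_
      have := insert_MN_mono E w rz C q z s
      omega
    rw [hsum]
    omega
  have hsumlev := Finset.sum_le_sum hlev
  rw [Finset.sum_add_distrib, Finset.sum_add_distrib, Finset.sum_add_distrib,
    ← Finset.mul_sum, ← Finset.mul_sum] at hsumlev
  have hlayer := insert_layer (P.erase ps) (fun p => w (p, q)) D
    (fun p hp => hw _ (hPmem p hp).2.2.2)
  have hgr := greedy (E.filter (fun f => ps < f.1 ∧ f.1 < q ∧ q < f.2)) w D ε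
    (fun f hf => hw f (mem_filter.mp hf).1) (by
      intro T hT hM
      refine hε (ps, q) hpsE T (fun f hf => (mem_filter.mp (hT hf)).1) hM ?_
      intro f hf
      exact (mem_filter.mp (hT hf)).2)
  have hPsum : ∑ p ∈ P, w (p, q) = ∑ p ∈ P.erase ps, w (p, q) + w (ps, q) :=
    (Finset.sum_erase_add P (fun p => w (p, q)) hpsP).symm
  have hwps := hw _ hpsE
  have hc1 : ∑ z ∈ C.filter (fun z => z < q), ∑ s ∈ Finset.Icc 1 D, MN E w rz C z s =
      ∑ s ∈ Finset.Icc 1 D, ∑ z ∈ C.filter (fun z => z < q), MN E w rz C z s :=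
    Finset.sum_comm
  have hc2 : ∑ z ∈ C.filter (fun z => z < q), ∑ s ∈ Finset.Icc 1 D,
      MN E w rz (insert q C) z s =
      ∑ s ∈ Finset.Icc 1 D, ∑ z ∈ C.filter (fun z => z < q), MN E w rz (insert q C) z s :=
    Finset.sum_comm
  have hone : ∑ _s ∈ Finset.Icc 1 D, 1 = D := by simp
  rw [hc1, hc2, hPsum]
  omega

end Pool.Agent.Helper36.QA
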