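import Pool.Agent.Helper36.QA.Defs
import Pool.Agent.Helper36.QA.Insert

/-!
# The weighted crossing matching lemma
-/

set_option autoImplicit false

namespace Pool.Agent.Helper36.QA

open Finset
open scoped Pointwise

private theorem claimw_union (A B : Finset (ℕ × ℕ)) (w : ℕ × ℕ → ℕ) :
    ∑ e ∈ A ∪ B, w e ≤ ∑ e ∈ A, w e + ∑ e ∈ B, w e := by
  classical
  have h := Finset.sum_union_inter (s₁ := A) (s₂ := B) (f := w)
  omega

/-- Splitting of the edges inside `C` at the vertex `q`. -/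
private theorem claimw_split (E : Finset (ℕ × ℕ)) (w : ℕ × ℕ → ℕ)
    (hE : ∀ e ∈ E, e.1 < e.2) (C : Finset ℕ) (q : ℕ) :
    ∑ e ∈ E.filter (fun e => e.1 ∈ C ∧ e.2 ∈ C), w e ≤
      ∑ e ∈ E.filter (fun e => e.1 ∈ C.erase q ∧ e.2 ∈ C.erase q), w e +
      (∑ p ∈ (C.erase q).filter (fun p => (q, p) ∈ E), w (q, p) +
        ∑ p ∈ (C.erase q).filter (fun p => (p, q) ∈ E), w (p, q)) := by
  classical
  have h1 : ∑ p ∈ (C.erase q).filter (fun p => (q, p) ∈ E), w (q, p) =
      ∑ e ∈ ((C.erase q).filter (fun p => (q, p) ∈ E)).image (fun p => (q, p)), w e := by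
    rw [Finset.sum_image]
    intro a _ b _ hab
    exact (Prod.mk.inj hab).2
  have h2 : ∑ p ∈ (C.erase q).filter (fun p => (p, q) ∈ E), w (p, q) =
      ∑ e ∈ ((C.erase q).filter (fun p => (p, q) ∈ E)).image (fun p => (p, q)), w e := by
    rw [Finset.sum_image]
    intro a _ b _ hab
    exact (Prod.mk.inj hab).1
  rw [h1, h2]
  have hsub : E.filter (fun e => e.1 ∈ C ∧ e.2 ∈ C) ⊆
      E.filter (fun e => e.1 ∈ C.erase q ∧ e.2 ∈ C.erase q) ∪
      (((C.erase q).filter (fun p => (q, p) ∈ E)).image (fun p => (q, p)) ∪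
        ((C.erase q).filter (fun p => (p, q) ∈ E)).image (fun p => (p, q))) := by
    rintro ⟨a, b⟩ he
    rw [Finset.mem_filter] at he
    obtain ⟨heE, haC, hbC⟩ := he
    have hlt := hE _ heE
    simp only at haC hbC hlt
    by_cases hqa : a = q
    · subst hqa
      apply Finset.mem_union_right
      apply Finset.mem_union_left
      rw [Finset.mem_image]
      refine ⟨b, ?_, rfl⟩
      rw [Finset.mem_filter, Finset.mem_erase]
      exact ⟨⟨by omega, hbC⟩, heE⟩
    · by_cases hqb : b = q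
      · subst hqb
        apply Finset.mem_union_right
        apply Finset.mem_union_right
        rw [Finset.mem_image]
        refine ⟨a, ?_, rfl⟩
        rw [Finset.mem_filter, Finset.mem_erase]
        exact ⟨⟨by omega, haC⟩, heE⟩
      · apply Finset.mem_union_left
        rw [Finset.mem_filter]
        refine ⟨heE, ?_, ?_⟩
        · rw [Finset.mem_erase]
          exact ⟨hqa, haC⟩
        · rw [Finset.mem_erase]
          exact ⟨hqb, hbC⟩
  calc ∑ e ∈ E.filter (fun e => e.1 ∈ C ∧ e.2 ∈ C), w e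
      ≤ ∑ e ∈ E.filter (fun e => e.1 ∈ C.erase q ∧ e.2 ∈ C.erase q) ∪
      (((C.erase q).filter (fun p => (q, p) ∈ E)).image (fun p => (q, p)) ∪
        ((C.erase q).filter (fun p => (p, q) ∈ E)).image (fun p => (p, q))), w e :=
        Finset.sum_le_sum_of_subset hsub
    _ ≤ _ := by
        refine (claimw_union _ _ w).trans ?_
        exact Nat.add_le_add_left (claimw_union _ _ w) _

/-- Splitting of a sum at a missing element. -/
private theorem claimw_sum_split (C : Finset ℕ) (q : ℕ) (hq : q ∉ C) (f : ℕ → ℕ) :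
    ∑ z ∈ C, f z = ∑ z ∈ C.filter (fun z => q < z), f z +
      ∑ z ∈ C.filter (fun z => z < q), f z := by
  classical
  rw [← Finset.sum_filter_add_sum_filter_not C (fun z => q < z) f]
  congr 1
  apply Finset.sum_congr _ (fun _ _ => rfl)
  ext z
  simp only [Finset.mem_filter]
  constructor
  · rintro ⟨hz, h⟩
    refine ⟨hz, ?_⟩
    have : z ≠ q := fun h' => hq (h' ▸ hz)
    omega
  · rintro ⟨hz, h⟩
    exact ⟨hz, by omega⟩

/-- The induction over up-sets of vertices. -/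
private theorem claimw_ind (E : Finset (ℕ × ℕ)) (w : ℕ × ℕ → ℕ) (D ε : ℕ) (W : Finset ℕ)
    (rz : ℕ → ℕ × ℕ)
    (hE : ∀ e ∈ E, e.1 < e.2) (hw : ∀ e ∈ E, w e ≤ D)
    (hr : ∀ z ∈ W, rz z ∈ E ∧ ((rz z).1 = z ∨ (rz z).2 = z))
    (hmax : ∀ z ∈ W, ∀ e ∈ E, (e.1 = z ∨ e.2 = z) → e.2 - e.1 ≤ (rz z).2 - (rz z).1)
    (h1 : ∀ r ∈ E, ∀ T ⊆ E, Mat T → (∀ f ∈ T, f.1 < r.1 ∧ r.1 < f.2 ∧ f.2 < r.2) →
      ∑ f ∈ T, w f ≤ ε)
    (h2 : ∀ r ∈ E, ∀ T ⊆ E, Mat T → (∀ f ∈ T, r.1 < f.1 ∧ f.1 < r.2 ∧ r.2 < f.2) →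
      ∑ f ∈ T, w f ≤ ε) :
    ∀ (n : ℕ) (C : Finset ℕ), C ⊆ W → C.card = n →
      (∀ z ∈ C, ∀ x ∈ W, x ∉ C → (rz x).2 - (rz x).1 ≤ (rz z).2 - (rz z).1) →
      ∑ e ∈ E.filter (fun e => e.1 ∈ C ∧ e.2 ∈ C), w e ≤
        C.card * (4 * D + 4 * ε) + 2 * ∑ z ∈ C, ∑ s ∈ Finset.Icc 1 D, MN E w rz C z s := by
  classical
  intro n
  induction n with
  | zero =>
    intro C _ hC _
    rw [Finset.card_eq_zero] at hC
    subst hC
    simp
  | succ n ih =>
    intro C hCW hC hup
    have hne : C.Nonempty := by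
      rw [← Finset.card_pos]
      omega
    obtain ⟨q, hqC, hqmin⟩ := Finset.exists_min_image C (fun z => (rz z).2 - (rz z).1) hne
    have hqE : q ∉ C.erase q := Finset.notMem_erase q C
    have hcard : (C.erase q).card = n := by
      rw [Finset.card_erase_of_mem hqC]
      omega
    have hsub : C.erase q ⊆ W := (Finset.erase_subset q C).trans hCW
    have hIH := ih (C.erase q) hsub hcard (by
      intro z hz x hx hxC
      rw [Finset.mem_erase] at hz
      by_cases hxq : x = q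
      · subst hxq
        exact hqmin z hz.2
      · apply hup z hz.2 x hx
        intro hxC'
        apply hxC
        rw [Finset.mem_erase]
        exact ⟨hxq, hxC'⟩)
    have hins : insert q (C.erase q) = C := Finset.insert_erase hqC
    have hLq : ∀ z ∈ C.erase q, ∀ e ∈ E, (e.1 = q ∨ e.2 = q) →
        e.2 - e.1 ≤ (rz z).2 - (rz z).1 := by
      intro z hz e he heq
      rw [Finset.mem_erase] at hz
      exact (hmax q (hCW hqC) e he heq).trans (hqmin z hz.2)
    have hR := insert_right E w D ε rz (C.erase q) q hqE hE hw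
      (fun z hz => hr z (hsub hz)) hLq h1
    have hL := insert_left E w D ε rz (C.erase q) q hqE hE hw
      (fun z hz => hr z (hsub hz)) hLq h2
    rw [hins] at hR hL
    have hsplit := claimw_split E w hE C q
    have hs1 := claimw_sum_split (C.erase q) q hqE
      (fun z => ∑ s ∈ Finset.Icc 1 D, MN E w rz (C.erase q) z s)
    have hs2 := claimw_sum_split (C.erase q) q hqE
      (fun z => ∑ s ∈ Finset.Icc 1 D, MN E w rz C z s)
    have hs3 : ∑ z ∈ C.erase q, ∑ s ∈ Finset.Icc 1 D, MN E w rz C z s ≤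
        ∑ z ∈ C, ∑ s ∈ Finset.Icc 1 D, MN E w rz C z s :=
      Finset.sum_le_sum_of_subset (Finset.erase_subset q C)
    rw [hcard] at hIH
    rw [hC]
    have hexp : (n + 1) * (4 * D + 4 * ε) = n * (4 * D + 4 * ε) + (4 * D + 4 * ε) := by ring
    rw [hexp]
    omega

theorem claimW (E : Finset (ℕ × ℕ)) (w : ℕ × ℕ → ℕ) (D ε V : ℕ)
    (hE : ∀ e ∈ E, e.1 < e.2 ∧ e.2 < V) (hw : ∀ e ∈ E, w e ≤ D)
    (h1 : ∀ r ∈ E, ∀ T ⊆ E, Mat T → (∀ f ∈ T, f.1 < r.1 ∧ r.1 < f.2 ∧ f.2 < r.2) →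
      ∑ f ∈ T, w f ≤ ε)
    (h2 : ∀ r ∈ E, ∀ T ⊆ E, Mat T → (∀ f ∈ T, r.1 < f.1 ∧ f.1 < r.2 ∧ r.2 < f.2) →
      ∑ f ∈ T, w f ≤ ε) :
    ∑ e ∈ E, w e ≤ (4 * D + 8 * ε) * V := by
  classical
  set W : Finset ℕ := E.image Prod.fst ∪ E.image Prod.snd with hW
  have hWV : W ⊆ Finset.range V := by
    intro z hz
    rw [hW, Finset.mem_union, Finset.mem_image, Finset.mem_image] at hz
    rw [Finset.mem_range]
    rcases hz with ⟨e, he, rfl⟩ | ⟨e, he, rfl⟩
    · have := hE e he
      omega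
    · exact (hE e he).2
  have hWcard : W.card ≤ V := by
    have := Finset.card_le_card hWV
    rwa [Finset.card_range] at this
  have hex : ∀ z : ℕ, ∃ r : ℕ × ℕ, z ∈ W → (r ∈ E ∧ (r.1 = z ∨ r.2 = z)) ∧
      ∀ e ∈ E, (e.1 = z ∨ e.2 = z) → e.2 - e.1 ≤ r.2 - r.1 := by
    intro z
    by_cases hz : z ∈ W
    · have hne : (E.filter (fun e => e.1 = z ∨ e.2 = z)).Nonempty := by
        rw [hW, Finset.mem_union, Finset.mem_image, Finset.mem_image] at hz
        rcases hz with ⟨e, he, hez⟩ | ⟨e, he, hez⟩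
        · exact ⟨e, Finset.mem_filter.2 ⟨he, Or.inl hez⟩⟩
        · exact ⟨e, Finset.mem_filter.2 ⟨he, Or.inr hez⟩⟩
      obtain ⟨r, hr, hmax⟩ := Finset.exists_max_image
        (E.filter (fun e => e.1 = z ∨ e.2 = z)) (fun e => e.2 - e.1) hne
      refine ⟨r, fun _ => ⟨Finset.mem_filter.1 hr, ?_⟩⟩
      intro e he hez
      exact hmax e (Finset.mem_filter.2 ⟨he, hez⟩)
    · exact ⟨(0, 0), fun h => absurd h hz⟩
  choose rz hrz using hex
  have hmain := claimw_ind E w D ε W rz (fun e he => (hE e he).1) hw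
    (fun z hz => (hrz z hz).1) (fun z hz => (hrz z hz).2) h1 h2 W.card W (Finset.Subset.refl W) rfl
    (fun z _ x hx hxn => absurd hx hxn)
  have hfil : E.filter (fun e => e.1 ∈ W ∧ e.2 ∈ W) = E := by
    apply Finset.filter_true_of_mem
    intro e he
    refine ⟨?_, ?_⟩
    · rw [hW]
      exact Finset.mem_union_left _ (Finset.mem_image_of_mem Prod.fst he)
    · rw [hW]
      exact Finset.mem_union_right _ (Finset.mem_image_of_mem Prod.snd he)
  rw [hfil] at hmain
  have hMN : ∀ z ∈ W, ∑ s ∈ Finset.Icc 1 D, MN E w rz W z s ≤ 2 * ε := by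
    intro z hz
    obtain ⟨⟨hrE, hrz'⟩, -⟩ := hrz z hz
    have hrlt := (hE _ hrE).1
    have hg := greedy ((Jmp E (rz z) z).filter (fun f => f.1 ∈ W ∧ f.2 ∈ W)) w D ε (by
      intro f hf
      rw [Finset.mem_filter, Jmp, Finset.mem_filter] at hf
      exact hw f hf.1.1) (by
      intro T hT hMat
      have hTE : T ⊆ E := by
        intro f hf
        have := hT hf
        rw [Finset.mem_filter, Jmp, Finset.mem_filter] at this
        exact this.1.1
      rcases hrz' with hz1 | hz2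
      · apply h1 (rz z) hrE T hTE hMat
        intro f hf
        have := hT hf
        rw [Finset.mem_filter, Jmp, Finset.mem_filter] at this
        obtain ⟨⟨_, ha, hb, hc⟩, _⟩ := this
        rcases hc with hc | hc
        · omega
        · omega
      · apply h2 (rz z) hrE T hTE hMat
        intro f hf
        have := hT hf
        rw [Finset.mem_filter, Jmp, Finset.mem_filter] at this
        obtain ⟨⟨_, ha, hb, hc⟩, _⟩ := this
        rcases hc with hc | hc
        · omega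
        · omega)
    refine le_trans (Finset.sum_le_sum ?_) hg
    intro s _
    unfold MN
    apply nu_mono
    intro f hf
    rw [Finset.mem_filter] at hf
    rw [Finset.mem_filter, Finset.mem_filter]
    exact ⟨⟨hf.1, hf.2.2⟩, hf.2.1⟩
  have hsum : ∑ z ∈ W, ∑ s ∈ Finset.Icc 1 D, MN E w rz W z s ≤ W.card * (2 * ε) := by
    have := Finset.sum_le_card_nsmul W
      (fun z => ∑ s ∈ Finset.Icc 1 D, MN E w rz W z s) (2 * ε) hMN
    rwa [smul_eq_mul] at this
  calc ∑ e ∈ E, w e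
      ≤ W.card * (4 * D + 4 * ε) + 2 * (W.card * (2 * ε)) := by omega
    _ = (4 * D + 8 * ε) * W.card := by ring
    _ ≤ (4 * D + 8 * ε) * V := Nat.mul_le_mul_left _ hWcard

end Pool.Agent.Helper36.QA
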