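import Pool.Agent.Helper36.QA.Defs
import Pool.Agent.Helper36.CL.Planar

set_option autoImplicit false

namespace Pool.Agent.Helper36.QA

open Finset
open scoped Pointwise
open Pool.Agent.Helper36.CL (HasF Ham IsChord Gad cellOf Ext Used Fam)
open Pool.Agent.Helper36.Hub (Cy)

/-- Half of the chords of one cell have pairwise different lengths. -/
theorem planar2_half (K : Finset (ℕ × ℕ)) (hlt : ∀ e ∈ K, e.1 < e.2)
    (P1 : ∀ e₁ ∈ K, ∀ e₂ ∈ K, ∀ e₃ ∈ K, e₁.1 < e₂.1 → e₂.1 < e₃.1 → e₁.2 < e₂.2 →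
      e₂.2 < e₃.2 → False) :
    ∃ Q ⊆ K, (∀ e ∈ Q, ∀ f ∈ Q, e.2 - e.1 = f.2 - f.1 → e = f) ∧ K.card ≤ 2 * Q.card := by
  classical
  set Mi := K.filter (fun e => ∀ f ∈ K, ¬ (f.1 < e.1 ∧ f.2 < e.2)) with hMi
  set No := K.filter (fun e => ¬ ∀ f ∈ K, ¬ (f.1 < e.1 ∧ f.2 < e.2)) with hNo
  have hsum : Mi.card + No.card = K.card := by
    rw [hMi, hNo]; exact Finset.card_filter_add_card_filter_not _
  have h1 : ∀ e ∈ Mi, ∀ f ∈ Mi, e.1 < f.1 → f.2 ≤ e.2 := by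
    intro e he f hf hl
    rw [hMi, Finset.mem_filter] at he hf
    have h3 := hf.2 e he.1
    by_contra hcon
    exact h3 ⟨hl, by omega⟩
  have h2 : ∀ e ∈ No, ∀ f ∈ No, e.1 < f.1 → f.2 ≤ e.2 := by
    intro e he f hf hl
    rw [hNo, Finset.mem_filter] at he hf
    obtain ⟨hek, hen⟩ := he
    push Not at hen
    obtain ⟨g, hg, hg1, hg2⟩ := hen
    by_contra hcon
    exact P1 g hg e hek f hf.1 hg1 hl hg2 (by omega)
  have key : ∀ Q ⊆ K, (∀ e ∈ Q, ∀ f ∈ Q, e.1 < f.1 → f.2 ≤ e.2) →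
      ∀ e ∈ Q, ∀ f ∈ Q, e.2 - e.1 = f.2 - f.1 → e = f := by
    intro Q hQ hQ2 e he f hf hef
    have a1 := hlt e (hQ he)
    have a2 := hlt f (hQ hf)
    rcases lt_trichotomy e.1 f.1 with h | h | h
    · have := hQ2 e he f hf h
      omega
    · exact Prod.ext h (by omega)
    · have := hQ2 f hf e he h
      omega
  rcases le_total Mi.card No.card with h | h
  · exact ⟨No, Finset.filter_subset _ _, key _ (Finset.filter_subset _ _) h2, by omega⟩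
  · exact ⟨Mi, Finset.filter_subset _ _, key _ (Finset.filter_subset _ _) h1, by omega⟩

/-- A set of pairwise noncrossing cells over `L` has at most `2 |L|` elements. -/
theorem planar2_card (L : Finset ℕ) (R : Finset (ℕ × ℕ))
    (hRL : ∀ c ∈ R, c.1 ∈ L ∧ c.2 ∈ L ∧ c.1 < c.2)
    (hcross : ∀ c ∈ R, ∀ d ∈ R, ¬ (c.1 < d.1 ∧ d.1 < c.2 ∧ c.2 < d.2)) :
    R.card ≤ 2 * L.card := by
  classical
  set R1 := R.filter (fun c => ∀ d ∈ R, d.1 = c.1 → d.2 ≤ c.2) with hR1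
  set R2 := R.filter (fun c => ¬ ∀ d ∈ R, d.1 = c.1 → d.2 ≤ c.2) with hR2
  have hsum : R1.card + R2.card = R.card := by
    rw [hR1, hR2]; exact Finset.card_filter_add_card_filter_not _
  have hc1 : R1.card ≤ L.card := by
    apply Finset.card_le_card_of_injOn (fun c => c.1)
    · intro c hc
      exact (hRL c (Finset.mem_filter.1 hc).1).1
    · intro c hc d hd hcd
      have hc' := Finset.mem_filter.1 hc
      have hd' := Finset.mem_filter.1 hd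
      simp only at hcd
      have h1 := hc'.2 d hd'.1 hcd.symm
      have h2 := hd'.2 c hc'.1 hcd
      exact Prod.ext hcd (le_antisymm h2 h1)
  have hc2 : R2.card ≤ L.card := by
    apply Finset.card_le_card_of_injOn (fun c => c.2)
    · intro c hc
      exact (hRL c (Finset.mem_filter.1 hc).1).2.1
    · have key : ∀ c ∈ R2, ∀ d ∈ R2, c.2 = d.2 → ¬ c.1 < d.1 := by
        intro c hc d hd hcd hlt
        have hc' := Finset.mem_filter.1 hc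
        have hd' := Finset.mem_filter.1 hd
        have hdn := hd'.2
        push Not at hdn
        obtain ⟨x, hx, hx1, hx2⟩ := hdn
        apply hcross c hc'.1 x hx
        have := (hRL d hd'.1).2.2
        refine ⟨by omega, by omega, by omega⟩
      intro c hc d hd hcd
      have hc'' : c ∈ R2 := hc
      have hd'' : d ∈ R2 := hd
      simp only at hcd
      have h1 := key c hc'' d hd'' hcd
      have h2 := key d hd'' c hc'' hcd.symm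
      exact Prod.ext (by omega) hcd
  omega

theorem planar2 (lab : ℕ → ℕ) (L : Finset ℕ) (K : Finset (ℕ × ℕ))
    (hlt : ∀ e ∈ K, e.1 < e.2)
    (hlab : ∀ e ∈ K, lab e.1 ∈ L ∧ lab e.2 ∈ L ∧ lab e.1 < lab e.2)
    (P1 : ∀ e₁ ∈ K, ∀ e₂ ∈ K, ∀ e₃ ∈ K, cellOf lab e₁ = cellOf lab e₂ →
      cellOf lab e₂ = cellOf lab e₃ → e₁.1 < e₂.1 → e₂.1 < e₃.1 → e₁.2 < e₂.2 → e₂.2 < e₃.2 →
      False)
    (P2 : ∀ e₁ ∈ K, ∀ e₂ ∈ K, ∀ e₃ ∈ K, ∀ f₁ ∈ K, ∀ f₂ ∈ K, ∀ f₃ ∈ K,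
      cellOf lab e₁ = cellOf lab e₂ → cellOf lab e₂ = cellOf lab e₃ →
      cellOf lab f₁ = cellOf lab f₂ → cellOf lab f₂ = cellOf lab f₃ →
      e₁.1 < e₂.1 → e₂.1 < e₃.1 → e₃.2 < e₂.2 → e₂.2 < e₁.2 →
      f₁.1 < f₂.1 → f₂.1 < f₃.1 → f₃.2 < f₂.2 → f₂.2 < f₁.2 →
      lab e₁.1 < lab f₁.1 → lab f₁.1 < lab e₁.2 → lab e₁.2 < lab f₁.2 → False) :
    (∀ c : ℕ × ℕ, ∃ Q ⊆ K.filter (fun e => cellOf lab e = c),
      (∀ e ∈ Q, ∀ f ∈ Q, e.2 - e.1 = f.2 - f.1 → e = f) ∧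
      (K.filter (fun e => cellOf lab e = c)).card ≤ 2 * Q.card) ∧
    ∃ R : Finset (ℕ × ℕ), R.card ≤ 2 * L.card ∧
      ∀ (c : ℕ × ℕ) (T : Finset (ℕ × ℕ)), T ⊆ K → (∀ e ∈ T, cellOf lab e = c) → Mat T →
        5 ≤ T.card → c ∈ R := by
  classical
  refine ⟨fun c => ?_, ?_⟩
  · apply planar2_half
    · intro e he
      exact hlt e (Finset.mem_filter.1 he).1
    · intro e₁ h1 e₂ h2 e₃ h3 a b a' b'
      obtain ⟨h1, c1⟩ := Finset.mem_filter.1 h1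
      obtain ⟨h2, c2⟩ := Finset.mem_filter.1 h2
      obtain ⟨h3, c3⟩ := Finset.mem_filter.1 h3
      exact P1 e₁ h1 e₂ h2 e₃ h3 (c1.trans c2.symm) (c2.trans c3.symm) a b a' b'
  · set R := (K.image (cellOf lab)).filter (fun c => ∃ T : Finset (ℕ × ℕ), T ⊆ K ∧
      (∀ e ∈ T, cellOf lab e = c) ∧ Mat T ∧ 5 ≤ T.card) with hR
    -- triples in rich cells
    have htri : ∀ c ∈ R, ∃ e₁ ∈ K, ∃ e₂ ∈ K, ∃ e₃ ∈ K, cellOf lab e₁ = c ∧ cellOf lab e₂ = c ∧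
        cellOf lab e₃ = c ∧ e₁.1 < e₂.1 ∧ e₂.1 < e₃.1 ∧ e₃.2 < e₂.2 ∧ e₂.2 < e₁.2 := by
      intro c hc
      obtain ⟨T, hT, hTc, hTm, hT5⟩ := (Finset.mem_filter.1 hc).2
      obtain ⟨Q, hQ, hQ2, hQ3⟩ := Pool.Agent.Helper36.CL.Planar.exists_nested T hTm (by
        intro e₁ h1 e₂ h2 e₃ h3 a b a' b'
        exact P1 e₁ (hT h1) e₂ (hT h2) e₃ (hT h3) ((hTc _ h1).trans (hTc _ h2).symm)
          ((hTc _ h2).trans (hTc _ h3).symm) a b a' b')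
      obtain ⟨e₁, h1, e₂, h2, e₃, h3, l1, l2⟩ :=
        Pool.Agent.Helper36.CL.Planar.exists_triple Q (by omega) (by
          intro e he f hf hne
          exact (hTm e (hQ he) f (hQ hf) hne).1)
      exact ⟨e₁, hT (hQ h1), e₂, hT (hQ h2), e₃, hT (hQ h3), hTc _ (hQ h1), hTc _ (hQ h2),
        hTc _ (hQ h3), l1, l2, hQ2 e₂ h2 e₃ h3 l2, hQ2 e₁ h1 e₂ h2 l1⟩
    have hcross : ∀ c ∈ R, ∀ d ∈ R, ¬ (c.1 < d.1 ∧ d.1 < c.2 ∧ c.2 < d.2) := by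
      rintro c hc d hd ⟨x1, x2, x3⟩
      obtain ⟨e₁, h1, e₂, h2, e₃, h3, c1, c2, c3, a1, a2, a3, a4⟩ := htri c hc
      obtain ⟨f₁, g1, f₂, g2, f₃, g3, d1, d2, d3, b1, b2, b3, b4⟩ := htri d hd
      have c1a : lab e₁.1 = c.1 := congrArg Prod.fst c1
      have c1b : lab e₁.2 = c.2 := congrArg Prod.snd c1
      have d1a : lab f₁.1 = d.1 := congrArg Prod.fst d1
      have d1b : lab f₁.2 = d.2 := congrArg Prod.snd d1
      exact P2 e₁ h1 e₂ h2 e₃ h3 f₁ g1 f₂ g2 f₃ g3 (c1.trans c2.symm) (c2.trans c3.symm)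
        (d1.trans d2.symm) (d2.trans d3.symm) a1 a2 a3 a4 b1 b2 b3 b4
        (by rw [c1a, d1a]; exact x1) (by rw [d1a, c1b]; exact x2) (by rw [c1b, d1b]; exact x3)
    have hRL : ∀ c ∈ R, c.1 ∈ L ∧ c.2 ∈ L ∧ c.1 < c.2 := by
      intro c hc
      obtain ⟨e, he, rfl⟩ := Finset.mem_image.1 (Finset.mem_filter.1 hc).1
      exact hlab e he
    refine ⟨R, planar2_card L R hRL hcross, ?_⟩
    intro c T hT hTc hTm hT5
    obtain ⟨e, he⟩ := Finset.card_pos.1 (show 0 < T.card by omega)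
    exact Finset.mem_filter.2 ⟨Finset.mem_image.2 ⟨e, hT he, hTc e he⟩, T, hT, hTc, hTm, hT5⟩

end Pool.Agent.Helper36.QA
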