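import Pool.Agent.Helper36.QA.Defs

set_option autoImplicit false

namespace Pool.Agent.Helper36.QA

open Finset
open scoped Pointwise
open Pool.Agent.Helper36.CL (HasF Ham IsChord Gad Ext Used Fam)
open Pool.Agent.Helper36.Hub (Cy)

theorem ext_zero {ι : Type*} {n m : ℕ} {f : ι → Gad} {I : Finset ι} {φ : ℕ → ℕ}
    (hE : Ext n f I m φ) (h0 : Used n f I 0) : ∃ φ' : ℕ → ℕ, Ext n f I m φ' ∧ φ' 0 = 0 := by
  obtain ⟨k, hk, hφk⟩ := hE.surj 0 h0
  rcases Nat.eq_zero_or_pos k with hk0 | hkpos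
  · subst hk0
    exact ⟨φ, hE, hφk⟩
  have h3 := hE.three
  set ψ : ℕ → ℕ := fun i => if i + k < m then φ (i + k) else φ (i + k - m) with hψ
  have hψ1 : ∀ i, i + k < m → ψ i = φ (i + k) := fun i hi => by simp [hψ, hi]
  have hψ2 : ∀ i, m ≤ i + k → ψ i = φ (i + k - m) := fun i hi => by
    simp [hψ, Nat.not_lt.mpr hi]
  refine ⟨ψ, ⟨h3, ?_, ?_, ?_, ?_, ?_, ?_⟩, ?_⟩
  · intro i hi
    by_cases h : i + k < m
    · rw [hψ1 i h]; exact hE.used _ h
    · rw [hψ2 i (by omega)]; exact hE.used _ (by omega)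
  · intro x hx
    obtain ⟨j, hj, hjx⟩ := hE.surj x hx
    by_cases h : k ≤ j
    · refine ⟨j - k, by omega, ?_⟩
      rw [hψ1 _ (by omega), show j - k + k = j by omega, hjx]
    · refine ⟨j + m - k, by omega, ?_⟩
      rw [hψ2 _ (by omega), show j + m - k + k - m = j by omega, hjx]
  · intro i hi j hj hij
    by_cases h : i + k < m <;> by_cases h' : j + k < m
    · rw [hψ1 i h, hψ1 j h'] at hij
      have := hE.inj _ h _ h' hij
      omega
    · rw [hψ1 i h, hψ2 j (by omega)] at hij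
      have := hE.inj _ h _ (by omega) hij
      omega
    · rw [hψ2 i (by omega), hψ1 j h'] at hij
      have := hE.inj _ (by omega) _ h' hij
      omega
    · rw [hψ2 i (by omega), hψ2 j (by omega)] at hij
      have := hE.inj _ (by omega) _ (by omega) hij
      omega
  · intro i hi
    rcases lt_trichotomy (i + 1 + k) m with h | h | h
    · rw [hψ1 i (by omega), hψ1 (i + 1) h, show i + 1 + k = (i + k) + 1 by omega]
      exact hE.step _ (by omega)
    · rw [hψ1 i (by omega), hψ2 (i + 1) (by omega), show i + k = m - 1 by omega,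
        show i + 1 + k - m = 0 by omega]
      exact hE.wrap
    · rw [hψ2 i (by omega), hψ2 (i + 1) (by omega),
        show i + 1 + k - m = (i + k - m) + 1 by omega]
      exact hE.step _ (by omega)
  · rw [hψ2 (m - 1) (by omega), hψ1 0 (by omega), show m - 1 + k - m = k - 1 by omega,
      show 0 + k = (k - 1) + 1 by omega]
    exact hE.step _ (by omega)
  · intro x y hx hxy
    have hm1 : ψ (m - 1) = φ (k - 1) := by
      rw [hψ2 (m - 1) (by omega), show m - 1 + k - m = k - 1 by omega]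
    have hp0 : ψ 0 = φ k := by
      rw [hψ1 0 (by omega), show 0 + k = k by omega]
    have key : ∀ a, a < m → ∀ a', ((a' = a + 1 ∧ a' < m) ∨ (a = m - 1 ∧ a' = 0)) →
        (∃ i, i + 1 < m ∧ ψ i = φ a ∧ ψ (i + 1) = φ a') ∨
          (φ a = ψ (m - 1) ∧ φ a' = ψ 0) := by
      intro a ha a' haa
      rcases haa with ⟨h1, h2⟩ | ⟨h1, h2⟩
      · subst h1
        rcases lt_trichotomy (a + 1) k with h | h | h
        · left
          refine ⟨a + m - k, by omega, ?_, ?_⟩
          · rw [hψ2 _ (by omega), show a + m - k + k - m = a by omega]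
          · rw [hψ2 _ (by omega), show a + m - k + 1 + k - m = a + 1 by omega]
        · right
          rw [hm1, hp0]
          exact ⟨by rw [show k - 1 = a by omega], by rw [h]⟩
        · left
          refine ⟨a - k, by omega, ?_, ?_⟩
          · rw [hψ1 _ (by omega), show a - k + k = a by omega]
          · rw [hψ1 _ (by omega), show a - k + 1 + k = a + 1 by omega]
      · subst h1 h2
        left
        refine ⟨m - 1 - k, by omega, ?_, ?_⟩
        · rw [hψ1 _ (by omega), show m - 1 - k + k = m - 1 by omega]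
        · rw [hψ2 _ (by omega), show m - 1 - k + 1 + k - m = 0 by omega]
    rcases hE.edges x y hx hxy with ⟨i, hi, h⟩ | ⟨h1, h2⟩ | ⟨h1, h2⟩
    · rcases key i (by omega) (i + 1) (Or.inl ⟨rfl, hi⟩) with ⟨j, hj, hj1, hj2⟩ | ⟨hj1, hj2⟩
      · left
        refine ⟨j, hj, ?_⟩
        rw [hj1, hj2]; exact h
      · right
        rcases h with ⟨h1, h2⟩ | ⟨h1, h2⟩
        · left
          rw [← hj1, ← hj2]; exact ⟨h1.symm, h2.symm⟩
        · right
          rw [← hj1, ← hj2]; exact ⟨h2.symm, h1.symm⟩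
    · rcases key (m - 1) (by omega) 0 (Or.inr ⟨rfl, rfl⟩) with ⟨j, hj, hj1, hj2⟩ | ⟨hj1, hj2⟩
      · left
        refine ⟨j, hj, Or.inl ?_⟩
        rw [hj1, hj2]; exact ⟨h1.symm, h2.symm⟩
      · right; left
        rw [← hj1, ← hj2]; exact ⟨h1, h2⟩
    · rcases key (m - 1) (by omega) 0 (Or.inr ⟨rfl, rfl⟩) with ⟨j, hj, hj1, hj2⟩ | ⟨hj1, hj2⟩
      · left
        refine ⟨j, hj, Or.inr ?_⟩
        rw [hj1, hj2]; exact ⟨h2.symm, h1.symm⟩
      · right; right
        rw [← hj1, ← hj2]; exact ⟨h1, h2⟩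
  · rw [hψ1 0 (by omega), show 0 + k = k by omega, hφk]

end Pool.Agent.Helper36.QA
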