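import Pool.Agent.Helper36.QA.LCaseB
import Pool.Agent.Helper36.QA.Rot
import Pool.Agent.Helper36.QA.Planar2

/-!
# Few gadgets: the main argument, for a labelling
-/

set_option autoImplicit false

namespace Pool.Agent.Helper36.QA

open Finset
open Pool.Agent.Helper36.CL hiding lam

variable {G : SimpleGraph ℕ} {n m b V : ℕ} {K : Finset (ℕ × ℕ)} {φ : ℕ → ℕ}
  {I J : Finset (ℕ × ℕ)} {τ : ℕ × ℕ → (ℕ × ℕ) × (ℕ × ℕ) × (ℕ × ℕ)}

/-- the chord, in position order -/
noncomputable def lpch (m : ℕ) (φ : ℕ → ℕ) (e : ℕ × ℕ) : ℕ × ℕ :=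
  (min (pos m φ e.1) (pos m φ e.2), max (pos m φ e.1) (pos m φ e.2))

theorem lab_caseB (hG : Ham G n) (hK : RCh G n K) {L : ℕ → ℕ} (hL : Monotone L)
    (hW : ∀ x y, x ≤ y → L x = L y → y < x + b)
    (hne : ∀ e ∈ K, L e.1 ≠ L e.2) (hSt : LSt K L I τ)
    (hmax : ∀ I' τ', LSt K L I' τ' → I'.card ≤ I.card) (σ : ℕ) :
    Clus G (2 * b) σ ∨
    ((∀ c : ℕ × ℕ, ((K.filter (fun e => L e.1 ∈ lunt V L I ∧ L e.2 ∈ lunt V L I)).filter
        (fun e => cell L e = c)).card ≤ 2 * σ) ∧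
      ∃ R : Finset (ℕ × ℕ), R.card ≤ 2 * V ∧
        ∀ c ∉ R, (((K.filter (fun e => L e.1 ∈ lunt V L I ∧ L e.2 ∈ lunt V L I)).filter
          (fun e => cell L e = c)).image Prod.snd).card ≤ 4) := by
  classical
  have hn3 := hG.1
  have hFam := lfam_of hK hL hne hSt.1 hSt.2.1
  have hConn := (nons_iff_conn hG.1 hFam).mp hSt.2.2
  obtain ⟨m, φ₀, hE₀⟩ := exists_ext hG hFam hConn
  obtain ⟨φ, hE, hφ0⟩ := ext_zero hE₀ ⟨by omega, fun i _ => ⟨by omega, by omega⟩⟩
  have hm3 := hE.three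
  set U := lunt V L I with hU
  set KU := K.filter (fun e => L e.1 ∈ U ∧ L e.2 ∈ U) with hKU
  -- runs of the untouched blocks
  have hex : ∀ t, ∃ p p' lo hi, t ∈ U → (∃ x < n, L x = t) →
      (0 < p ∧ p' < m ∧ Run φ p p' lo hi ∧ L lo = t ∧ L hi = t ∧
        ∀ y, y < n → (L y = t ↔ lo ≤ y ∧ y ≤ hi)) := by
    intro t
    by_cases h : t ∈ U ∧ ∃ x < n, L x = t
    · obtain ⟨h1, x, hx, rfl⟩ := h
      obtain ⟨p, p', lo, hi, h2⟩ := lunt_run (V := V) hL hSt.1 hE hφ0 hx h1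
      exact ⟨p, p', lo, hi, fun _ _ => h2⟩
    · exact ⟨0, 0, 0, 0, fun h1 h2 => absurd ⟨h1, h2⟩ h⟩
  choose st en lo hi hrun using hex
  have hused : ∀ x, x < n → L x ∈ U → Used n (fun c => og (τ c)) I x :=
    fun x hx hxU => lunt_used hL hSt.1 hx hxU
  have hposx : ∀ x, x < n → L x ∈ U →
      st (L x) ≤ pos m φ x ∧ pos m φ x ≤ en (L x) := by
    intro x hx hxU
    obtain ⟨h4, h5, h6, h7, h8, h9⟩ := hrun _ hxU ⟨x, hx, rfl⟩
    obtain ⟨h2, h3⟩ := (h9 x hx).mp rfl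
    obtain ⟨i, hi1, hi2, hi3⟩ := h6.exists_pos h2 h3
    rw [← hi3, pos_eq hE (by omega), hi3]
    exact ⟨hi1, hi2⟩
  have hlt : ∀ i < m, φ i < n := fun i hi => (hE.used i hi).1
  have hloc : ∀ i < m, L (φ i) ∈ U → st (L (φ i)) ≤ i ∧ i ≤ en (L (φ i)) := by
    intro i hi hiU
    have := hposx (φ i) (hlt i hi) hiU
    rw [pos_eq hE hi] at this
    exact this
  have hrb : ∀ t ∈ U, (∃ x < n, L x = t) → ∀ i, st t ≤ i → i ≤ en t → L (φ i) = t := by
    intro t ht htn i h1 h2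
    obtain ⟨h4, h5, h6, h7, h8, h9⟩ := hrun t ht htn
    have h10 := h6.le_map h1 h2
    exact (h9 _ (hlt i (by omega))).mpr h10
  have hse : ∀ t ∈ U, (∃ x < n, L x = t) → st t ≤ en t :=
    fun t ht htn => (hrun t ht htn).2.2.1.1
  have hsten : ∀ s ∈ U, (∃ x < n, L x = s) → ∀ t ∈ U, (∃ x < n, L x = t) → st s < st t →
      en s < st t := by
    intro s hs hsn t ht htn hst
    by_contra h
    have h1 := hrb s hs hsn (st t) hst.le (by omega)
    have h2 := hrb t ht htn (st t) le_rfl (hse t ht htn)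
    rw [h1] at h2
    rw [h2] at hst
    omega
  have hstinj : ∀ s ∈ U, (∃ x < n, L x = s) → ∀ t ∈ U, (∃ x < n, L x = t) → st s = st t →
      s = t := by
    intro s hs hsn t ht htn hst
    have h1 := hrb s hs hsn (st s) le_rfl (hse s hs hsn)
    have h2 := hrb t ht htn (st t) le_rfl (hse t ht htn)
    rw [← h1, ← h2, hst]
  set KP := KU.image (lpch m φ) with hKP
  set lab : ℕ → ℕ := fun i => st (L (φ i)) with hlab
  have hcl : ∀ x, x < n → ∃ y < n, L y = L x := fun x hx => ⟨x, hx, rfl⟩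
  have hbn : ∀ i < m, ∃ y < n, L y = L (φ i) := fun i hi => hcl _ (hlt i hi)
  -- facts about position chords
  have hPE : ∀ e' ∈ KP, e'.1 < e'.2 ∧ e'.2 < m ∧ L (φ e'.1) ∈ U ∧ L (φ e'.2) ∈ U ∧
      L (φ e'.1) ≠ L (φ e'.2) ∧
      ∃ e ∈ K, (e.1 = φ e'.1 ∧ e.2 = φ e'.2) ∨ (e.1 = φ e'.2 ∧ e.2 = φ e'.1) := by
    intro e' he'
    obtain ⟨e, he, rfl⟩ := Finset.mem_image.mp he'
    obtain ⟨heK, heU1, heU2⟩ := Finset.mem_filter.mp he
    have hch := hK.1 e heK
    have h2n : e.2 < n := hch.2.1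
    have h1n : e.1 < n := by have := hch.1; omega
    have s1 := pos_spec hE (hused e.1 h1n heU1)
    have s2 := pos_spec hE (hused e.2 h2n heU2)
    have hne' : pos m φ e.1 ≠ pos m φ e.2 := by
      intro h
      rw [h, s2.2] at s1
      have := hch.1
      omega
    have hb := hne e heK
    unfold lpch
    simp only
    rcases Nat.lt_or_gt_of_ne hne' with h | h
    · rw [min_eq_left h.le, max_eq_right h.le, s1.2, s2.2]
      exact ⟨h, s2.1, heU1, heU2, hb, e, heK, Or.inl ⟨rfl, rfl⟩⟩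
    · rw [min_eq_right h.le, max_eq_left h.le, s1.2, s2.2]
      exact ⟨h, s1.1, heU2, heU1, hb.symm, e, heK, Or.inr ⟨rfl, rfl⟩⟩
  have hlablt : ∀ e' ∈ KP, lab e'.1 < lab e'.2 := by
    intro e' he'
    obtain ⟨h1, h2, h3, h4, h5, _⟩ := hPE e' he'
    have l1 := hloc e'.1 (by omega) h3
    have l2 := hloc e'.2 h2 h4
    rcases lt_trichotomy (lab e'.1) (lab e'.2) with h | h | h
    · exact h
    · exact absurd (hstinj _ h3 (hbn _ (by omega)) _ h4 (hbn _ h2) h) h5
    · have h6 := hsten _ h4 (hbn _ h2) _ h3 (hbn _ (by omega)) h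
      omega
  have hpinj : ∀ e ∈ KU, ∀ f ∈ KU, lpch m φ e = lpch m φ f → e = f := by
    intro e he f hf hef
    have he1 := Finset.mem_filter.mp he
    have hf1 := Finset.mem_filter.mp hf
    have hche := hK.1 e he1.1
    have hchf := hK.1 f hf1.1
    have se1 := pos_spec hE (hused e.1 (by have := hche.1; have := hche.2.1; omega) he1.2.1)
    have se2 := pos_spec hE (hused e.2 hche.2.1 he1.2.2)
    have sf1 := pos_spec hE (hused f.1 (by have := hchf.1; have := hchf.2.1; omega) hf1.2.1)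
    have sf2 := pos_spec hE (hused f.2 hchf.2.1 hf1.2.2)
    have hpair := Prod.ext_iff.mp hef
    unfold lpch at hpair
    simp only at hpair
    have c1 : (pos m φ e.1 = pos m φ f.1 ∧ pos m φ e.2 = pos m φ f.2) ∨
        (pos m φ e.1 = pos m φ f.2 ∧ pos m φ e.2 = pos m φ f.1) := by omega
    rcases c1 with ⟨c1, c2⟩ | ⟨c1, c2⟩
    · exact hK.2 e he1.1 f hf1.1 (by rw [← se1.2, ← sf1.2, c1])
    · have e1 : e.1 = f.2 := by rw [← se1.2, ← sf2.2, c1]
      have e2 : e.2 = f.1 := by rw [← se2.2, ← sf1.2, c2]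
      have := hche.1
      have := hchf.1
      omega
  -- building triples
  have hmk : ∀ e₁ ∈ KP, ∀ e₂ ∈ KP, ∀ e₃ ∈ KP, cellOf lab e₁ = cellOf lab e₂ →
      cellOf lab e₂ = cellOf lab e₃ → e₁.1 < e₂.1 → e₂.1 < e₃.1 →
      ((e₁.2 < e₂.2 ∧ e₂.2 < e₃.2) ∨ (e₃.2 < e₂.2 ∧ e₂.2 < e₁.2)) →
      ∃ c T, LTri K L c T ∧
        (c = (L (φ e₁.1), L (φ e₁.2)) ∨ c = (L (φ e₁.2), L (φ e₁.1))) ∧
        PosGad φ (og T) e₁.1 e₃.1 (min e₁.2 e₃.2) (max e₁.2 e₃.2) ∧
        ((og T).ch (φ e₁.1) (φ e₁.2) ∨ (og T).ch (φ e₁.2) (φ e₁.1)) ∧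
        ((og T).ch (φ e₃.1) (φ e₃.2) ∨ (og T).ch (φ e₃.2) (φ e₃.1)) := by
    intro e₁ he₁ e₂ he₂ e₃ he₃ h12 h23 hlt12 hlt23 hsec
    obtain ⟨a1, a2, a3, a4, a5, E₁, hE₁, hc₁⟩ := hPE e₁ he₁
    obtain ⟨b1, b2, b3, b4, b5, E₂, hE₂, hc₂⟩ := hPE e₂ he₂
    obtain ⟨d1, d2, d3, d4, d5, E₃, hE₃, hc₃⟩ := hPE e₃ he₃
    unfold cellOf at h12 h23
    obtain ⟨g1, g2⟩ := Prod.ext_iff.mp h12
    obtain ⟨g3, g4⟩ := Prod.ext_iff.mp h23
    simp only at g1 g2 g3 g4
    -- same blocks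
    have s12 : L (φ e₂.1) = L (φ e₁.1) :=
      (hstinj _ a3 (hbn _ (by omega)) _ b3 (hbn _ (by omega)) g1).symm
    have t12 : L (φ e₂.2) = L (φ e₁.2) :=
      (hstinj _ a4 (hbn _ (by omega)) _ b4 (hbn _ (by omega)) g2).symm
    have s13 : L (φ e₃.1) = L (φ e₁.1) := by
      rw [← s12]
      exact (hstinj _ b3 (hbn _ (by omega)) _ d3 (hbn _ (by omega)) g3).symm
    have t13 : L (φ e₃.2) = L (φ e₁.2) := by
      rw [← t12]
      exact (hstinj _ b4 (hbn _ (by omega)) _ d4 (hbn _ (by omega)) g4).symm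
    obtain ⟨ra, rb, rS, _⟩ := hrun _ a3 (hbn _ (by omega))
    obtain ⟨ra', rb', rT, _⟩ := hrun _ a4 (hbn _ (by omega))
    have l1 := hloc e₁.1 (by omega) a3
    have l2 := hloc e₃.1 (by omega) d3
    have l3 := hloc e₁.2 (by omega) a4
    have l4 := hloc e₃.2 (by omega) d4
    rw [s13] at l2
    rw [t13] at l4
    have bx : CL.Btw (φ e₁.1) (φ e₂.1) (φ e₃.1) := rS.btw l1.1 l2.2 hlt12 hlt23
    have by' : CL.Btw (φ e₁.2) (φ e₂.2) (φ e₃.2) := by
      rcases hsec with h | h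
      · exact rT.btw l3.1 l4.2 h.1 h.2
      · exact (rT.btw l4.1 l3.2 h.1 h.2).symm'
    have runX : Run φ e₁.1 e₃.1 (min (φ e₁.1) (φ e₃.1)) (max (φ e₁.1) (φ e₃.1)) :=
      rS.between l1.1 (by omega) l2.2
    have runY : Run φ (min e₁.2 e₃.2) (max e₁.2 e₃.2) (min (φ e₁.2) (φ e₃.2))
        (max (φ e₁.2) (φ e₃.2)) := by
      rcases hsec with h | h
      · rw [min_eq_left (by omega : e₁.2 ≤ e₃.2), max_eq_right (by omega : e₁.2 ≤ e₃.2)]
        exact rT.between l3.1 (by omega) l4.2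
      · rw [min_eq_right (by omega : e₃.2 ≤ e₁.2), max_eq_left (by omega : e₃.2 ≤ e₁.2),
          min_comm, max_comm]
        exact rT.between l4.1 (by omega) l3.2
    have hord : e₁.1 < e₃.1 ∧ e₃.1 < min e₁.2 e₃.2 ∧ min e₁.2 e₃.2 < max e₁.2 e₃.2 := by
      refine ⟨by omega, ?_, by omega⟩
      have h6 := hlablt e₁ he₁
      have h7 := hsten _ a3 (hbn _ (by omega)) _ a4 (hbn _ (by omega)) h6
      omega
    have hx13 : φ e₁.1 ≠ φ e₃.1 := by unfold CL.Btw at bx; omega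
    have hy13 : φ e₁.2 ≠ φ e₃.2 := by unfold CL.Btw at by'; omega
    -- orientation of the chords is the same for the three
    have horient : ∀ e' ∈ KP, ∀ E ∈ K, (E.1 = φ e'.1 ∧ E.2 = φ e'.2) ∨
        (E.1 = φ e'.2 ∧ E.2 = φ e'.1) → (L (φ e'.1) < L (φ e'.2) → E = (φ e'.1, φ e'.2)) ∧
        (L (φ e'.2) < L (φ e'.1) → E = (φ e'.2, φ e'.1)) := by
      intro e' _ E hEK hc
      have hE12 := lab_cell_lt hK hL hne hEK
      rcases hc with ⟨c1, c2⟩ | ⟨c1, c2⟩
      · refine ⟨fun _ => Prod.ext c1 c2, fun h => ?_⟩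
        rw [c1, c2] at hE12
        omega
      · refine ⟨fun h => ?_, fun _ => Prod.ext c1 c2⟩
        rw [c1, c2] at hE12
        omega
    have o1 := horient e₁ he₁ E₁ hE₁ hc₁
    have o2 := horient e₂ he₂ E₂ hE₂ hc₂
    have o3 := horient e₃ he₃ E₃ hE₃ hc₃
    rw [s12, t12] at o2
    rw [s13, t13] at o3
    rcases Nat.lt_or_gt_of_ne a5 with hst | hst
    · have q1 := o1.1 hst
      have q2 := o2.1 hst
      have q3 := o3.1 hst
      subst q1 q2 q3
      refine ⟨(L (φ e₁.1), L (φ e₁.2)), ((φ e₁.1, φ e₁.2), (φ e₂.1, φ e₂.2), (φ e₃.1, φ e₃.2)),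
        ⟨⟨hE₁, rfl, rfl⟩, ⟨hE₂, s12, t12⟩, ⟨hE₃, s13, t13⟩, bx, by'⟩, Or.inl rfl,
        ⟨hord.1, hord.2.1, hord.2.2, Or.inl ⟨runX, runY⟩⟩, Or.inl ?_, Or.inl ?_⟩
      · exact (gad2_ch (e := (φ e₁.1, φ e₁.2)) (f := (φ e₃.1, φ e₃.2)) hx13 hy13 _ _).mpr
          (Or.inl ⟨rfl, rfl⟩)
      · exact (gad2_ch (e := (φ e₁.1, φ e₁.2)) (f := (φ e₃.1, φ e₃.2)) hx13 hy13 _ _).mpr
          (Or.inr ⟨rfl, rfl⟩)
    · have q1 := o1.2 hst
      have q2 := o2.2 hst
      have q3 := o3.2 hst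
      subst q1 q2 q3
      refine ⟨(L (φ e₁.2), L (φ e₁.1)), ((φ e₁.2, φ e₁.1), (φ e₂.2, φ e₂.1), (φ e₃.2, φ e₃.1)),
        ⟨⟨hE₁, rfl, rfl⟩, ⟨hE₂, t12, s12⟩, ⟨hE₃, t13, s13⟩, by', bx⟩, Or.inr rfl,
        ⟨hord.1, hord.2.1, hord.2.2, Or.inr ⟨runX, runY⟩⟩, Or.inr ?_, Or.inr ?_⟩
      · exact (gad2_ch (e := (φ e₁.2, φ e₁.1)) (f := (φ e₃.2, φ e₃.1)) hy13 hx13 _ _).mpr
          (Or.inl ⟨rfl, rfl⟩)
      · exact (gad2_ch (e := (φ e₁.2, φ e₁.1)) (f := (φ e₃.2, φ e₃.1)) hy13 hx13 _ _).mpr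
          (Or.inr ⟨rfl, rfl⟩)
  have hDjI : ∀ e' ∈ KP, ∀ c, (c = (L (φ e'.1), L (φ e'.2)) ∨ c = (L (φ e'.2), L (φ e'.1))) →
      ∀ d ∈ I, Dj c d := by
    intro e' he' c hc d hd
    obtain ⟨a1, a2, a3, a4, a5, _⟩ := hPE e' he'
    have h1 := (mem_lunt.mp a3).2.1 d hd
    have h2 := (mem_lunt.mp a4).2.1 d hd
    rcases hc with rfl | rfl
    · exact ⟨h1.1, h1.2, h2.1, h2.2⟩
    · exact ⟨h2.1, h2.2, h1.1, h1.2⟩
  have P1 : ∀ e₁ ∈ KP, ∀ e₂ ∈ KP, ∀ e₃ ∈ KP, cellOf lab e₁ = cellOf lab e₂ →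
      cellOf lab e₂ = cellOf lab e₃ → e₁.1 < e₂.1 → e₂.1 < e₃.1 → e₁.2 < e₂.2 → e₂.2 < e₃.2 →
      False := by
    intro e₁ he₁ e₂ he₂ e₃ he₃ h12 h23 k1 k2 k3 k4
    obtain ⟨c, T, hT, hc, hP, hch1, hch3⟩ := hmk e₁ he₁ e₂ he₂ e₃ he₃ h12 h23 k1 k2
      (Or.inl ⟨k3, k4⟩)
    rw [min_eq_left (by omega : e₁.2 ≤ e₃.2), max_eq_right (by omega : e₁.2 ≤ e₃.2)] at hP
    exact lab_no_add_one hG hK hL hne hSt hmax hE hT (hDjI e₁ he₁ c hc) hP (hPE e₃ he₃).2.1
      hch1 hch3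
  have P2 : ∀ e₁ ∈ KP, ∀ e₂ ∈ KP, ∀ e₃ ∈ KP, ∀ f₁ ∈ KP, ∀ f₂ ∈ KP, ∀ f₃ ∈ KP,
      cellOf lab e₁ = cellOf lab e₂ → cellOf lab e₂ = cellOf lab e₃ →
      cellOf lab f₁ = cellOf lab f₂ → cellOf lab f₂ = cellOf lab f₃ →
      e₁.1 < e₂.1 → e₂.1 < e₃.1 → e₃.2 < e₂.2 → e₂.2 < e₁.2 →
      f₁.1 < f₂.1 → f₂.1 < f₃.1 → f₃.2 < f₂.2 → f₂.2 < f₁.2 →
      lab e₁.1 < lab f₁.1 → lab f₁.1 < lab e₁.2 → lab e₁.2 < lab f₁.2 → False := by
    intro e₁ he₁ e₂ he₂ e₃ he₃ f₁ hf₁ f₂ hf₂ f₃ hf₃ h12 h23 g12 g23 k1 k2 k3 k4 k5 k6 k7 k8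
      l1 l2 l3
    obtain ⟨c, T, hT, hc, hP, hch1, hch3⟩ := hmk e₁ he₁ e₂ he₂ e₃ he₃ h12 h23 k1 k2
      (Or.inr ⟨k3, k4⟩)
    obtain ⟨d, T2, hT2, hd, hQ, hdh1, hdh3⟩ := hmk f₁ hf₁ f₂ hf₂ f₃ hf₃ g12 g23 k5 k6
      (Or.inr ⟨k7, k8⟩)
    rw [min_eq_right (by omega : e₃.2 ≤ e₁.2), max_eq_left (by omega : e₃.2 ≤ e₁.2)] at hP
    rw [min_eq_right (by omega : f₃.2 ≤ f₁.2), max_eq_left (by omega : f₃.2 ≤ f₁.2)] at hQ
    obtain ⟨a1, a2, a3, a4, a5, _⟩ := hPE e₁ he₁
    obtain ⟨b1, b2, b3, b4, b5, _⟩ := hPE e₃ he₃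
    obtain ⟨c1, c2, c3, c4, c5, _⟩ := hPE f₁ hf₁
    obtain ⟨d1, d2, d3, d4, d5, _⟩ := hPE f₃ hf₃
    have e13 : cellOf lab e₁ = cellOf lab e₃ := h12.trans h23
    have f13 : cellOf lab f₁ = cellOf lab f₃ := g12.trans g23
    have x1 : lab e₁.1 = lab e₃.1 := (Prod.ext_iff.mp e13).1
    have x2 : lab e₁.2 = lab e₃.2 := (Prod.ext_iff.mp e13).2
    have y1 : lab f₁.1 = lab f₃.1 := (Prod.ext_iff.mp f13).1
    have y2 : lab f₁.2 = lab f₃.2 := (Prod.ext_iff.mp f13).2
    -- positions in different blocks are ordered as the labels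
    have hordpos : ∀ i j, i < m → j < m → L (φ i) ∈ U → L (φ j) ∈ U → lab i < lab j → i < j := by
      intro i j hi hj hiU hjU hij
      have q1 := hloc i hi hiU
      have q2 := hloc j hj hjU
      have q3 := hsten _ hiU (hbn i hi) _ hjU (hbn j hj) hij
      omega
    have z1 : e₃.1 < f₁.1 := hordpos _ _ (by omega) (by omega) b3 c3 (by omega)
    have z2 : f₃.1 < e₃.2 := hordpos _ _ (by omega) (by omega) d3 b4 (by omega)
    have z3 : e₁.2 < f₃.2 := hordpos _ _ (by omega) (by omega) a4 d4 (by omega)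
    have hcd : Dj c d := by
      have n1 : L (φ e₁.1) ≠ L (φ f₁.1) := fun h => by
        have : lab e₁.1 = lab f₁.1 := by simp only [hlab, h]
        omega
      have n2 : L (φ e₁.1) ≠ L (φ f₁.2) := fun h => by
        have : lab e₁.1 = lab f₁.2 := by simp only [hlab, h]
        omega
      have n3 : L (φ e₁.2) ≠ L (φ f₁.1) := fun h => by
        have : lab e₁.2 = lab f₁.1 := by simp only [hlab, h]
        omega
      have n4 : L (φ e₁.2) ≠ L (φ f₁.2) := fun h => by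
        have : lab e₁.2 = lab f₁.2 := by simp only [hlab, h]
        omega
      rcases hc with rfl | rfl <;> rcases hd with rfl | rfl
      · exact ⟨n1, n2, n3, n4⟩
      · exact ⟨n2, n1, n4, n3⟩
      · exact ⟨n3, n4, n1, n2⟩
      · exact ⟨n4, n3, n2, n1⟩
    exact lab_no_add_two hG hK hL hne hSt hmax hE hT (hDjI e₁ he₁ c hc) hT2 (hDjI f₁ hf₁ d hd)
      hcd hP hQ z1 z2 z3 c2 hch1 hch3 hdh1 hdh3
  obtain ⟨hcellQ, R', hR', hRich⟩ := planar2 lab (U.image st) KP
    (fun e' he' => (hPE e' he').1)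
    (fun e' he' => ⟨Finset.mem_image_of_mem st (hPE e' he').2.2.1,
      Finset.mem_image_of_mem st (hPE e' he').2.2.2.1, hlablt e' he'⟩) P1 P2
  have hLN : (U.image st).card ≤ V := by
    refine Finset.card_image_le.trans ?_
    rw [hU]
    unfold lunt
    refine (Finset.card_filter_le _ _).trans ?_
    rw [Finset.card_range]
  -- each position chord gives a cycle
  have hcyc : ∀ e' ∈ KP, HasF G (m - (e'.2 - e'.1 - 1)) := by
    intro e' he'
    obtain ⟨a1, a2, a3, a4, a5, e, heK, he⟩ := hPE e' he'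
    have hadj : G.Adj (φ e'.1) (φ e'.2) := by
      have h1 := (hK.1 e heK).2.2.2
      rcases he with ⟨e1, e2⟩ | ⟨e1, e2⟩
      · rw [← e1, ← e2]; exact h1
      · rw [← e1, ← e2]; exact h1.symm
    have hnot : ∀ x, L x ∈ U → ∀ i ∈ I, x ≠ (og (τ i)).a ∧ x ≠ (og (τ i)).a' ∧
        x ≠ (og (τ i)).b ∧ x ≠ (og (τ i)).b' := by
      intro x hxU i hi
      obtain ⟨g1, g2, g3, g4⟩ := lab_og_ends (hSt.1 i hi)
      have h1 := (mem_lunt.mp hxU).2.1 i hi
      refine ⟨fun h => h1.1 (by rw [h, g1]), fun h => h1.1 (by rw [h, g2]),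
        fun h => h1.2 (by rw [h, g3]), fun h => h1.2 (by rw [h, g4])⟩
    have hne' : e'.1 + 1 ≠ e'.2 := by
      intro h
      have hr := hE.step e'.1 (by omega)
      rw [h] at hr
      rcases he with ⟨e1, e2⟩ | ⟨e1, e2⟩
      · have h2 := hK.1 e heK
        rw [e1, e2] at h2
        exact not_hr_of_chord h2 (fun i hi => hnot _ a3 i hi) hr
      · have h2 := hK.1 e heK
        rw [e1, e2] at h2
        exact not_hr_of_chord h2 (fun i hi => hnot _ a4 i hi) hr.symm'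
    have hpos1 : 0 < e'.1 := by
      have h1 := (hrun _ a3 (hbn _ (by omega))).1
      have h2 := (hloc e'.1 (by omega) a3).1
      omega
    have hlam := Pool.Agent.Helper36.CL.lam (ham_posGraph hG hFam hE) {e'} (by
      intro x hx
      rw [Finset.mem_singleton.mp hx]
      exact ⟨by omega, a2, fun h => by omega, by omega, a2, hadj⟩) (by
      intro x hx y hy hxy
      rw [Finset.mem_singleton.mp hx, Finset.mem_singleton.mp hy] at hxy
      exact absurd rfl hxy)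
    rw [Finset.singleton_biUnion, Nat.card_Ioo] at hlam
    exact hasF_of_posGraph hE hlam
  -- the class of positions is short
  have hwid : ∀ t ∈ U, (∃ x < n, L x = t) → en t < st t + b := by
    intro t ht htn
    obtain ⟨h4, h5, h6, h7, h8, h9⟩ := hrun t ht htn
    have h10 := h6.2.1
    have h11 := h6.2.2.1
    have h12 := h6.1
    have h13 := hW (lo t) (hi t) h10 (h7.trans h8.symm)
    omega
  -- position cells of chords
  set cc : ℕ × ℕ → ℕ × ℕ := fun c => (min (st c.1) (st c.2), max (st c.1) (st c.2)) with hcc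
  have hcellpos : ∀ e ∈ KU, cellOf lab (lpch m φ e) = cc (cell L e) := by
    intro e he
    obtain ⟨heK, heU1, heU2⟩ := Finset.mem_filter.mp he
    have hch := hK.1 e heK
    have h2n : e.2 < n := hch.2.1
    have h1n : e.1 < n := by have := hch.1; omega
    have s1 := pos_spec hE (hused e.1 h1n heU1)
    have s2 := pos_spec hE (hused e.2 h2n heU2)
    have h1 := hlablt (lpch m φ e) (Finset.mem_image_of_mem _ he)
    unfold cellOf
    simp only [hcc, cell]
    rcases le_total (pos m φ e.1) (pos m φ e.2) with h | h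
    · have h3 : lpch m φ e = (pos m φ e.1, pos m φ e.2) := by
        unfold lpch
        rw [min_eq_left h, max_eq_right h]
      rw [h3] at h1 ⊢
      simp only [hlab, s1.2, s2.2] at h1 ⊢
      rw [min_eq_left h1.le, max_eq_right h1.le]
    · have h3 : lpch m φ e = (pos m φ e.2, pos m φ e.1) := by
        unfold lpch
        rw [min_eq_right h, max_eq_left h]
      rw [h3] at h1 ⊢
      simp only [hlab, s1.2, s2.2] at h1 ⊢
      rw [min_eq_right h1.le, max_eq_left h1.le]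
  by_cases hbig : ∃ c : ℕ × ℕ, 2 * σ < (KU.filter (fun e => cell L e = c)).card
  · -- many chords in a cell
    left
    obtain ⟨c, hc⟩ := hbig
    obtain ⟨Q, hQ1, hQ2, hQ3⟩ := hcellQ (cc c)
    have h1 : (KU.filter (fun e => cell L e = c)).card ≤
        (KP.filter (fun e => cellOf lab e = cc c)).card := by
      refine Finset.card_le_card_of_injOn (lpch m φ) ?_ ?_
      · intro e he
        obtain ⟨he1, he2⟩ := Finset.mem_filter.mp (Finset.mem_coe.mp he)
        refine Finset.mem_coe.mpr (Finset.mem_filter.mpr ⟨Finset.mem_image_of_mem _ he1, ?_⟩)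
        rw [hcellpos e he1, he2]
      · intro e he f hf hef
        exact hpinj e (Finset.mem_filter.mp (Finset.mem_coe.mp he)).1 f
          (Finset.mem_filter.mp (Finset.mem_coe.mp hf)).1 hef
    have hQcard : σ ≤ Q.card := by omega
    have hQne : Q.Nonempty := by
      rw [← Finset.card_pos]
      omega
    obtain ⟨q0, hq0⟩ := hQne
    have hQK : ∀ e ∈ Q, e ∈ KP ∧ cellOf lab e = cc c := fun e he =>
      Finset.mem_filter.mp (hQ1 he)
    set v : ℕ × ℕ → ℕ := fun e => m - (e.2 - e.1 - 1) with hv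
    refine ⟨m + 1 + st (L (φ q0.1)) - st (L (φ q0.2)) - b, Q.image v, ?_, ?_⟩
    · intro s hs
      obtain ⟨e, he, rfl⟩ := Finset.mem_image.mp hs
      have h1 := hPE e (hQK e he).1
      have hcell' := (hQK e he).2.trans (hQK q0 hq0).2.symm
      have h0 := hPE q0 (hQK q0 hq0).1
      have c1 : lab e.1 = lab q0.1 := (Prod.ext_iff.mp hcell').1
      have c2 : lab e.2 = lab q0.2 := (Prod.ext_iff.mp hcell').2
      have l1 := hloc e.1 (by omega) h1.2.2.1
      have l2 := hloc e.2 (by omega) h1.2.2.2.1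
      have w1 := hwid _ h1.2.2.1 (hbn _ (by omega))
      have w2 := hwid _ h1.2.2.2.1 (hbn _ (by omega))
      simp only [hlab] at c1 c2
      refine ⟨?_, ?_, hcyc e (hQK e he).1⟩
      · simp only [hv]; omega
      · simp only [hv]; omega
    · rw [Finset.card_image_of_injOn]
      · exact hQcard
      · intro e he f hf hef
        have h1 := hPE e (hQK e (Finset.mem_coe.mp he)).1
        have h2 := hPE f (hQK f (Finset.mem_coe.mp hf)).1
        apply hQ2 e (Finset.mem_coe.mp he) f (Finset.mem_coe.mp hf)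
        simp only [hv] at hef
        omega
  · right
    refine ⟨fun c => by
      by_contra h
      exact hbig ⟨c, by omega⟩, ?_⟩
    refine ⟨(KU.image (cell L)).filter (fun c => cc c ∈ R'), ?_, ?_⟩
    · have h1 : ((KU.image (cell L)).filter (fun c => cc c ∈ R')).card ≤ R'.card := by
        refine Finset.card_le_card_of_injOn cc ?_ ?_
        · intro c hc
          exact Finset.mem_coe.mpr (Finset.mem_filter.mp (Finset.mem_coe.mp hc)).2
        · intro c hc d hd hcd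
          obtain ⟨hc1, hc2⟩ := Finset.mem_filter.mp (Finset.mem_coe.mp hc)
          obtain ⟨hd1, hd2⟩ := Finset.mem_filter.mp (Finset.mem_coe.mp hd)
          obtain ⟨e, he, rfl⟩ := Finset.mem_image.mp hc1
          obtain ⟨f, hf, rfl⟩ := Finset.mem_image.mp hd1
          obtain ⟨heK, heU1, heU2⟩ := Finset.mem_filter.mp he
          obtain ⟨hfK, hfU1, hfU2⟩ := Finset.mem_filter.mp hf
          have hche := hK.1 e heK
          have hchf := hK.1 f hfK
          have e2n : e.2 < n := hche.2.1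
          have e1n : e.1 < n := by have := hche.1; omega
          have f2n : f.2 < n := hchf.2.1
          have f1n : f.1 < n := by have := hchf.1; omega
          have he12 := lab_cell_lt hK hL hne heK
          have hf12 := lab_cell_lt hK hL hne hfK
          simp only [hcc, cell] at hcd
          obtain ⟨g1, g2⟩ := Prod.ext_iff.mp hcd
          simp only at g1 g2
          have g3 : (st (L e.1) = st (L f.1) ∧ st (L e.2) = st (L f.2)) ∨
              (st (L e.1) = st (L f.2) ∧ st (L e.2) = st (L f.1)) := by omega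
          rcases g3 with ⟨g3, g4⟩ | ⟨g3, g4⟩
          · have k1 := hstinj _ heU1 (hcl _ e1n) _ hfU1 (hcl _ f1n) g3
            have k2 := hstinj _ heU2 (hcl _ e2n) _ hfU2 (hcl _ f2n) g4
            exact Prod.ext k1 k2
          · have k1 := hstinj _ heU1 (hcl _ e1n) _ hfU2 (hcl _ f2n) g3
            have k2 := hstinj _ heU2 (hcl _ e2n) _ hfU1 (hcl _ f1n) g4
            omega
      omega
    · intro c hcR
      by_contra h5
      have h5 : 5 ≤ ((KU.filter (fun e => cell L e = c)).image Prod.snd).card := by omega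
      obtain ⟨T0, hT0, hinj0, himg⟩ : ∃ T0 ⊆ KU.filter (fun e => cell L e = c),
          Set.InjOn Prod.snd (T0 : Set (ℕ × ℕ)) ∧
          T0.image Prod.snd = (KU.filter (fun e => cell L e = c)).image Prod.snd := by
        obtain ⟨T0, h1, h2, h3⟩ := Finset.exists_subset_injOn_image_eq_of_surjOn
          (f := (Prod.snd : ℕ × ℕ → ℕ)) (KU.filter (fun e => cell L e = c) : Set (ℕ × ℕ))
          ((KU.filter (fun e => cell L e = c)).image Prod.snd) (by
            intro y hy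
            obtain ⟨e, he, hey⟩ := Finset.mem_image.mp (Finset.mem_coe.mp hy)
            exact ⟨e, Finset.mem_coe.mpr he, hey⟩)
        exact ⟨T0, Finset.coe_subset.mp h1, h2, h3⟩
      have hcard0 : 5 ≤ T0.card := by
        rw [← himg, Finset.card_image_of_injOn hinj0] at h5
        exact h5
      have hT0m : ∀ e ∈ T0, e ∈ KU ∧ cell L e = c := fun e he => Finset.mem_filter.mp (hT0 he)
      apply hcR
      have hTne : T0.Nonempty := by rw [← Finset.card_pos]; omega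
      obtain ⟨t0, ht0⟩ := hTne
      refine Finset.mem_filter.mpr ⟨?_, ?_⟩
      · exact Finset.mem_image.mpr ⟨t0, (hT0m t0 ht0).1, (hT0m t0 ht0).2⟩
      · refine hRich (cc c) (T0.image (lpch m φ)) ?_ ?_ ?_ ?_
        · exact Finset.image_subset_image fun e he => (hT0m e he).1
        · intro e' he'
          obtain ⟨e, he, rfl⟩ := Finset.mem_image.mp he'
          rw [hcellpos e (hT0m e he).1, (hT0m e he).2]
        · -- matching
          intro e' he' f' hf' hef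
          obtain ⟨e, he, rfl⟩ := Finset.mem_image.mp he'
          obtain ⟨f, hf, rfl⟩ := Finset.mem_image.mp hf'
          have hef' : e ≠ f := fun h => hef (by rw [h])
          obtain ⟨heU, hec⟩ := hT0m e he
          obtain ⟨hfU, hfc⟩ := hT0m f hf
          obtain ⟨heK, heU1, heU2⟩ := Finset.mem_filter.mp heU
          obtain ⟨hfK, hfU1, hfU2⟩ := Finset.mem_filter.mp hfU
          have hche := hK.1 e heK
          have hchf := hK.1 f hfK
          have e2n : e.2 < n := hche.2.1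
          have e1n : e.1 < n := by have := hche.1; omega
          have f2n : f.2 < n := hchf.2.1
          have f1n : f.1 < n := by have := hchf.1; omega
          have se1 := pos_spec hE (hused e.1 e1n heU1)
          have se2 := pos_spec hE (hused e.2 e2n heU2)
          have sf1 := pos_spec hE (hused f.1 f1n hfU1)
          have sf2 := pos_spec hE (hused f.2 f2n hfU2)
          have h1 : pos m φ e.1 ≠ pos m φ f.1 := fun h =>
            hef' (hK.2 e heK f hfK (by rw [← se1.2, ← sf1.2, h]))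
          have h2 : pos m φ e.2 ≠ pos m φ f.2 := fun h =>
            hef' (hinj0 (Finset.mem_coe.mpr he) (Finset.mem_coe.mpr hf)
              (by rw [← se2.2, ← sf2.2, h]))
          have hcef : cell L e = cell L f := hec.trans hfc.symm
          have hc1 : L e.1 = L f.1 := (Prod.ext_iff.mp hcef).1
          have hc2 : L e.2 = L f.2 := (Prod.ext_iff.mp hcef).2
          have pe1 := hposx e.1 e1n heU1
          have pe2 := hposx e.2 e2n heU2
          have pf1 := hposx f.1 f1n hfU1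
          have pf2 := hposx f.2 f2n hfU2
          rw [← hc1] at pf1
          rw [← hc2] at pf2
          have hlt12 := lab_cell_lt hK hL hne heK
          have hstne : st (L e.1) ≠ st (L e.2) := fun h => by
            have := hstinj _ heU1 (hcl _ e1n) _ heU2 (hcl _ e2n) h
            omega
          unfold lpch
          simp only
          rcases Nat.lt_or_gt_of_ne hstne with h | h
          · have h3 := hsten _ heU1 (hcl _ e1n) _ heU2 (hcl _ e2n) h
            omega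
          · have h3 := hsten _ heU2 (hcl _ e2n) _ heU1 (hcl _ e1n) h
            omega
        · rw [Finset.card_image_of_injOn]
          · exact hcard0
          · intro e he f hf hef
            exact hpinj e (hT0m e (Finset.mem_coe.mp he)).1 f (hT0m f (Finset.mem_coe.mp hf)).1 hef

theorem plan {G : SimpleGraph ℕ} {n : ℕ} {K : Finset (ℕ × ℕ)} (hG : Ham G n) (hK : RCh G n K)
    (lam : ℕ → ℕ) (V b s : ℕ) (hlab : Lab n b V lam) (hne : ∀ e ∈ K, lam e.1 ≠ lam e.2)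
    (hmass : ∀ c, (∃ t t', t < t' ∧ lam t = c ∧ lam t' = c) →
      (K.filter (fun e => lam e.2 = c)).card ≤ 2 * s) (σ : ℕ) (hσ1 : 1 ≤ σ) (hσ : 2 * σ ≤ b) :
    Clus G (2 * b) σ ∨
    ∃ K' ⊆ K, K.card ≤ K'.card + (200 * σ + 300) * (b + 2 * s) ∧
      (∀ c : ℕ × ℕ, (K'.filter (fun e => cell lam e = c)).card ≤ 2 * σ) ∧
      ∃ R : Finset (ℕ × ℕ), R.card ≤ 2 * V ∧
        ∀ c ∉ R, ((K'.filter (fun e => cell lam e = c)).image Prod.snd).card ≤ 4 := by
  classical
  obtain ⟨I, τ, hSt, hmax⟩ := exists_max_lst K lam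
  obtain ⟨x, S, hS, hcard⟩ := lab_caseA hG hK (by omega) hlab.mono hlab.width hne hSt
  by_cases h1 : 100 * σ ≤ I.card
  · left
    refine ⟨x, S, hS, le_trans ?_ hcard⟩
    rw [le_min_iff]
    omega
  · rcases lab_caseB (V := V) hG hK hlab.mono hlab.width hne hSt hmax σ with h | ⟨h2, h3⟩
    · exact Or.inl h
    · right
      refine ⟨_, Finset.filter_subset _ _, ?_, h2, h3⟩
      have h4 := card_lunt hK hlab.width hlab.bound s hmass hSt.1
      have h5 : (2 * I.card + 1) * (b + 2 * s) ≤ (200 * σ + 300) * (b + 2 * s) :=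
        Nat.mul_le_mul_right _ (by omega)
      omega

end Pool.Agent.Helper36.QA
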