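import Pool.Agent.Helper36.QA.ClaimW
import Pool.Agent.Helper36.QA.CellsWin
import Pool.Agent.Helper36.QA.Plan

set_option autoImplicit false

namespace Pool.Agent.Helper36.QA

open Finset
open scoped Pointwise
open Pool.Agent.Helper36.CL (HasF Ham IsChord Gad)
open Pool.Agent.Helper36.Hub (Cy)

theorem core_clus_mono {G : SimpleGraph ℕ} {W W' k k' : ℕ} (hW : W ≤ W') (hk : k' ≤ k)
    (h : Clus G W k) : Clus G W' k' := by
  obtain ⟨x, S, hS, hc⟩ := h
  exact ⟨x, S, fun s hs => ⟨(hS s hs).1, le_trans (hS s hs).2.1 (by omega), (hS s hs).2.2⟩,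
    hk.trans hc⟩

/-- A subfamily with controlled weight. -/
theorem core_sub {α : Type*} [DecidableEq α] (w : α → ℕ) (D ε : ℕ) (T : Finset α)
    (hw : ∀ a ∈ T, w a ≤ D) (h : ε < ∑ a ∈ T, w a) :
    ∃ T' ⊆ T, ε < ∑ a ∈ T', w a ∧ ∑ a ∈ T', w a ≤ ε + D := by
  induction T using Finset.induction_on with
  | empty => simp at h
  | insert a s ha ih =>
    by_cases hs : ε < ∑ a ∈ s, w a
    · obtain ⟨T', hT', h1, h2⟩ := ih (fun b hb => hw b (mem_insert_of_mem hb)) hs
      exact ⟨T', hT'.trans (subset_insert _ _), h1, h2⟩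
    · refine ⟨insert a s, Subset.rfl, h, ?_⟩
      rw [sum_insert ha]
      have := hw a (mem_insert_self _ _)
      omega

/-- The left ends of the chords of the cell `c` with right end `x`. -/
def coreD (lam : ℕ → ℕ) (K : Finset (ℕ × ℕ)) (c : ℕ × ℕ) (x : ℕ) : Finset ℕ :=
  ((K.filter (fun e => cell lam e = c)).filter (fun e => e.2 = x)).image Prod.fst

theorem core_mem {lam : ℕ → ℕ} {K : Finset (ℕ × ℕ)} {c : ℕ × ℕ} {x v : ℕ} :
    v ∈ coreD lam K c x ↔ (v, x) ∈ K ∧ cell lam (v, x) = c := by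
  unfold coreD
  simp only [mem_image, mem_filter, Prod.exists]
  constructor
  · rintro ⟨a, y, ⟨⟨h1, h2⟩, h3⟩, h4⟩
    subst h3
    subst h4
    exact ⟨h1, h2⟩
  · rintro ⟨h1, h2⟩
    exact ⟨v, x, ⟨⟨h1, h2⟩, rfl⟩, rfl⟩

theorem core_card_le {lam : ℕ → ℕ} {K : Finset (ℕ × ℕ)} {c : ℕ × ℕ} {x : ℕ} :
    (coreD lam K c x).card ≤ (K.filter (fun e => cell lam e = c)).card :=
  card_image_le.trans (card_le_card (filter_subset _ _))

theorem core_card {lam : ℕ → ℕ} {K : Finset (ℕ × ℕ)}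
    (hK : ∀ e ∈ K, ∀ f ∈ K, e.1 = f.1 → e = f) (c : ℕ × ℕ) :
    (K.filter (fun e => cell lam e = c)).card =
      ∑ x ∈ (K.filter (fun e => cell lam e = c)).image Prod.snd, (coreD lam K c x).card := by
  rw [card_eq_sum_card_image Prod.snd]
  refine sum_congr rfl fun x _ => ?_
  unfold coreD
  rw [card_image_of_injOn]
  intro e he f hf hef
  rw [mem_coe, mem_filter, mem_filter] at he hf
  exact hK e he.1.1 f hf.1.1 hef

theorem core_max (lam : ℕ → ℕ) (K : Finset (ℕ × ℕ)) (c : ℕ × ℕ) :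
    ∃ x, ∀ y, (coreD lam K c y).card ≤ (coreD lam K c x).card := by
  rcases K.eq_empty_or_nonempty with rfl | hne
  · exact ⟨0, fun y => by simp [coreD]⟩
  · obtain ⟨x, _, hx⟩ := exists_max_image (K.image Prod.snd) (fun y => (coreD lam K c y).card)
      (hne.image _)
    refine ⟨x, fun y => ?_⟩
    by_cases hy : y ∈ K.image Prod.snd
    · exact hx y hy
    · have : coreD lam K c y = ∅ := by
        refine eq_empty_of_forall_notMem fun v hv => hy ?_
        rw [core_mem] at hv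
        exact mem_image.2 ⟨_, hv.1, rfl⟩
      rw [this]
      simp

theorem core {G : SimpleGraph ℕ} {n : ℕ} {K : Finset (ℕ × ℕ)} (hG : Ham G n) (hK : RCh G n K)
    (lam : ℕ → ℕ) (V b s : ℕ) (hlab : Lab n b V lam) (hne : ∀ e ∈ K, lam e.1 ≠ lam e.2)
    (hmass : ∀ c, (∃ t t', t < t' ∧ lam t = c ∧ lam t' = c) →
      (K.filter (fun e => lam e.2 = c)).card ≤ 2 * s) (C0 : ℕ)
    (hC0 : (K.image (cell lam)).card ≤ C0) (σ : ℕ) (hσ1 : 1 ≤ σ) (hσ : 1000 * σ ≤ b) :
    Clus G (6 * b) σ ∨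
      K.card ≤ (200 * σ + 300) * (b + 2 * s) + 44 * C0 + 16004 * (σ * V) := by
  classical
  by_cases hcl : Clus G (6 * b) σ
  · exact Or.inl hcl
  right
  rcases plan hG hK lam V b s hlab hne hmass σ hσ1 (by omega) with h | ⟨K', hK'K, hcard, hcell, R,
    hR, hR4⟩
  · exact absurd (core_clus_mono (by omega) le_rfl h) hcl
  have hinj : ∀ e ∈ K', ∀ f ∈ K', e.1 = f.1 → e = f := fun e he f hf =>
    hK.2 e (hK'K he) f (hK'K hf)
  choose g hg using core_max lam K'
  set w : ℕ × ℕ → ℕ := fun c => (coreD lam K' c (g c)).card with hw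
  set C' := K'.image (cell lam) with hC'
  set E := C'.filter (fun c => 12 ≤ w c) with hEd
  have hwD : ∀ c, w c ≤ 2 * σ := fun c => core_card_le.trans (hcell c)
  -- the members of `E`
  have hYc : ∀ c, ∀ v ∈ coreD lam K' c (g c), lam v = c.1 ∧ lam (g c) = c.2 ∧
      IsChord G n v (g c) := by
    intro c v hv
    rw [core_mem] at hv
    have h2 := hv.2
    unfold cell at h2
    exact ⟨congrArg Prod.fst h2, congrArg Prod.snd h2, hK.1 _ (hK'K hv.1)⟩
  have hE12 : ∀ c ∈ E, 12 ≤ (coreD lam K' c (g c)).card := fun c hc => (mem_filter.1 hc).2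
  have hEne : ∀ c ∈ E, (coreD lam K' c (g c)).Nonempty := by
    intro c hc
    rw [← card_pos]
    have := hE12 c hc
    omega
  have hElt : ∀ e ∈ E, e.1 < e.2 ∧ e.2 < V := by
    intro c hc
    obtain ⟨e, he, rfl⟩ := mem_image.1 (mem_filter.1 hc).1
    have hch := hK.1 e (hK'K he)
    refine ⟨lt_of_le_of_ne (hlab.mono (by have := hch.1; omega)) (hne e (hK'K he)), ?_⟩
    exact hlab.bound _ hch.2.1
  have win : ∀ r ∈ E, ∀ T ⊆ E, Mat T →
      ((∀ f ∈ T, f.1 < r.1 ∧ r.1 < f.2 ∧ f.2 < r.2) ∨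
        (∀ f ∈ T, r.1 < f.1 ∧ f.1 < r.2 ∧ r.2 < f.2)) → ∑ f ∈ T, w f ≤ 480 * σ := by
    intro r hr T hT hM hcr
    by_contra hlt
    push Not at hlt
    obtain ⟨T', hT', h1, h2⟩ := core_sub w (2 * σ) (480 * σ) T (fun a _ => hwD a) hlt
    obtain ⟨l, hl⟩ := hEne r hr
    obtain ⟨hl1, hl2, hl3⟩ := hYc r l hl
    obtain ⟨k, hk1, hk2⟩ := cells_win hG lam b hlab.mono hlab.width T'
      (fun e he f hf => hM e (hT' he) f (hT' hf)) (fun c => coreD lam K' c (g c)) g
      (by
        intro f hf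
        refine ⟨hE12 f (hT (hT' hf)), fun v hv => ?_⟩
        obtain ⟨a1, a2, a3⟩ := hYc f v hv
        refine ⟨a1, ?_, a3.2.2.2⟩
        have := a3.1
        have := a3.2.1
        omega)
      (by
        intro f hf
        obtain ⟨v, hv⟩ := hEne f (hT (hT' hf))
        obtain ⟨a1, a2, a3⟩ := hYc f v hv
        exact ⟨a2, a3.2.1⟩) l (g r) hl3
      (by
        rw [hl1, hl2]
        rcases hcr with h | h
        · exact Or.inl fun f hf => h f (hT' hf)
        · exact Or.inr fun f hf => h f (hT' hf))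
      (by
        refine h2.trans ?_
        omega)
    refine hcl (core_clus_mono le_rfl ?_ hk1)
    have h3 : 480 * σ < 480 * k := lt_of_lt_of_le h1 hk2
    omega
  have hcw := claimW E w (2 * σ) (480 * σ) V hElt (fun e _ => hwD e)
    (fun r hr T hT hM h => win r hr T hT hM (Or.inl h))
    (fun r hr T hT hM h => win r hr T hT hM (Or.inr h))
  -- count
  have hcount : K'.card ≤ ∑ c ∈ C', ((if c ∈ R then 2 * σ else 0) + 44 +
      4 * (if 12 ≤ w c then w c else 0)) := by
    rw [card_eq_sum_card_image (cell lam) K']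
    refine sum_le_sum fun c _ => ?_
    by_cases hcR : c ∈ R
    · rw [if_pos hcR]
      exact le_trans (hcell c) (by omega)
    · have h4 := hR4 c hcR
      have hc := core_card (lam := lam) hinj c
      have hle : (K'.filter (fun e => cell lam e = c)).card ≤ 4 * w c := by
        rw [hc]
        calc _ ≤ ∑ x ∈ (K'.filter (fun e => cell lam e = c)).image Prod.snd, w c :=
              sum_le_sum fun x _ => hg c x
          _ = ((K'.filter (fun e => cell lam e = c)).image Prod.snd).card * w c := by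
              rw [sum_const, smul_eq_mul]
          _ ≤ 4 * w c := Nat.mul_le_mul_right _ h4
      by_cases h12 : 12 ≤ w c
      · rw [if_pos h12]
        omega
      · rw [if_neg h12]
        omega
  rw [sum_add_distrib, sum_add_distrib] at hcount
  have hs1 : ∑ c ∈ C', (if c ∈ R then 2 * σ else 0) ≤ 2 * V * (2 * σ) := by
    rw [← sum_filter, sum_const, smul_eq_mul]
    refine Nat.mul_le_mul_right _ (le_trans (card_le_card ?_) hR)
    intro c hc
    exact (mem_filter.1 hc).2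
  have hs2 : ∑ _c ∈ C', 44 ≤ 44 * C0 := by
    rw [sum_const, smul_eq_mul, mul_comm]
    refine Nat.mul_le_mul_left _ (le_trans (card_le_card ?_) hC0)
    exact image_subset_image hK'K
  have hs3 : ∑ c ∈ C', 4 * (if 12 ≤ w c then w c else 0) ≤ 4 * ((4 * (2 * σ) + 8 * (480 * σ)) * V) := by
    rw [← mul_sum]
    refine Nat.mul_le_mul_left _ ?_
    rw [← sum_filter]
    exact hcw
  have e1 : 2 * V * (2 * σ) = 4 * (σ * V) := by ring
  have e2 : 4 * ((4 * (2 * σ) + 8 * (480 * σ)) * V) = 15392 * (σ * V) := by ring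
  rw [e1] at hs1
  rw [e2] at hs3
  omega

end Pool.Agent.Helper36.QA
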