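import Pool.Agent.Helper36.CL.Defs
import Pool.Agent.Helper36.Hub.Defs

/-!
# Clustered cycle lengths in all Hamiltonian graphs of minimum degree three (MP_c54260_co, Q1)

Basic definitions of the project QA.
-/

set_option autoImplicit false

namespace Pool.Agent.Helper36.QA

open Finset
open Pool.Agent.Helper36.CL (HasF Ham IsChord Gad)
open Pool.Agent.Helper36.Hub (Cy)

/-- A set of chords of the cycle `0, ..., n-1` with pairwise different left ends. -/
def RCh (G : SimpleGraph ℕ) (n : ℕ) (K : Finset (ℕ × ℕ)) : Prop :=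
  (∀ e ∈ K, IsChord G n e.1 e.2) ∧ ∀ e ∈ K, ∀ f ∈ K, e.1 = f.1 → e = f

/-- Labels of the positions: monotone, the classes are intervals of length at most `b`, and at most
`V` labels are used. -/
structure Lab (n b V : ℕ) (lam : ℕ → ℕ) : Prop where
  mono : Monotone lam
  width : ∀ x y, x ≤ y → lam x = lam y → y < x + b
  bound : ∀ t < n, lam t < V

/-- `G` has at least `k` cycle lengths in an interval of length `W`. -/
def Clus (G : SimpleGraph ℕ) (W k : ℕ) : Prop :=
  ∃ (x : ℕ) (S : Finset ℕ), (∀ s ∈ S, x ≤ s ∧ s ≤ x + W ∧ HasF G s) ∧ k ≤ S.card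

/-- Pairs with pairwise different first and pairwise different second coordinates. -/
def Mat (F : Finset (ℕ × ℕ)) : Prop := ∀ e ∈ F, ∀ f ∈ F, e ≠ f → e.1 ≠ f.1 ∧ e.2 ≠ f.2

/-- The largest size of a subfamily of `F` which is a matching. -/
noncomputable def nu (F : Finset (ℕ × ℕ)) : ℕ := by
  classical
  exact (F.powerset.filter (fun T => Mat T)).sup Finset.card

/-- The possible savings at a free hub whose neighbours on the cycle are at the positions `Y`. -/
def red (Y : Finset ℕ) : Finset ℕ :=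
  insert 0 (((Y ×ˢ Y).filter (fun p => p.1 + 2 ≤ p.2)).image (fun p => p.2 - p.1 - 2))

/-- `t` is a sum of one saving for each element of `T`. -/
def Real {ι : Type*} (T : Finset ι) (Y : ι → Finset ℕ) (t : ℕ) : Prop :=
  ∃ ρ : ι → ℕ, (∀ i ∈ T, ρ i ∈ red (Y i)) ∧ ∑ i ∈ T, ρ i = t

/-- `l i` is the diameter of `Y i`. -/
def Diam {ι : Type*} (T : Finset ι) (Y : ι → Finset ℕ) (l : ι → ℕ) : Prop :=
  ∀ i ∈ T, (∃ y ∈ Y i, y + l i ∈ Y i) ∧ ∀ y ∈ Y i, ∀ y' ∈ Y i, y' ≤ y + l i

/-- The edges of `E` that jump over `z` and cross the edge `r` (which has `z` as an end). -/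
def Jmp (E : Finset (ℕ × ℕ)) (r : ℕ × ℕ) (z : ℕ) : Finset (ℕ × ℕ) :=
  E.filter (fun f => f.1 < z ∧ z < f.2 ∧ ((r.1 = z ∧ f.2 < r.2) ∨ (r.2 = z ∧ r.1 < f.1)))

/-- Matching number at `z` of the edges of weight at least `s` with ends in `C`. -/
noncomputable def MN (E : Finset (ℕ × ℕ)) (w : ℕ × ℕ → ℕ) (rz : ℕ → ℕ × ℕ) (C : Finset ℕ)
    (z s : ℕ) : ℕ :=
  nu ((Jmp E (rz z) z).filter (fun f => s ≤ w f ∧ f.1 ∈ C ∧ f.2 ∈ C))

/-- The labels used in the proof. -/
def labl (b s : ℕ) (K : Finset (ℕ × ℕ)) (t : ℕ) : ℕ :=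
  t / b + (K.filter (fun e => e.2 < t)).card / s + (K.filter (fun e => e.2 ≤ t)).card / s

/-- the cell of a chord -/
def cell (lam : ℕ → ℕ) (e : ℕ × ℕ) : ℕ × ℕ := (lam e.1, lam e.2)

end Pool.Agent.Helper36.QA
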