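import Pool.Agent.Helper36.QA.Defs
import Pool.Agent.Helper36.CL.Gcd

/-!
# QA-11: gcd of the removals for chords with shared right ends (MP_c54260_co, Q1)
-/

set_option autoImplicit false

namespace Pool.Agent.Helper36.QA

open Finset
open scoped Pointwise
open Pool.Agent.Helper36.CL (HasF Ham IsChord Gad remSet)
open Pool.Agent.Helper36.Hub (Cy)

/-- Contraction of the open interval `(a, b)`. -/
def gcd2_psi (a b x : ℕ) : ℕ := if x ≤ a then x else x - (b - a - 1)

theorem gcd2_psi_lt (a b x y : ℕ) (h : gcd2_psi a b x < gcd2_psi a b y)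
    (_hy : y ≤ a ∨ b ≤ y) (hx : x ≤ a ∨ b ≤ x) : x < y := by
  unfold gcd2_psi at h
  split_ifs at h <;> omega

theorem gcd2_psi_inj (a b x y : ℕ) (hab : a < b) (h : gcd2_psi a b x = gcd2_psi a b y)
    (hy : y ≤ a ∨ b ≤ y) (hx : x ≤ a ∨ b ≤ x) : x = y := by
  unfold gcd2_psi at h
  split_ifs at h <;> omega

/-- A noncrossing family of chords whose gaps are positive multiples of `g`. -/
theorem gcd2_laminar (g : ℕ) : ∀ (k : ℕ) (P : Finset (ℕ × ℕ)) (u W : ℕ), P.card = k →
    (∀ e ∈ P, u ≤ e.1 ∧ e.1 + 2 ≤ e.2 ∧ e.2 < u + W) →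
    (∀ e ∈ P, ∀ f ∈ P, ¬ (e.1 < f.1 ∧ f.1 < e.2 ∧ e.2 < f.2)) →
    (∀ e ∈ P, g ∣ e.2 - e.1 - 1) → g * P.card ≤ W := by
  intro k
  induction k with
  | zero =>
    intro P u W h0 _ _ _
    rw [h0]
    omega
  | succ k ih =>
    intro P u W hPk h1 h3 h4
    have hne : P.Nonempty := by
      rw [← Finset.card_pos]
      omega
    obtain ⟨⟨a, b⟩, he, hmin⟩ := P.exists_min_image (fun e => e.2 - e.1) hne
    have hab := h1 _ he
    simp only at hab
    have hout : ∀ f ∈ P, (f.1 ≤ a ∨ b ≤ f.1) ∧ (f.2 ≤ a ∨ b ≤ f.2) := by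
      intro f hf
      have h5 := hmin f hf
      have h6 := h1 f hf
      have h7 := h3 _ he f hf
      have h8 := h3 f hf _ he
      simp only at h5 h7 h8
      constructor <;> omega
    set P' := (P.erase (a, b)).image (fun f => (gcd2_psi a b f.1, gcd2_psi a b f.2)) with hP'
    have hinj : Set.InjOn (fun f : ℕ × ℕ => (gcd2_psi a b f.1, gcd2_psi a b f.2))
        (P.erase (a, b) : Finset (ℕ × ℕ)) := by
      intro x hx y hy hxy
      have hx' := hout x (mem_of_mem_erase hx)
      have hy' := hout y (mem_of_mem_erase hy)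
      simp only [Prod.mk.injEq] at hxy
      exact Prod.ext (gcd2_psi_inj a b _ _ (by omega) hxy.1 hy'.1 hx'.1)
        (gcd2_psi_inj a b _ _ (by omega) hxy.2 hy'.2 hx'.2)
    have hcard' : P'.card = k := by
      rw [hP', Finset.card_image_of_injOn hinj, card_erase_of_mem he]
      omega
    have hs : g ∣ b - a - 1 := h4 _ he
    have hgs : g ≤ b - a - 1 := Nat.le_of_dvd (by omega) hs
    have key : ∀ f ∈ P.erase (a, b), (u ≤ gcd2_psi a b f.1 ∧
        gcd2_psi a b f.1 + 2 ≤ gcd2_psi a b f.2 ∧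
        gcd2_psi a b f.2 < u + (W - (b - a - 1))) ∧
        g ∣ gcd2_psi a b f.2 - gcd2_psi a b f.1 - 1 := by
      intro f hf
      have hfP := mem_of_mem_erase hf
      have h5 := hout f hfP
      have h6 := h1 f hfP
      have h7 := hmin f hfP
      have h8 : f.1 ≠ a ∨ f.2 ≠ b := by
        by_contra hcon
        push Not at hcon
        exact ne_of_mem_erase hf (Prod.ext hcon.1 hcon.2)
      have h9 := h4 f hfP
      simp only at h7
      unfold gcd2_psi
      split_ifs with c1 c2 c2
      · exact ⟨by omega, h9⟩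
      · refine ⟨by omega, ?_⟩
        have : f.2 - (b - a - 1) - f.1 - 1 = (f.2 - f.1 - 1) - (b - a - 1) := by omega
        rw [this]
        exact Nat.dvd_sub h9 hs
      · omega
      · refine ⟨by omega, ?_⟩
        have : f.2 - (b - a - 1) - (f.1 - (b - a - 1)) - 1 = f.2 - f.1 - 1 := by omega
        rw [this]
        exact h9
    have hIH := ih P' u (W - (b - a - 1)) hcard' (by
      intro e' he'
      obtain ⟨f, hf, rfl⟩ := mem_image.1 he'
      exact (key f hf).1) (by
      intro e' he' f' hf'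
      obtain ⟨e, he, rfl⟩ := mem_image.1 he'
      obtain ⟨f, hf, rfl⟩ := mem_image.1 hf'
      have h5 := hout e (mem_of_mem_erase he)
      have h6 := hout f (mem_of_mem_erase hf)
      rintro ⟨c1, c2, c3⟩
      exact h3 e (mem_of_mem_erase he) f (mem_of_mem_erase hf)
        ⟨gcd2_psi_lt a b _ _ c1 h6.1 h5.1, gcd2_psi_lt a b _ _ c2 h5.2 h6.1,
          gcd2_psi_lt a b _ _ c3 h6.2 h5.2⟩) (by
      intro e' he'
      obtain ⟨f, hf, rfl⟩ := mem_image.1 he'
      exact (key f hf).2)
    rw [hcard'] at hIH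
    rw [hPk]
    have : g * (k + 1) = g * k + g := by ring
    omega

theorem gcd_bound2 (K : Finset (ℕ × ℕ)) (u W g : ℕ)
    (hK : ∀ e ∈ K, u ≤ e.1 ∧ e.1 + 2 ≤ e.2 ∧ e.2 < u + W)
    (hinj : ∀ e ∈ K, ∀ f ∈ K, e.1 = f.1 → e = f)
    (hg : ∀ x ∈ remSet K, g ∣ x) : g * K.card ≤ 3 * W := by
  rcases Nat.lt_or_ge g 3 with hg3 | hg3
  · -- small g
    have hKW : K.card ≤ W := by
      have : (K.image (fun e => e.1)).card = K.card := by
        apply Finset.card_image_of_injOn
        intro e he f hf hef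
        exact hinj e he f hf hef
      rw [← this]
      have hsub : K.image (fun e => e.1) ⊆ Finset.Ico u (u + W) := by
        intro x hx
        obtain ⟨e, he, rfl⟩ := mem_image.1 hx
        have := hK e he
        rw [mem_Ico]
        omega
      calc _ ≤ (Finset.Ico u (u + W)).card := card_le_card hsub
        _ = W := by rw [Nat.card_Ico]; omega
    calc g * K.card ≤ 3 * K.card := Nat.mul_le_mul_right _ hg3.le
      _ ≤ 3 * W := Nat.mul_le_mul_left _ hKW
  -- the single gaps
  have hsingle : ∀ e ∈ K, g ∣ e.2 - e.1 - 1 := by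
    intro e he
    apply hg
    unfold remSet
    rw [mem_insert, mem_union]
    exact Or.inr (Or.inl (mem_image_of_mem _ he))
  -- modulus
  obtain ⟨g', hg'2, hg'⟩ : ∃ g' : ℕ, 2 ≤ g' ∧ ∀ x : ℕ, g ∣ 2 * x → g' ∣ x := by
    rcases Nat.even_or_odd' g with ⟨c, hc | hc⟩
    · refine ⟨c, by omega, ?_⟩
      intro x hx
      rw [hc] at hx
      exact Nat.dvd_of_mul_dvd_mul_left (by norm_num) hx
    · refine ⟨g, by omega, ?_⟩
      intro x hx
      have hcop : Nat.Coprime g 2 := by
        rw [hc]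
        rw [mul_comm 2 c]
        exact (Nat.coprime_mul_right_add_left 1 2 c).2 (by norm_num)
      exact hcop.dvd_of_dvd_mul_left hx
  have hcross : ∀ e ∈ K, ∀ f ∈ K, e.1 < f.1 → f.1 < e.2 → e.2 < f.2 → g' ∣ f.1 - e.1 - 1 := by
    intro e he f hf h1 h2 h3
    apply hg'
    have hsum : g ∣ (f.1 - e.1 - 1) + (f.2 - e.2 - 1) := by
      apply hg
      unfold remSet
      rw [mem_insert, mem_union]
      right; right
      rw [mem_image]
      exact ⟨(e, f), mem_filter.2 ⟨mem_product.2 ⟨he, hf⟩, h1, h2, h3⟩, rfl⟩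
    have hse := hsingle e he
    have hsf := hsingle f hf
    have hKe := hK e he
    have hKf := hK f hf
    -- (f.2 - f.1 - 1) + (f.1 - e.1 - 1) = (e.2 - e.1 - 1) + (f.2 - e.2 - 1)
    -- hence f.2 - e.2 - 1 + (e.2 - e.1 - 1) - ... ≡ 0
    have hid : (f.1 - e.1 - 1) + (f.2 - f.1 - 1) = (e.2 - e.1 - 1) + (f.2 - e.2 - 1) := by omega
    have h5 : g ∣ (f.1 - e.1 - 1) + ((f.1 - e.1 - 1) + (f.2 - f.1 - 1)) := by
      rw [hid]
      have : (f.1 - e.1 - 1) + ((e.2 - e.1 - 1) + (f.2 - e.2 - 1)) =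
        ((f.1 - e.1 - 1) + (f.2 - e.2 - 1)) + (e.2 - e.1 - 1) := by ring
      rw [this]
      exact dvd_add hsum hse
    have h6 : (f.1 - e.1 - 1) + ((f.1 - e.1 - 1) + (f.2 - f.1 - 1)) =
        2 * (f.1 - e.1 - 1) + (f.2 - f.1 - 1) := by ring
    rw [h6] at h5
    exact (Nat.dvd_add_left hsf).1 h5
  -- colouring
  set col : ℕ × ℕ → ℕ := fun e => if e.1 % g' = g' - 1 then 2 else (e.1 % g') % 2 with hcol
  have hcol3 : ∀ e ∈ K, col e ∈ Finset.range 3 := by
    intro e _
    rw [mem_range]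
    simp only [hcol]
    split_ifs <;> omega
  have hclass : ∀ c ∈ Finset.range 3, g * (K.filter (fun e => col e = c)).card ≤ W := by
    intro c _
    set P := K.filter (fun e => col e = c) with hP
    have hPK : ∀ e ∈ P, e ∈ K := fun e he => (mem_filter.1 he).1
    exact gcd2_laminar g P.card P u W rfl (fun e he => hK e (hPK e he)) (by
        rintro e he f hf ⟨h1, h2, h3⟩
        have h4 := hcross e (hPK e he) f (hPK f hf) h1 h2 h3
        have hce : col e = c := (mem_filter.1 he).2
        have hcf : col f = c := (mem_filter.1 hf).2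
        obtain ⟨d, hd'⟩ := h4
        have hf1 : f.1 = e.1 + 1 + g' * d := by omega
        have hmod : f.1 % g' = (e.1 + 1) % g' := by
          rw [hf1, Nat.add_mul_mod_self_left]
        have hlt : e.1 % g' < g' := Nat.mod_lt _ (by omega)
        have hmod2 : (e.1 + 1) % g' = if e.1 % g' = g' - 1 then 0 else e.1 % g' + 1 := by
          rw [Nat.add_mod]
          have h1m : 1 % g' = 1 := Nat.mod_eq_of_lt (by omega)
          rw [h1m]
          split_ifs with h
          · rw [h]
            have : g' - 1 + 1 = g' := by omega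
            rw [this, Nat.mod_self]
          · exact Nat.mod_eq_of_lt (by omega)
        rw [hmod2] at hmod
        rw [← hcf] at hce
        simp only [hcol] at hce
        rw [hmod] at hce
        split_ifs at hce <;> omega) (fun e he => hsingle e (hPK e he))
  rw [Finset.card_eq_sum_card_fiberwise hcol3, Finset.mul_sum]
  calc ∑ c ∈ Finset.range 3, g * (K.filter (fun e => col e = c)).card
      ≤ ∑ _c ∈ Finset.range 3, W := Finset.sum_le_sum hclass
    _ = 3 * W := by simp

end Pool.Agent.Helper36.QA
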