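import Pool.Agent.Helper36.QA.LGad
import Pool.Agent.Helper36.CL.PosGraph
import Pool.Agent.Helper36.CL.CaseB

/-!
# Few gadgets: untouched classes
-/

set_option autoImplicit false

namespace Pool.Agent.Helper36.QA

open Finset
open Pool.Agent.Helper36.CL

variable {G : SimpleGraph ℕ} {n m b V : ℕ} {K : Finset (ℕ × ℕ)} {L : ℕ → ℕ} {φ : ℕ → ℕ}
  {I J : Finset (ℕ × ℕ)} {τ : ℕ × ℕ → (ℕ × ℕ) × (ℕ × ℕ) × (ℕ × ℕ)}

theorem lfam_of (hK : RCh G n K) (hL : Monotone L) (hne : ∀ e ∈ K, L e.1 ≠ L e.2)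
    (hT : ∀ c ∈ J, LTri K L c (τ c)) (hD : ∀ c ∈ J, ∀ d ∈ J, c ≠ d → Dj c d) :
    Fam G n (fun c => og (τ c)) J := by
  refine ⟨fun c hc => ?_, fun c hc d hd hcd => ?_⟩
  · obtain ⟨⟨a1, a2, a3⟩, ⟨b1, b2, b3⟩, ⟨c1, c2, c3⟩, h1, h2⟩ := hT c hc
    unfold CL.Btw at h1 h2
    exact lab_gad2_ok hK hL hne a1 c1 a2 a3 c2 c3 (by omega) (by omega)
  · obtain ⟨⟨a1, a2, a3⟩, ⟨b1, b2, b3⟩, ⟨c1, c2, c3⟩, h1, h2⟩ := hT c hc
    obtain ⟨⟨a1', a2', a3'⟩, ⟨b1', b2', b3'⟩, ⟨c1', c2', c3'⟩, h1', h2'⟩ := hT d hd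
    exact (gad2_inCl a2 a3 c2 c3).dis hL (gad2_inCl a2' a3' c2' c3') (hD c hc d hd hcd)

/-- The untouched labels. -/
noncomputable def lunt (V : ℕ) (L : ℕ → ℕ) (I : Finset (ℕ × ℕ)) : Finset ℕ := by
  classical
  exact (Finset.range V).filter (fun t => (∀ c ∈ I, t ≠ c.1 ∧ t ≠ c.2) ∧ t ≠ L 0)

theorem mem_lunt {t : ℕ} :
    t ∈ lunt V L I ↔ t < V ∧ (∀ c ∈ I, t ≠ c.1 ∧ t ≠ c.2) ∧ t ≠ L 0 := by
  unfold lunt
  simp only [Finset.mem_filter, Finset.mem_range]

theorem lab_og_ends {c : ℕ × ℕ} {t : (ℕ × ℕ) × (ℕ × ℕ) × (ℕ × ℕ)} (h : LTri K L c t) :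
    InCl L c (og t) := by
  obtain ⟨⟨a1, a2, a3⟩, ⟨b1, b2, b3⟩, ⟨c1, c2, c3⟩, h1, h2⟩ := h
  exact gad2_inCl a2 a3 c2 c3

theorem lab_of_between (hL : Monotone L) {a y b' i : ℕ} (ha : L a = i) (hb : L b' = i)
    (h1 : a ≤ y) (h2 : y ≤ b') : L y = i := by
  have h3 := hL h1
  have h4 := hL h2
  omega

theorem lunt_used (hL : Monotone L) (hT : ∀ c ∈ I, LTri K L c (τ c)) {x : ℕ} (hx : x < n)
    (hU : L x ∈ lunt V L I) : Used n (fun c => og (τ c)) I x := by
  refine ⟨hx, fun c hc => ?_⟩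
  obtain ⟨h1, h2, h3, h4⟩ := lab_og_ends (hT c hc)
  have hU' := (mem_lunt.mp hU).2.1 c hc
  constructor
  · rintro ⟨h5, h6⟩
    exact hU'.1 (lab_of_between hL h1 h2 h5.le h6.le)
  · rintro ⟨h5, h6⟩
    exact hU'.2 (lab_of_between hL h3 h4 h5.le h6.le)

theorem lunt_uncut (hL : Monotone L) (hT : ∀ c ∈ I, LTri K L c (τ c)) {x : ℕ}
    (hU : L x ∈ lunt V L I) : ¬ Cut (fun c => og (τ c)) I x := by
  rintro ⟨c, hc, h⟩
  obtain ⟨h1, h2, h3, h4⟩ := lab_og_ends (hT c hc)
  have hU' := (mem_lunt.mp hU).2.1 c hc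
  rcases h with ⟨h5, h6⟩ | ⟨h5, h6⟩
  · exact hU'.1 (lab_of_between hL h1 h2 h5 h6.le)
  · exact hU'.2 (lab_of_between hL h3 h4 h5 h6.le)

/-- The class of a label is an interval. -/
theorem exists_cls (hL : Monotone L) {x : ℕ} (hx : x < n) :
    ∃ lo hi, lo ≤ hi ∧ hi < n ∧ L lo = L x ∧ L hi = L x ∧
      ∀ y, y < n → (L y = L x ↔ lo ≤ y ∧ y ≤ hi) := by
  classical
  set A := (Finset.range n).filter (fun y => L y = L x) with hA
  have hmem : ∀ y, y ∈ A ↔ y < n ∧ L y = L x := fun y => by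
    rw [hA, Finset.mem_filter, Finset.mem_range]
  have hxA : x ∈ A := (hmem x).mpr ⟨hx, rfl⟩
  have hne : A.Nonempty := ⟨x, hxA⟩
  have h1 := (hmem _).mp (Finset.min'_mem A hne)
  have h2 := (hmem _).mp (Finset.max'_mem A hne)
  refine ⟨A.min' hne, A.max' hne, Finset.min'_le_max' A hne, h2.1, h1.2, h2.2, ?_⟩
  intro y hy
  constructor
  · intro h3
    have h4 : y ∈ A := (hmem y).mpr ⟨hy, h3⟩
    exact ⟨Finset.min'_le A y h4, Finset.le_max' A y h4⟩
  · rintro ⟨h3, h4⟩
    exact lab_of_between hL h1.2 h2.2 h3 h4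

theorem lunt_run (hL : Monotone L) (hT : ∀ c ∈ I, LTri K L c (τ c))
    (hE : Ext n (fun c => og (τ c)) I m φ) (h0 : φ 0 = 0) {x : ℕ} (hx : x < n)
    (ht : L x ∈ lunt V L I) :
    ∃ p p' lo hi, 0 < p ∧ p' < m ∧ Run φ p p' lo hi ∧ L lo = L x ∧ L hi = L x ∧
      ∀ y, y < n → (L y = L x ↔ lo ≤ y ∧ y ≤ hi) := by
  obtain ⟨lo, hi, h1, h2, h3, h4, h5⟩ := exists_cls hL hx
  have hdiv : ∀ y, lo ≤ y → y ≤ hi → L y = L x := fun y h6 h7 => (h5 y (by omega)).mpr ⟨h6, h7⟩
  obtain ⟨p, p', h6, h7, h8⟩ := exists_run hE lo hi h1 h2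
    (fun y h6 h7 => lunt_used hL hT (V := V) (by omega) (by rw [hdiv y h6 h7]; exact ht))
    (fun y h6 h7 => lunt_uncut hL hT (V := V) (by rw [hdiv y h6 (by omega)]; exact ht))
    (fun y h6 h7 h8 => (mem_lunt.mp ht).2.2 (by rw [← hdiv y h6 h7, ← h8, h0]))
  exact ⟨p, p', lo, hi, h6, h7, h8, h3, h4, h5⟩

/-- Number of chords lost by restricting to untouched classes. -/
theorem card_lunt (hK : RCh G n K) (hW : ∀ x y, x ≤ y → L x = L y → y < x + b)
    (hV : ∀ t < n, L t < V) (s : ℕ)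
    (hmass : ∀ c, (∃ t t', t < t' ∧ L t = c ∧ L t' = c) →
      (K.filter (fun e => L e.2 = c)).card ≤ 2 * s)
    (hT : ∀ c ∈ I, LTri K L c (τ c)) :
    K.card ≤ (K.filter (fun e => L e.1 ∈ lunt V L I ∧ L e.2 ∈ lunt V L I)).card +
      (2 * I.card + 1) * (b + 2 * s) := by
  classical
  set U := lunt V L I with hU
  set B : Finset ℕ := (Finset.range V) \ U with hB
  have hBsub : B ⊆ (I.image Prod.fst ∪ I.image Prod.snd) ∪ {L 0} := by
    intro t ht
    rw [hB, Finset.mem_sdiff, Finset.mem_range, hU, mem_lunt] at ht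
    obtain ⟨h1, h2⟩ := ht
    by_contra h3
    apply h2
    simp only [Finset.mem_union, Finset.mem_image, Finset.mem_singleton, not_or, not_exists,
      not_and] at h3
    refine ⟨h1, fun c hc => ⟨fun h4 => ?_, fun h4 => ?_⟩, h3.2⟩
    · exact h3.1.1 c hc h4.symm
    · exact h3.1.2 c hc h4.symm
  have hBcard : B.card ≤ 2 * I.card + 1 := by
    refine (Finset.card_le_card hBsub).trans ?_
    refine (Finset.card_union_le _ _).trans ?_
    have h1 := Finset.card_union_le (I.image Prod.fst) (I.image Prod.snd)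
    have h2 : (I.image Prod.fst).card ≤ I.card := Finset.card_image_le
    have h3 : (I.image Prod.snd).card ≤ I.card := Finset.card_image_le
    rw [Finset.card_singleton]
    omega
  have hleft : ∀ t, (K.filter (fun e => L e.1 = t)).card ≤ b := by
    intro t
    rcases (K.filter (fun e => L e.1 = t)).eq_empty_or_nonempty with h | h
    · rw [h, Finset.card_empty]; exact Nat.zero_le _
    · obtain ⟨e0, he0, hmin⟩ := Finset.exists_min_image _ Prod.fst h
      have h1 : (K.filter (fun e => L e.1 = t)).card ≤ (Finset.Ico e0.1 (e0.1 + b)).card := by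
        refine Finset.card_le_card_of_injOn Prod.fst ?_ ?_
        · intro e he
          have he' := Finset.mem_filter.mp (Finset.mem_coe.mp he)
          have h2 := hmin e (Finset.mem_coe.mp he)
          have h3 := hW e0.1 e.1 h2 (by rw [(Finset.mem_filter.mp he0).2, he'.2])
          exact Finset.mem_coe.mpr (Finset.mem_Ico.mpr ⟨h2, h3⟩)
        · intro e he f hf hef
          exact hK.2 e (Finset.mem_filter.mp (Finset.mem_coe.mp he)).1 f
            (Finset.mem_filter.mp (Finset.mem_coe.mp hf)).1 hef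
      rw [Nat.card_Ico] at h1
      omega
  have hright : ∀ t ∈ B, (K.filter (fun e => L e.2 = t)).card ≤ 2 * s := by
    intro t ht
    rcases (K.filter (fun e => L e.2 = t)).eq_empty_or_nonempty with h | ⟨e0, he0⟩
    · rw [h, Finset.card_empty]; exact Nat.zero_le _
    · apply hmass
      have h1 := hBsub ht
      simp only [Finset.mem_union, Finset.mem_image, Finset.mem_singleton] at h1
      rcases h1 with (⟨c, hc, rfl⟩ | ⟨c, hc, rfl⟩) | rfl
      · obtain ⟨⟨a1, a2, a3⟩, ⟨b1, b2, b3⟩, ⟨c1, c2, c3⟩, h1, h2⟩ := hT c hc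
        unfold CL.Btw at h1 h2
        rcases h1 with h1 | h1
        · exact ⟨_, _, h1.1, a2, b2⟩
        · exact ⟨_, _, h1.1, c2, b2⟩
      · obtain ⟨⟨a1, a2, a3⟩, ⟨b1, b2, b3⟩, ⟨c1, c2, c3⟩, h1, h2⟩ := hT c hc
        unfold CL.Btw at h1 h2
        rcases h2 with h1 | h1
        · exact ⟨_, _, h1.1, a3, b3⟩
        · exact ⟨_, _, h1.1, c3, b3⟩
      · have h2 := (hK.1 e0 (Finset.mem_filter.mp he0).1).1
        exact ⟨0, e0.2, by omega, rfl, (Finset.mem_filter.mp he0).2⟩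
  have hlost : (K.filter (fun e => ¬ (L e.1 ∈ U ∧ L e.2 ∈ U))).card ≤ B.card * (b + 2 * s) := by
    have h1 : (B.biUnion (fun t => K.filter (fun e => L e.1 = t) ∪
        K.filter (fun e => L e.2 = t))).card ≤ B.card * (b + 2 * s) := by
      refine Finset.card_biUnion_le_card_mul _ _ _ fun t ht => ?_
      have h2 := Finset.card_union_le (K.filter (fun e => L e.1 = t))
        (K.filter (fun e => L e.2 = t))
      have h3 := hleft t
      have h4 := hright t ht
      omega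
    refine le_trans (Finset.card_le_card ?_) h1
    intro e he
    obtain ⟨heK, h2⟩ := Finset.mem_filter.mp he
    have hch := hK.1 e heK
    have hn2 : e.2 < n := hch.2.1
    have hn1 : e.1 < n := by have := hch.1; omega
    by_cases h3 : L e.1 ∈ U
    · have h4 : L e.2 ∉ U := fun h => h2 ⟨h3, h⟩
      refine Finset.mem_biUnion.mpr ⟨L e.2, ?_, ?_⟩
      · rw [hB, Finset.mem_sdiff, Finset.mem_range]
        exact ⟨hV _ hn2, h4⟩
      · exact Finset.mem_union_right _ (Finset.mem_filter.mpr ⟨heK, rfl⟩)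
    · refine Finset.mem_biUnion.mpr ⟨L e.1, ?_, ?_⟩
      · rw [hB, Finset.mem_sdiff, Finset.mem_range]
        exact ⟨hV _ hn1, h3⟩
      · exact Finset.mem_union_left _ (Finset.mem_filter.mpr ⟨heK, rfl⟩)
  have hsplit := Finset.card_filter_add_card_filter_not (s := K)
    (fun e => L e.1 ∈ U ∧ L e.2 ∈ U)
  have h5 : B.card * (b + 2 * s) ≤ (2 * I.card + 1) * (b + 2 * s) :=
    Nat.mul_le_mul_right _ hBcard
  omega

/-- Maximality excludes adding one crossing triple. -/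
theorem lab_no_add_one (hG : Ham G n) (hK : RCh G n K) (hL : Monotone L)
    (hne : ∀ e ∈ K, L e.1 ≠ L e.2)
    (hSt : LSt K L I τ) (hmax : ∀ I' τ', LSt K L I' τ' → I'.card ≤ I.card)
    (hE : Ext n (fun c => og (τ c)) I m φ) {c : ℕ × ℕ} {T : (ℕ × ℕ) × (ℕ × ℕ) × (ℕ × ℕ)}
    (hT : LTri K L c T) (hD : ∀ d ∈ I, Dj c d) {p p' q q' : ℕ}
    (hP : PosGad φ (og T) p p' q q') (hq : q' < m)
    (h1 : (og T).ch (φ p) (φ q) ∨ (og T).ch (φ q) (φ p))
    (h2 : (og T).ch (φ p') (φ q') ∨ (og T).ch (φ q') (φ p')) : False := by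
  classical
  have hcI : c ∉ I := fun h => (hD c h).1 rfl
  set τ' := Function.update τ c T with hτ'
  have hτc : τ' c = T := Function.update_self _ _ _
  have hτi : ∀ i ∈ I, τ' i = τ i := by
    intro i hi
    have hic : i ≠ c := fun h => hcI (h ▸ hi)
    exact Function.update_of_ne hic _ _
  have hT' : ∀ d ∈ insert c I, LTri K L d (τ' d) := by
    intro d hd
    rcases Finset.mem_insert.mp hd with h | h
    · subst h
      rw [hτc]
      exact hT
    · rw [hτi d h]
      exact hSt.1 d h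
  have hD' : ∀ d ∈ insert c I, ∀ e ∈ insert c I, d ≠ e → Dj d e := by
    intro d hd e he hde
    rcases Finset.mem_insert.mp hd with h | h <;> rcases Finset.mem_insert.mp he with h' | h'
    · exact absurd (h.trans h'.symm) hde
    · rw [h]; exact hD e h'
    · rw [h']; exact (hD d h).symm'
    · exact hSt.2.1 d h e h' hde
  have hedge : ∀ x y, ((og T).ch x y ∨ (og T).ch y x) →
      Hr n (fun c => og (τ' c)) (insert c I) x y := by
    rintro x y (h | h)
    · exact Or.inl (Or.inr (Or.inr ⟨c, Finset.mem_insert_self _ _, by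
        show (og (τ' c)).ch _ _
        rw [hτc]
        exact h⟩))
    · exact Or.inr (Or.inr (Or.inr ⟨c, Finset.mem_insert_self _ _, by
        show (og (τ' c)).ch _ _
        rw [hτc]
        exact h⟩))
  have hC : Conn n (fun c => og (τ' c)) (insert c I) :=
    conn_add_one (f' := fun c => og (τ' c)) hE (fun i hi => by rw [hτi i hi])
      (p := p) (p' := p') (q := q) (q' := q') (by rw [hτc]; exact hP) hq (hedge _ _ h1)
      (hedge _ _ h2)
  have hN := (nons_iff_conn hG.1 (lfam_of hK hL hne hT' hD')).mpr hC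
  have h3 := hmax (insert c I) τ' ⟨hT', hD', hN⟩
  rw [Finset.card_insert_of_notMem hcI] at h3
  omega

/-- Maximality excludes adding two crossing nested triples. -/
theorem lab_no_add_two (hG : Ham G n) (hK : RCh G n K) (hL : Monotone L)
    (hne : ∀ e ∈ K, L e.1 ≠ L e.2)
    (hSt : LSt K L I τ) (hmax : ∀ I' τ', LSt K L I' τ' → I'.card ≤ I.card)
    (hE : Ext n (fun c => og (τ c)) I m φ) {c d : ℕ × ℕ}
    {T T2 : (ℕ × ℕ) × (ℕ × ℕ) × (ℕ × ℕ)}
    (hT : LTri K L c T) (hD : ∀ e ∈ I, Dj c e) (hT2 : LTri K L d T2) (hD2 : ∀ e ∈ I, Dj d e)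
    (hcd : Dj c d) {p p' q q' r r' t t' : ℕ}
    (hP : PosGad φ (og T) p p' q q') (hQ : PosGad φ (og T2) r r' t t')
    (hpr : p' < r) (hrq : r' < q) (hqt : q' < t) (ht : t' < m)
    (h1 : (og T).ch (φ p) (φ q') ∨ (og T).ch (φ q') (φ p))
    (h2 : (og T).ch (φ p') (φ q) ∨ (og T).ch (φ q) (φ p'))
    (h3 : (og T2).ch (φ r) (φ t') ∨ (og T2).ch (φ t') (φ r))
    (h4 : (og T2).ch (φ r') (φ t) ∨ (og T2).ch (φ t) (φ r')) : False := by
  classical
  have hcI : c ∉ I := fun h => (hD c h).1 rfl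
  have hdI : d ∉ I := fun h => (hD2 d h).1 rfl
  have hcd' : c ≠ d := fun h => hcd.1 (by rw [h])
  set τ' := Function.update (Function.update τ d T2) c T with hτ'
  have hτc : τ' c = T := Function.update_self _ _ _
  have hτd : τ' d = T2 := by
    rw [hτ', Function.update_of_ne hcd'.symm, Function.update_self]
  have hτi : ∀ i ∈ I, τ' i = τ i := by
    intro i hi
    have hic : i ≠ c := fun h => hcI (h ▸ hi)
    have hid : i ≠ d := fun h => hdI (h ▸ hi)
    rw [hτ', Function.update_of_ne hic, Function.update_of_ne hid]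
  set J := insert c (insert d I) with hJ
  have hcJ : c ∈ J := Finset.mem_insert_self _ _
  have hdJ : d ∈ J := Finset.mem_insert_of_mem (Finset.mem_insert_self _ _)
  have hcases : ∀ e ∈ J, e = c ∨ e = d ∨ e ∈ I := by
    intro e he
    rcases Finset.mem_insert.mp he with h | h
    · exact Or.inl h
    · rcases Finset.mem_insert.mp h with h | h
      · exact Or.inr (Or.inl h)
      · exact Or.inr (Or.inr h)
  have hT' : ∀ e ∈ J, LTri K L e (τ' e) := by
    intro e he
    rcases hcases e he with h | h | h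
    · rw [h, hτc]; exact hT
    · rw [h, hτd]; exact hT2
    · rw [hτi e h]; exact hSt.1 e h
  have hD' : ∀ e ∈ J, ∀ g ∈ J, e ≠ g → Dj e g := by
    intro e he g hg heg
    rcases hcases e he with h | h | h <;> rcases hcases g hg with h' | h' | h'
    · exact absurd (h.trans h'.symm) heg
    · rw [h, h']; exact hcd
    · rw [h]; exact hD g h'
    · rw [h, h']; exact hcd.symm'
    · exact absurd (h.trans h'.symm) heg
    · rw [h]; exact hD2 g h'
    · rw [h']; exact (hD e h).symm'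
    · rw [h']; exact (hD2 e h).symm'
    · exact hSt.2.1 e h g h' heg
  have hedge : ∀ x y, ((og T).ch x y ∨ (og T).ch y x) →
      Hr n (fun c => og (τ' c)) J x y := by
    rintro x y (h | h)
    · exact Or.inl (Or.inr (Or.inr ⟨c, hcJ, by
        show (og (τ' c)).ch _ _
        rw [hτc]
        exact h⟩))
    · exact Or.inr (Or.inr (Or.inr ⟨c, hcJ, by
        show (og (τ' c)).ch _ _
        rw [hτc]
        exact h⟩))
  have hedge2 : ∀ x y, ((og T2).ch x y ∨ (og T2).ch y x) →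
      Hr n (fun c => og (τ' c)) J x y := by
    rintro x y (h | h)
    · exact Or.inl (Or.inr (Or.inr ⟨d, hdJ, by
        show (og (τ' d)).ch _ _
        rw [hτd]
        exact h⟩))
    · exact Or.inr (Or.inr (Or.inr ⟨d, hdJ, by
        show (og (τ' d)).ch _ _
        rw [hτd]
        exact h⟩))
  have hC : Conn n (fun c => og (τ' c)) J :=
    conn_add_two (f' := fun c => og (τ' c)) hE (fun i hi => by rw [hτi i hi])
      (p := p) (p' := p') (q := q) (q' := q') (r := r) (r' := r') (t := t) (t' := t')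
      (by rw [hτc]; exact hP) (by rw [hτd]; exact hQ) hpr hrq hqt ht (hedge _ _ h1)
      (hedge _ _ h2) (hedge2 _ _ h3) (hedge2 _ _ h4)
  have hN := (nons_iff_conn hG.1 (lfam_of hK hL hne hT' hD')).mpr hC
  have h5 := hmax J τ' ⟨hT', hD', hN⟩
  rw [hJ, Finset.card_insert_of_notMem, Finset.card_insert_of_notMem hdI] at h5
  · omega
  · intro h
    rcases Finset.mem_insert.mp h with h | h
    · exact hcd' h
    · exact hcI h

end Pool.Agent.Helper36.QA
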