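import Pool.Agent.Helper36.QA.Defs
import Pool.Agent.Helper36.CL.Gad2
import Pool.Agent.Helper36.CL.CaseA

/-!
# Gadgets in the cells of a labelling
-/

set_option autoImplicit false

namespace Pool.Agent.Helper36.QA

open Finset
open Pool.Agent.Helper36.CL

variable {ι : Type*} {G : SimpleGraph ℕ} {n m b : ℕ} {φ : ℕ → ℕ} {f f' : ι → Gad} {I J : Finset ι}
  {K : Finset (ℕ × ℕ)} {L : ℕ → ℕ}

theorem lt_of_lab (hL : Monotone L) {x y : ℕ} (h : L x < L y) : x < y := by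
  by_contra h1
  exact absurd (hL (Nat.le_of_not_lt h1)) (by omega)

theorem lt_iff_lab (hL : Monotone L) {x y : ℕ} (h : L x ≠ L y) : x < y ↔ L x < L y := by
  constructor
  · intro h1
    exact lt_of_le_of_ne (hL h1.le) h
  · exact lt_of_lab hL

theorem lab_cmp_of (hL : Monotone L) {x y x' y' i j : ℕ} (hx : L x = i) (hy : L y = j)
    (hx' : L x' = i) (hy' : L y' = j) (hij : i ≠ j) : x < y ↔ x' < y' := by
  rw [lt_iff_lab hL (by rw [hx, hy]; exact hij), hx, hy,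
    lt_iff_lab hL (x := x') (by rw [hx', hy']; exact hij), hx', hy']

theorem lab_sub_lt (hW : ∀ x y, x ≤ y → L x = L y → y < x + b) (hb : 1 ≤ b) {x y i : ℕ}
    (hx : L x = i) (hy : L y = i) : x - y < b := by
  rcases Nat.le_total y x with h | h
  · have := hW y x h (by rw [hx, hy])
    omega
  · omega

/-- A gadget whose hulls lie in the two classes of a cell. -/
def InCl (L : ℕ → ℕ) (c : ℕ × ℕ) (g : Gad) : Prop :=
  L g.a = c.1 ∧ L g.a' = c.1 ∧ L g.b = c.2 ∧ L g.b' = c.2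

theorem InCl.dis (hL : Monotone L) {c d : ℕ × ℕ} {g h : Gad} (hg : InCl L c g) (hh : InCl L d h)
    (hcd : Dj c d) : g.Dis h := by
  obtain ⟨g1, g2, g3, g4⟩ := hg
  obtain ⟨h1, h2, h3, h4⟩ := hh
  obtain ⟨d1, d2, d3, d4⟩ := hcd
  refine ⟨?_, ?_, ?_, ?_⟩
  · rcases Nat.lt_or_gt_of_ne d1 with k | k
    · left; apply lt_of_lab hL; rw [g2, h1]; exact k
    · right; apply lt_of_lab hL; rw [g1, h2]; exact k
  · rcases Nat.lt_or_gt_of_ne d2 with k | k
    · left; apply lt_of_lab hL; rw [g2, h3]; exact k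
    · right; apply lt_of_lab hL; rw [g1, h4]; exact k
  · rcases Nat.lt_or_gt_of_ne d3 with k | k
    · left; apply lt_of_lab hL; rw [g4, h1]; exact k
    · right; apply lt_of_lab hL; rw [g3, h2]; exact k
  · rcases Nat.lt_or_gt_of_ne d4 with k | k
    · left; apply lt_of_lab hL; rw [g4, h3]; exact k
    · right; apply lt_of_lab hL; rw [g3, h4]; exact k

theorem lab_Amat_congr (hL : Monotone L) (cell : ι → ℕ × ℕ)
    (hf : ∀ i ∈ I, InCl L (cell i) (f i))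
    (hf' : ∀ i ∈ I, InCl L (cell i) (f' i)) (htw : ∀ i ∈ I, (f i).tw = (f' i).tw)
    (hlt : ∀ i ∈ I, (f i).a < (f i).a' ∧ (f i).a' < (f i).b ∧ (f i).b < (f i).b')
    (hlt' : ∀ i ∈ I, (f' i).a < (f' i).a' ∧ (f' i).a' < (f' i).b ∧ (f' i).b < (f' i).b')
    (hDj : ∀ i ∈ I, ∀ j ∈ I, i ≠ j → Dj (cell i) (cell j)) :
    ∀ i ∈ I, ∀ j ∈ I, Amat f i j = Amat f' i j := by
  intro i hi j hj
  unfold Amat
  by_cases hij : i = j
  · subst hij
    have h1 := hlt i hi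
    have h2 := hlt' i hi
    have k1 : (f i).a < (f i).a' ∧ (f i).a' < (f i).b := ⟨h1.1, h1.2.1⟩
    have k2 : (f' i).a < (f' i).a' ∧ (f' i).a' < (f' i).b := ⟨h2.1, h2.2.1⟩
    have k3 : ¬ ((f i).a < (f i).b' ∧ (f i).b' < (f i).b) := by omega
    have k4 : ¬ ((f' i).a < (f' i).b' ∧ (f' i).b' < (f' i).b) := by omega
    rw [if_pos k1, if_pos k2, if_neg k3, if_neg k4, htw i hi]
  · obtain ⟨a1, a2, a3, a4⟩ := hf i hi
    obtain ⟨b1, b2, b3, b4⟩ := hf j hj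
    obtain ⟨a1', a2', a3', a4'⟩ := hf' i hi
    obtain ⟨b1', b2', b3', b4'⟩ := hf' j hj
    obtain ⟨d1, d2, d3, d4⟩ := hDj i hi j hj hij
    have e1 : ((f i).a < (f j).a') ↔ ((f' i).a < (f' j).a') := lab_cmp_of hL a1 b2 a1' b2' d1
    have e2 : ((f j).a' < (f i).b) ↔ ((f' j).a' < (f' i).b) :=
      lab_cmp_of hL b2 a3 b2' a3' d3.symm
    have e3 : ((f i).a < (f j).b') ↔ ((f' i).a < (f' j).b') := lab_cmp_of hL a1 b4 a1' b4' d2
    have e4 : ((f j).b' < (f i).b) ↔ ((f' j).b' < (f' i).b) :=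
      lab_cmp_of hL b4 a3 b4' a3' d4.symm
    simp only [e1, e2, e3, e4, hij, false_and, if_false]

/-- Three chords of `K` in the cell `c`, the second one between the other two on both sides. -/
def LTri (K : Finset (ℕ × ℕ)) (L : ℕ → ℕ) (c : ℕ × ℕ) (t : (ℕ × ℕ) × (ℕ × ℕ) × (ℕ × ℕ)) : Prop :=
  (t.1 ∈ K ∧ L t.1.1 = c.1 ∧ L t.1.2 = c.2) ∧
  (t.2.1 ∈ K ∧ L t.2.1.1 = c.1 ∧ L t.2.1.2 = c.2) ∧
  (t.2.2 ∈ K ∧ L t.2.2.1 = c.1 ∧ L t.2.2.2 = c.2) ∧
  CL.Btw t.1.1 t.2.1.1 t.2.2.1 ∧ CL.Btw t.1.2 t.2.1.2 t.2.2.2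

theorem gad2_inCl {c e f : ℕ × ℕ} (he1 : L e.1 = c.1) (he2 : L e.2 = c.2)
    (hf1 : L f.1 = c.1) (hf2 : L f.2 = c.2) : InCl L c (gad2 e f) := by
  unfold InCl gad2
  simp only
  rcases le_total e.1 f.1 with h | h <;> rcases le_total e.2 f.2 with h' | h' <;>
    simp only [min_eq_left h, min_eq_right h, max_eq_left h, max_eq_right h, min_eq_left h',
      min_eq_right h', max_eq_left h', max_eq_right h'] <;> exact ⟨by assumption, by assumption,
        by assumption, by assumption⟩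

/-- A state: a nonsingular family of triples in pairwise disjoint cells. -/
def LSt (K : Finset (ℕ × ℕ)) (L : ℕ → ℕ) (I : Finset (ℕ × ℕ))
    (τ : ℕ × ℕ → (ℕ × ℕ) × (ℕ × ℕ) × (ℕ × ℕ)) : Prop :=
  (∀ c ∈ I, LTri K L c (τ c)) ∧ (∀ c ∈ I, ∀ d ∈ I, c ≠ d → Dj c d) ∧
    Nons (fun c => og (τ c)) I

theorem exists_max_lst (K : Finset (ℕ × ℕ)) (L : ℕ → ℕ) :
    ∃ I τ, LSt K L I τ ∧ ∀ I' τ', LSt K L I' τ' → I'.card ≤ I.card := by
  classical
  have hb : ∀ I τ, LSt K L I τ → I.card ≤ K.card := by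
    intro I τ h
    have : I ⊆ K.image (fun e => (L e.1, L e.2)) := by
      intro c hc
      obtain ⟨⟨h1, h2, h3⟩, _⟩ := h.1 c hc
      exact Finset.mem_image.mpr ⟨(τ c).1, h1, by rw [h2, h3]⟩
    exact (Finset.card_le_card this).trans Finset.card_image_le
  have h0 : LSt K L ∅ (fun _ => ((0, 0), (0, 0), (0, 0))) := by
    refine ⟨fun c hc => absurd hc (Finset.notMem_empty c),
      fun c hc => absurd hc (Finset.notMem_empty c), ?_⟩
    intro z _ i hi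
    exact absurd hi (Finset.notMem_empty i)
  let P : ℕ → Prop := fun k => ∃ I τ, LSt K L I τ ∧ I.card = k
  have hP0 : P 0 := ⟨∅, _, h0, rfl⟩
  obtain ⟨I, τ, hI, hk⟩ := Nat.findGreatest_spec (P := P) (Nat.zero_le K.card) hP0
  refine ⟨I, τ, hI, ?_⟩
  intro I' τ' h'
  rw [hk]
  exact Nat.le_findGreatest (hb I' τ' h') ⟨I', τ', h', rfl⟩

theorem lab_cell_lt (hK : RCh G n K) (hL : Monotone L) (hne : ∀ e ∈ K, L e.1 ≠ L e.2)
    {e : ℕ × ℕ} (he : e ∈ K) : L e.1 < L e.2 := by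
  have h1 := (hK.1 e he).1
  exact lt_of_le_of_ne (hL (by omega)) (hne e he)

theorem lab_gad2_ok (hK : RCh G n K) (hL : Monotone L) (hne : ∀ e ∈ K, L e.1 ≠ L e.2)
    {c e f : ℕ × ℕ} (he : e ∈ K) (hf : f ∈ K) (he1 : L e.1 = c.1) (he2 : L e.2 = c.2)
    (hf1 : L f.1 = c.1) (hf2 : L f.2 = c.2) (h1 : e.1 ≠ f.1) (h2 : e.2 ≠ f.2) :
    (gad2 e f).Ok G n := by
  have h3 := lab_cell_lt hK hL hne he
  rw [he1, he2] at h3
  refine gad2_ok (hK.1 e he) (hK.1 f hf) h1 h2 ?_ ?_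
  · apply lt_of_lab hL; rw [he1, hf2]; exact h3
  · apply lt_of_lab hL; rw [hf1, he2]; exact h3

/-- Many gadgets: clustered lengths. -/
theorem lab_caseA (hG : Ham G n) (hK : RCh G n K) (hb : 1 ≤ b) (hL : Monotone L)
    (hW : ∀ x y, x ≤ y → L x = L y → y < x + b)
    (hne : ∀ e ∈ K, L e.1 ≠ L e.2) {I : Finset (ℕ × ℕ)}
    {τ : ℕ × ℕ → (ℕ × ℕ) × (ℕ × ℕ) × (ℕ × ℕ)} (hSt : LSt K L I τ) :
    ∃ (x : ℕ) (S : Finset ℕ), (∀ s ∈ S, x ≤ s ∧ s ≤ x + 2 * b ∧ HasF G s) ∧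
      min (I.card / 100) (b / 2) ≤ S.card := by
  classical
  obtain ⟨hT, hD, hN⟩ := hSt
  set f : ℕ × ℕ → Gad := fun c => og (τ c) with hf
  set α : ℕ × ℕ → ℕ := fun c => (gad2 (τ c).1 (τ c).2.1).s with hα
  set β : ℕ × ℕ → ℕ := fun c => (gad2 (τ c).2.1 (τ c).2.2).s with hβ
  -- basic facts about the three gadgets
  have hok : ∀ c ∈ I, (f c).Ok G n ∧ (gad2 (τ c).1 (τ c).2.1).Ok G n ∧
      (gad2 (τ c).2.1 (τ c).2.2).Ok G n := by
    intro c hc
    obtain ⟨⟨a1, a2, a3⟩, ⟨b1, b2, b3⟩, ⟨c1, c2, c3⟩, h1, h2⟩ := hT c hc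
    unfold CL.Btw at h1 h2
    refine ⟨lab_gad2_ok hK hL hne a1 c1 a2 a3 c2 c3 (by omega) (by omega),
      lab_gad2_ok hK hL hne a1 b1 a2 a3 b2 b3 (by omega) (by omega),
      lab_gad2_ok hK hL hne b1 c1 b2 b3 c2 c3 (by omega) (by omega)⟩
  have hin : ∀ c ∈ I, InCl L c (f c) ∧ InCl L c (gad2 (τ c).1 (τ c).2.1) ∧
      InCl L c (gad2 (τ c).2.1 (τ c).2.2) := by
    intro c hc
    obtain ⟨⟨a1, a2, a3⟩, ⟨b1, b2, b3⟩, ⟨c1, c2, c3⟩, h1, h2⟩ := hT c hc
    exact ⟨gad2_inCl a2 a3 c2 c3, gad2_inCl a2 a3 b2 b3, gad2_inCl b2 b3 c2 c3⟩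
  have htw : ∀ c ∈ I, (f c).tw = (gad2 (τ c).1 (τ c).2.1).tw ∧
      (f c).tw = (gad2 (τ c).2.1 (τ c).2.2).tw := by
    intro c hc
    obtain ⟨_, _, _, h1, h2⟩ := hT c hc
    unfold CL.Btw at h1 h2
    simp only [hf, og, gad2, decide_eq_decide]
    constructor <;> constructor <;> intro h3 <;> constructor <;> intro h4 <;> omega
  have hsum : ∀ c ∈ I, (f c).s = α c + β c := by
    intro c hc
    obtain ⟨_, _, _, h1, h2⟩ := hT c hc
    unfold CL.Btw at h1 h2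
    simp only [hf, og, hα, hβ, gad2_s]
    omega
  have hα2 : ∀ c ∈ I, 2 ≤ α c ∧ α c ≤ 2 * b := by
    intro c hc
    obtain ⟨⟨a1, a2, a3⟩, ⟨b1, b2, b3⟩, ⟨c1, c2, c3⟩, h1, h2⟩ := hT c hc
    unfold CL.Btw at h1 h2
    have k1 := lab_sub_lt hW hb a2 b2
    have k2 := lab_sub_lt hW hb b2 a2
    have k3 := lab_sub_lt hW hb a3 b3
    have k4 := lab_sub_lt hW hb b3 a3
    simp only [hα, gad2_s]
    omega
  have hβ2 : ∀ c ∈ I, 2 ≤ β c ∧ β c ≤ 2 * b := by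
    intro c hc
    obtain ⟨⟨a1, a2, a3⟩, ⟨b1, b2, b3⟩, ⟨c1, c2, c3⟩, h1, h2⟩ := hT c hc
    unfold CL.Btw at h1 h2
    have k1 := lab_sub_lt hW hb c2 b2
    have k2 := lab_sub_lt hW hb b2 c2
    have k3 := lab_sub_lt hW hb c3 b3
    have k4 := lab_sub_lt hW hb b3 c3
    simp only [hβ, gad2_s]
    omega
  have hFam : ∀ J ⊆ I, Fam G n f J := by
    intro J hJ
    refine ⟨fun c hc => (hok c (hJ hc)).1, fun c hc d hd hcd => ?_⟩
    exact (hin c (hJ hc)).1.dis hL (hin d (hJ hd)).1 (hD c (hJ hc) d (hJ hd) hcd)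
  obtain ⟨x, S, hS, hcard, hrem⟩ := clu (fun J => Nons f J) I hN
    (fun J hJ hPJ X hX hc => drop_matrix (Amat f) J
      (fun i hi j hj => Amat_symm (hFam J hJ) hi hj) hPJ X hX hc) α β b hα2 hβ2
  -- every removal in `S` is realised
  have key : ∀ s ∈ S, s ≤ n ∧ HasF G (n - s) := by
    intro s hs
    obtain ⟨J, hJ, hPJ, ρ, hρ, rfl⟩ := hrem s hs
    set f' : ℕ × ℕ → Gad := fun c => if ρ c = α c then gad2 (τ c).1 (τ c).2.1
      else if ρ c = β c then gad2 (τ c).2.1 (τ c).2.2 else f c with hf'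
    have hcase : ∀ c ∈ J, (f' c).Ok G n ∧ InCl L c (f' c) ∧ (f c).tw = (f' c).tw ∧
        (f' c).s = ρ c := by
      intro c hc
      have hcI := hJ hc
      by_cases h1 : ρ c = α c
      · have : f' c = gad2 (τ c).1 (τ c).2.1 := by simp only [hf', h1, if_true]
        rw [this]
        exact ⟨(hok c hcI).2.1, (hin c hcI).2.1, (htw c hcI).1, h1.symm⟩
      · by_cases h2 : ρ c = β c
        · have : f' c = gad2 (τ c).2.1 (τ c).2.2 := by
            simp only [hf', if_neg h1, if_pos h2]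
          rw [this]
          exact ⟨(hok c hcI).2.2, (hin c hcI).2.2, (htw c hcI).2, h2.symm⟩
        · have : f' c = f c := by simp only [hf', if_neg h1, if_neg h2]
          rw [this]
          refine ⟨(hok c hcI).1, (hin c hcI).1, rfl, ?_⟩
          rw [hsum c hcI]
          rcases hρ c hc with h3 | h3 | h3
          · exact absurd h3 h1
          · exact absurd h3 h2
          · exact h3.symm
    have hF' : Fam G n f' J := by
      refine ⟨fun c hc => (hcase c hc).1, fun c hc d hd hcd => ?_⟩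
      exact (hcase c hc).2.1.dis hL (hcase d hd).2.1 (hD c (hJ hc) d (hJ hd) hcd)
    have hN' : Nons f' J := by
      refine Nons_congr (f := f) ?_ hPJ
      refine lab_Amat_congr hL id (fun c hc => (hin c (hJ hc)).1) (fun c hc => (hcase c hc).2.1)
        (fun c hc => (hcase c hc).2.2.1) (fun c hc => ?_) (fun c hc => ?_)
        (fun c hc d hd hcd => hD c (hJ hc) d (hJ hd) hcd)
      · have := (hok c (hJ hc)).1
        exact ⟨this.1, this.2.1, this.2.2.1⟩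
      · have := (hcase c hc).1
        exact ⟨this.1, this.2.1, this.2.2.1⟩
    have h3 := hasF_of_family hG hF' hN'
    have h4 : ∑ c ∈ J, ((f' c).s - 2) = ∑ c ∈ J, (ρ c - 2) :=
      Finset.sum_congr rfl fun c hc => by rw [(hcase c hc).2.2.2]
    rw [h4] at h3
    exact h3
  refine ⟨n - x - 2 * b, S.image (fun s => n - s), ?_, ?_⟩
  · intro s hs
    obtain ⟨t, ht, rfl⟩ := Finset.mem_image.mp hs
    have h1 := hS t ht
    have h2 := key t ht
    exact ⟨by omega, by omega, h2.2⟩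
  · rw [Finset.card_image_of_injOn]
    · exact hcard
    · intro a ha b hb hab
      have h1 := (key a ha).1
      have h2 := (key b hb).1
      simp only at hab
      omega

end Pool.Agent.Helper36.QA
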