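import Pool.Agent.Helper36.QA.Defs

set_option autoImplicit false

namespace Pool.Agent.Helper36.QA

open Finset
open scoped Pointwise
open Pool.Agent.Helper36.CL (HasF Ham IsChord Gad)
open Pool.Agent.Helper36.Hub (Cy)

private theorem labl_parts (b s : ℕ) (K : Finset (ℕ × ℕ)) {x y : ℕ} (h : x ≤ y) :
    x / b ≤ y / b ∧
      (K.filter (fun e => e.2 < x)).card / s ≤ (K.filter (fun e => e.2 < y)).card / s ∧
      (K.filter (fun e => e.2 ≤ x)).card / s ≤ (K.filter (fun e => e.2 ≤ y)).card / s := by
  refine ⟨Nat.div_le_div_right h, Nat.div_le_div_right (card_le_card ?_),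
    Nat.div_le_div_right (card_le_card ?_)⟩
  · intro e he
    simp only [mem_filter] at he ⊢
    exact ⟨he.1, by omega⟩
  · intro e he
    simp only [mem_filter] at he ⊢
    exact ⟨he.1, by omega⟩

private theorem labl_div {s x y : ℕ} (hs : 1 ≤ s) (h : x / s = y / s) : y < x + s := by
  have h1 : y < s * (y / s) + s := by
    have := Nat.lt_mul_div_succ y (show 0 < s by omega)
    rw [Nat.mul_add, Nat.mul_one] at this
    exact this
  have h2 : s * (x / s) ≤ x := Nat.mul_div_le x s
  rw [h] at h2
  omega

theorem labl_lab (n b s : ℕ) (hb : 1 ≤ b) (K : Finset (ℕ × ℕ)) :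
    Lab n b (n / b + 2 * (K.card / s) + 1) (labl b s K) := by
  refine ⟨?_, ?_, ?_⟩
  · intro x y h
    obtain ⟨h1, h2, h3⟩ := labl_parts b s K h
    unfold labl
    omega
  · intro x y h he
    obtain ⟨h1, h2, h3⟩ := labl_parts b s K h
    unfold labl at he
    exact labl_div hb (by omega)
  · intro t ht
    have h1 : t / b ≤ n / b := Nat.div_le_div_right ht.le
    have h2 : (K.filter (fun e => e.2 < t)).card / s ≤ K.card / s :=
      Nat.div_le_div_right (card_le_card (filter_subset _ _))
    have h3 : (K.filter (fun e => e.2 ≤ t)).card / s ≤ K.card / s :=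
      Nat.div_le_div_right (card_le_card (filter_subset _ _))
    unfold labl
    omega

theorem labl_mass (b s : ℕ) (hs : 1 ≤ s) (K : Finset (ℕ × ℕ)) (c : ℕ)
    (h : ∃ t t', t < t' ∧ labl b s K t = c ∧ labl b s K t' = c) :
    (K.filter (fun e => labl b s K e.2 = c)).card ≤ 2 * s := by
  obtain ⟨t, t', htt, ht, ht'⟩ := h
  set S := K.filter (fun e => labl b s K e.2 = c) with hS
  set P : Finset ℕ := insert t (insert t' (S.image Prod.snd)) with hP
  have hPne : P.Nonempty := ⟨t, by simp [hP]⟩
  have hPc : ∀ p ∈ P, labl b s K p = c := by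
    intro p hp
    simp only [hP, mem_insert, mem_image] at hp
    rcases hp with rfl | rfl | ⟨e, he, rfl⟩
    · exact ht
    · exact ht'
    · exact (mem_filter.1 he).2
  set a := P.min' hPne with ha
  set z := P.max' hPne with hz
  have hac : labl b s K a = c := hPc a (P.min'_mem hPne)
  have hzc : labl b s K z = c := hPc z (P.max'_mem hPne)
  have hat : a ≤ t := P.min'_le t (by simp [hP])
  have hzt : t' ≤ z := P.le_max' t' (by simp [hP])
  have haz : a < z := by omega
  obtain ⟨h1, h2, h3⟩ := labl_parts b s K haz.le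
  have heq : labl b s K a = labl b s K z := by rw [hac, hzc]
  unfold labl at heq
  have e2 : (K.filter (fun e => e.2 < z)).card < (K.filter (fun e => e.2 < a)).card + s :=
    labl_div hs (by omega)
  have e3 : (K.filter (fun e => e.2 ≤ z)).card < (K.filter (fun e => e.2 ≤ a)).card + s :=
    labl_div hs (by omega)
  have hsub : S ⊆ K.filter (fun e => a ≤ e.2 ∧ e.2 < z) ∪ K.filter (fun e => a < e.2 ∧ e.2 ≤ z) := by
    intro e he
    have heK : e ∈ K := (mem_filter.1 he).1
    have hmem : e.2 ∈ P := by
      simp only [hP, mem_insert, mem_image]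
      exact Or.inr (Or.inr ⟨e, he, rfl⟩)
    have l1 : a ≤ e.2 := P.min'_le _ hmem
    have l2 : e.2 ≤ z := P.le_max' _ hmem
    simp only [mem_union, mem_filter]
    by_cases hh : e.2 < z
    · exact Or.inl ⟨heK, l1, hh⟩
    · exact Or.inr ⟨heK, by omega, l2⟩
  have c1 : (K.filter (fun e => a ≤ e.2 ∧ e.2 < z)).card + (K.filter (fun e => e.2 < a)).card ≤
      (K.filter (fun e => e.2 < z)).card := by
    rw [← card_union_of_disjoint]
    · apply card_le_card
      intro e he
      simp only [mem_union, mem_filter] at he ⊢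
      rcases he with he | he
      · exact ⟨he.1, by omega⟩
      · exact ⟨he.1, by omega⟩
    · rw [disjoint_left]
      intro e he he'
      simp only [mem_filter] at he he'
      omega
  have c2 : (K.filter (fun e => a < e.2 ∧ e.2 ≤ z)).card + (K.filter (fun e => e.2 ≤ a)).card ≤
      (K.filter (fun e => e.2 ≤ z)).card := by
    rw [← card_union_of_disjoint]
    · apply card_le_card
      intro e he
      simp only [mem_union, mem_filter] at he ⊢
      rcases he with he | he
      · exact ⟨he.1, by omega⟩
      · exact ⟨he.1, by omega⟩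
    · rw [disjoint_left]
      intro e he he'
      simp only [mem_filter] at he he'
      omega
  have c3 := card_le_card hsub
  have c4 := card_union_le (K.filter (fun e => a ≤ e.2 ∧ e.2 < z))
    (K.filter (fun e => a < e.2 ∧ e.2 ≤ z))
  omega

end Pool.Agent.Helper36.QA
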