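import Pool.Agent.Helper36.QA.Defs
import Pool.Agent.Helper36.QA.LabL
import Pool.Agent.Helper36.QA.Core

set_option autoImplicit false

namespace Pool.Agent.Helper36.QA

open Finset
open scoped Pointwise
open Pool.Agent.Helper36.CL (HasF Ham IsChord Gad)
open Pool.Agent.Helper36.Hub (Cy)

private theorem longcase_card_le {G : SimpleGraph ℕ} {n : ℕ} {K : Finset (ℕ × ℕ)}
    (hK : RCh G n K) : K.card ≤ n := by
  have h1 : (K.image Prod.fst).card = K.card := by
    apply Finset.card_image_of_injOn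
    intro e he f hf hef
    exact hK.2 e he f hf hef
  have h2 : K.image Prod.fst ⊆ Finset.range n := by
    intro x hx
    rw [Finset.mem_image] at hx
    obtain ⟨e, he, rfl⟩ := hx
    have := hK.1 e he
    rw [Finset.mem_range]
    have h3 := this.1
    have h4 := this.2.1
    omega
  have h3 := Finset.card_le_card h2
  rw [h1, Finset.card_range] at h3
  exact h3

private theorem longcase_cells {G : SimpleGraph ℕ} {n : ℕ} {K : Finset (ℕ × ℕ)}
    (hK : RCh G n K) (lam : ℕ → ℕ) (V b : ℕ) (hlab : Lab n b V lam) :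
    (K.image (cell lam)).card ≤ V * V := by
  have h2 : K.image (cell lam) ⊆ Finset.range V ×ˢ Finset.range V := by
    intro x hx
    rw [Finset.mem_image] at hx
    obtain ⟨e, he, rfl⟩ := hx
    have h := hK.1 e he
    have h3 := h.1
    have h4 := h.2.1
    rw [Finset.mem_product, Finset.mem_range, Finset.mem_range]
    exact ⟨hlab.bound _ (by omega), hlab.bound _ h4⟩
  have h3 := Finset.card_le_card h2
  rwa [Finset.card_product, Finset.card_range] at h3

private theorem longcase_div (q m : ℕ) (hq : 1 ≤ q) (hm : m ≤ q * q + 2 * q) :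
    200 * (m / (200 * q)) ≤ q + 2 := by
  have h1 : 200 * q * (m / (200 * q)) ≤ m := Nat.mul_div_le m (200 * q)
  have h2 : q * (200 * (m / (200 * q))) ≤ q * (q + 2) := by
    calc q * (200 * (m / (200 * q))) = 200 * q * (m / (200 * q)) := by ring
      _ ≤ m := h1
      _ ≤ q * q + 2 * q := hm
      _ = q * (q + 2) := by ring
  exact Nat.le_of_mul_le_mul_left h2 (by omega)

private theorem longcase_num (q σ V k : ℕ) (hq : 10 ^ 16 ≤ q) (hσ : 10 ^ 10 * σ ≤ q)
    (hV : 66 * V ≤ q) (hk : q * q ≤ 6 * k)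
    (h : k ≤ (200 * σ + 300) * (200 * q + 2 * (200 * q)) + 44 * (V * V) + 16004 * (σ * V)) :
    False := by
  have hV2 : 66 * V * (66 * V) ≤ q * q := Nat.mul_le_mul hV hV
  have hσV : 10 ^ 10 * σ * (66 * V) ≤ q * q := Nat.mul_le_mul hσ hV
  have hσq : 10 ^ 10 * σ * q ≤ q * q := Nat.mul_le_mul hσ le_rfl
  have hqq : 10 ^ 16 * q ≤ q * q := Nat.mul_le_mul hq le_rfl
  have e1 : 66 * V * (66 * V) = 4356 * (V * V) := by ring
  have e2 : 10 ^ 10 * σ * (66 * V) = 660000000000 * (σ * V) := by ring
  have e3 : 10 ^ 10 * σ * q = 10000000000 * (σ * q) := by ring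
  have e4 : (200 * σ + 300) * (200 * q + 2 * (200 * q)) = 120000 * (σ * q) + 180000 * q := by ring
  have e5 : 10 ^ 16 * q = 10000000000000000 * q := by ring
  rw [e1] at hV2
  rw [e2] at hσV
  rw [e3] at hσq
  rw [e5] at hqq
  rw [e4] at h
  have hpos : 0 < q * q := by
    have : 0 < q := lt_of_lt_of_le (by norm_num) hq
    exact Nat.mul_pos this this
  generalize q * q = Q at *
  generalize V * V = VV at *
  generalize σ * V = sV at *
  generalize σ * q = sq at *
  omega

theorem long_case {G : SimpleGraph ℕ} {n : ℕ} {K : Finset (ℕ × ℕ)} (hG : Ham G n)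
    (hK : RCh G n K) (q : ℕ) (hq : 10 ^ 16 ≤ q) (hn1 : q * q ≤ n) (hn2 : n < (q + 1) * (q + 1))
    (hcard : n ≤ 6 * K.card) (hlong : ∀ e ∈ K, e.1 + 200 * q ≤ e.2) :
    Clus G (1200 * q) (q / 10 ^ 10) := by
  have hq1 : 1 ≤ q := le_trans (by norm_num) hq
  have hb : 1 ≤ 200 * q := by omega
  have hlab := labl_lab n (200 * q) (200 * q) hb K
  have hmass := labl_mass (200 * q) (200 * q) hb K
  have hne : ∀ e ∈ K, labl (200 * q) (200 * q) K e.1 ≠ labl (200 * q) (200 * q) K e.2 := by
    intro e he heq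
    have h1 := hlong e he
    have h2 := hlab.width e.1 e.2 (by omega) heq
    omega
  have hC0 := longcase_cells hK _ _ _ hlab
  have hσ0 : 10 ^ 10 * (q / 10 ^ 10) ≤ q := Nat.mul_div_le q (10 ^ 10)
  have hσ1 : 1 ≤ q / 10 ^ 10 := by
    rw [Nat.le_div_iff_mul_le (by norm_num)]
    exact le_trans (by norm_num) hq
  have hσ2 : 1000 * (q / 10 ^ 10) ≤ 200 * q := by omega
  have hmain := core hG hK _ _ _ _ hlab hne hmass _ hC0 (q / 10 ^ 10) hσ1 hσ2
  rcases hmain with h | h
  · have : 6 * (200 * q) = 1200 * q := by ring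
    rwa [this] at h
  · exfalso
    have hKn := longcase_card_le hK
    have hn3 : n ≤ q * q + 2 * q := by
      have : (q + 1) * (q + 1) = q * q + 2 * q + 1 := by ring
      omega
    have d1 := longcase_div q n hq1 hn3
    have d2 := longcase_div q K.card hq1 (le_trans hKn hn3)
    have hV : 66 * (n / (200 * q) + 2 * (K.card / (200 * q)) + 1) ≤ q := by
      have hq' : 10000000000000000 ≤ q := hq
      generalize n / (200 * q) = x at *
      generalize K.card / (200 * q) = y at *
      omega
    exact longcase_num q (q / 10 ^ 10) _ K.card hq hσ0 hV (le_trans hn1 hcard) h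

end Pool.Agent.Helper36.QA
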