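import Pool.Agent.Helper36.QA.Core
import Pool.Agent.Helper36.QA.LabL

set_option autoImplicit false

namespace Pool.Agent.Helper36.QA

open Finset
open scoped Pointwise
open Pool.Agent.Helper36.CL (HasF Ham IsChord Gad)
open Pool.Agent.Helper36.Hub (Cy)

/-- the chords whose left class is small are few -/
private theorem medcase_lost {n b V : ℕ} {lam : ℕ → ℕ} (hlab : Lab n b V lam)
    (L : Finset (ℕ × ℕ)) (hn : ∀ e ∈ L, e.1 < n) (hinj : ∀ e ∈ L, ∀ f ∈ L, e.1 = f.1 → e = f)
    (hsm : ∀ e ∈ L, 100 * ((range n).filter (fun t => lam t = lam e.1)).card < b) :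
    100 * L.card ≤ V * b := by
  classical
  have h1 : L.card ≤ (b / 100) * (L.image (fun e => lam e.1)).card := by
    refine card_le_mul_card_image L (b / 100) ?_
    intro c hc
    obtain ⟨e, he, rfl⟩ := mem_image.1 hc
    have h2 : (L.filter (fun x => lam x.1 = lam e.1)).card ≤
        ((range n).filter (fun t => lam t = lam e.1)).card := by
      refine card_le_card_of_injOn Prod.fst ?_ ?_
      · intro x hx
        have hx' := mem_filter.1 (mem_coe.1 hx)
        exact mem_coe.2 (mem_filter.2 ⟨mem_range.2 (hn x hx'.1), hx'.2⟩)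
      · intro x hx y hy hxy
        have hx' := mem_filter.1 (mem_coe.1 hx)
        have hy' := mem_filter.1 (mem_coe.1 hy)
        exact hinj x hx'.1 y hy'.1 hxy
    have h3 := hsm e he
    omega
  have h2 : (L.image (fun e => lam e.1)).card ≤ V := by
    have h3 : L.image (fun e => lam e.1) ⊆ range V := by
      intro c hc
      obtain ⟨e, he, rfl⟩ := mem_image.1 hc
      exact mem_range.2 (hlab.bound _ (hn e he))
    exact (card_le_card h3).trans (card_range V).le
  have h4 : L.card ≤ (b / 100) * V := h1.trans (Nat.mul_le_mul_left _ h2)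
  have h5 : 100 * (b / 100) ≤ b := Nat.mul_div_le b 100
  calc 100 * L.card ≤ 100 * ((b / 100) * V) := Nat.mul_le_mul_left _ h4
    _ = (100 * (b / 100)) * V := by ring
    _ ≤ b * V := Nat.mul_le_mul_right _ h5
    _ = V * b := mul_comm _ _

/-- the number of cells -/
private theorem medcase_cells {n b V q : ℕ} {lam : ℕ → ℕ} (hb : 1 ≤ b) (hlab : Lab n b V lam)
    (K2 : Finset (ℕ × ℕ)) (hn : ∀ e ∈ K2, e.1 < n ∧ e.2 < n)
    (hq : q ≤ 865 * b) (hlong : ∀ e ∈ K2, e.1 + b ≤ e.2) (hshort : ∀ e ∈ K2, e.2 < e.1 + 200 * q)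
    (hbig : ∀ e ∈ K2, b ≤ 100 * ((range n).filter (fun t => lam t = lam e.1)).card) :
    (K2.image (cell lam)).card ≤ V * (2 * 10 ^ 7) := by
  classical
  have h1 : (K2.image (cell lam)).card ≤
      (2 * 10 ^ 7) * ((K2.image (cell lam)).image Prod.snd).card := by
    refine card_le_mul_card_image _ (2 * 10 ^ 7) ?_
    intro c hc
    obtain ⟨d, hd, rfl⟩ := mem_image.1 hc
    obtain ⟨e, he, rfl⟩ := mem_image.1 hd
    set S := (K2.image (cell lam)).filter (fun x => x.2 = (cell lam e).2) with hS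
    set S1 := S.image Prod.fst with hS1
    have hcard : S.card = S1.card := by
      rw [hS1, card_image_of_injOn]
      intro x hx y hy hxy
      have hx' := (mem_filter.1 (mem_coe.1 hx)).2
      have hy' := (mem_filter.1 (mem_coe.1 hy)).2
      exact Prod.ext hxy (hx'.trans hy'.symm)
    have hwit : ∀ c1 ∈ S1, ∃ e' ∈ K2, lam e'.1 = c1 ∧ lam e'.2 = lam e.2 := by
      intro c1 hc1
      obtain ⟨x, hx, rfl⟩ := mem_image.1 hc1
      obtain ⟨hx1, hx2⟩ := mem_filter.1 hx
      obtain ⟨e', he', rfl⟩ := mem_image.1 hx1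
      exact ⟨e', he', rfl, hx2⟩
    have hsub : S1.biUnion (fun c1 => (range n).filter (fun t => lam t = c1)) ⊆
        Ico (e.2 - (2 * b + 200 * q)) (e.2 + b) := by
      intro p hp
      obtain ⟨c1, hc1, hp1⟩ := mem_biUnion.1 hp
      have hp2 := (mem_filter.1 hp1).2
      obtain ⟨e', he', h5, h6⟩ := hwit c1 hc1
      have h7 : e'.2 < e.2 + b ∧ e.2 < e'.2 + b := by
        rcases le_total e'.2 e.2 with h | h
        · exact ⟨by omega, hlab.width _ _ h h6⟩
        · exact ⟨hlab.width _ _ h h6.symm, by omega⟩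
      have h8 : p < e'.1 + b ∧ e'.1 < p + b := by
        rcases le_total e'.1 p with h | h
        · exact ⟨hlab.width _ _ h (h5.trans hp2.symm), by omega⟩
        · exact ⟨by omega, hlab.width _ _ h (hp2.trans h5.symm)⟩
      have h9 := hlong e' he'
      have h10 := hshort e' he'
      exact mem_Ico.2 ⟨by omega, by omega⟩
    have hdis : (S1 : Set ℕ).PairwiseDisjoint (fun c1 => (range n).filter (fun t => lam t = c1)) := by
      intro c1 _ c2 _ hne
      refine disjoint_left.2 ?_
      intro p hp hp'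
      exact hne ((mem_filter.1 hp).2.symm.trans (mem_filter.1 hp').2)
    have hsum : ∑ c1 ∈ S1, ((range n).filter (fun t => lam t = c1)).card ≤ 3 * b + 200 * q := by
      rw [← card_biUnion hdis]
      refine (card_le_card hsub).trans ?_
      rw [Nat.card_Ico]
      omega
    have hlow : S1.card * b ≤ ∑ c1 ∈ S1, 100 * ((range n).filter (fun t => lam t = c1)).card := by
      rw [← smul_eq_mul]
      refine card_nsmul_le_sum _ _ _ ?_
      intro c1 hc1
      obtain ⟨e', he', h5, _⟩ := hwit c1 hc1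
      have := hbig e' he'
      rwa [h5] at this
    rw [← mul_sum] at hlow
    rw [hcard]
    have h12 : S1.card * b ≤ (2 * 10 ^ 7) * b := by
      refine hlow.trans ?_
      have : 100 * ∑ c1 ∈ S1, ((range n).filter (fun t => lam t = c1)).card ≤
          100 * (3 * b + 200 * q) := Nat.mul_le_mul_left _ hsum
      omega
    exact Nat.le_of_mul_le_mul_right h12 (by omega)
  have h2 : ((K2.image (cell lam)).image Prod.snd).card ≤ V := by
    have h3 : (K2.image (cell lam)).image Prod.snd ⊆ range V := by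
      intro c hc
      obtain ⟨d, hd, rfl⟩ := mem_image.1 hc
      obtain ⟨e, he, rfl⟩ := mem_image.1 hd
      exact mem_range.2 (hlab.bound _ (hn e he).2)
    exact (card_le_card h3).trans (card_range V).le
  calc (K2.image (cell lam)).card ≤ (2 * 10 ^ 7) * ((K2.image (cell lam)).image Prod.snd).card := h1
    _ ≤ (2 * 10 ^ 7) * V := Nat.mul_le_mul_left _ h2
    _ = V * (2 * 10 ^ 7) := mul_comm _ _

theorem med_case {G : SimpleGraph ℕ} {n : ℕ} {K : Finset (ℕ × ℕ)} (hG : Ham G n)
    (hK : RCh G n K) (q : ℕ) (hq : 10 ^ 16 ≤ q) (hn1 : q * q ≤ n) (hn2 : n < (q + 1) * (q + 1))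
    (hcard : n ≤ 6 * K.card) (hlong : ∀ e ∈ K, e.1 + q / 864 ≤ e.2)
    (hshort : ∀ e ∈ K, e.2 < e.1 + 200 * q) :
    Clus G (1200 * q) (q / 10 ^ 10) := by
  classical
  have hKn : ∀ e ∈ K, e.1 < n ∧ e.2 < n := by
    intro e he
    obtain ⟨h1, h2, _, _⟩ := hK.1 e he
    omega
  have hKc : K.card ≤ n := by
    have h1 : K.card ≤ (range n).card := by
      refine card_le_card_of_injOn Prod.fst ?_ ?_
      · intro x hx
        exact mem_coe.2 (mem_range.2 (hKn x (mem_coe.1 hx)).1)
      · intro x hx y hy hxy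
        exact hK.2 x (mem_coe.1 hx) y (mem_coe.1 hy) hxy
    rwa [card_range] at h1
  obtain ⟨b, hbdef⟩ : ∃ b, b = q / 864 := ⟨_, rfl⟩
  obtain ⟨σ, hσdef⟩ : ∃ σ, σ = q / 10 ^ 10 := ⟨_, rfl⟩
  rw [← hbdef] at hlong
  rw [← hσdef]
  have hb1 : 864 * b ≤ q := by rw [hbdef]; exact Nat.mul_div_le q 864
  have hb2 : q < 864 * (b + 1) := by omega
  have hb3 : 10 ^ 13 ≤ b := by omega
  have hb4 : q ≤ 865 * b := by omega
  have hσ1 : 10 ^ 10 * σ ≤ q := by rw [hσdef]; exact Nat.mul_div_le q (10 ^ 10)
  have hσ2 : 1 ≤ σ := by omega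
  have hσ3 : 1000 * σ ≤ b := by omega
  obtain ⟨lam, hlam⟩ : ∃ lam, lam = labl b b K := ⟨_, rfl⟩
  obtain ⟨V, hV⟩ : ∃ V, V = n / b + 2 * (K.card / b) + 1 := ⟨_, rfl⟩
  have hlab : Lab n b V lam := by
    rw [hlam, hV]
    exact labl_lab n b b (by omega) K
  have hVb : V * b ≤ 3 * n + b := by
    have h1 : n / b * b ≤ n := Nat.div_mul_le_self n b
    have h2 : K.card / b * b ≤ K.card := Nat.div_mul_le_self _ b
    have h3 : V * b = n / b * b + 2 * (K.card / b * b) + b := by rw [hV]; ring
    omega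
  set K2 := K.filter (fun e => b ≤ 100 * ((range n).filter (fun t => lam t = lam e.1)).card)
    with hK2
  set L := K.filter (fun e => ¬ b ≤ 100 * ((range n).filter (fun t => lam t = lam e.1)).card)
    with hL
  have hsplit : K2.card + L.card = K.card := card_filter_add_card_filter_not _
  have hlost : 100 * L.card ≤ V * b := by
    refine medcase_lost hlab L ?_ ?_ ?_
    · intro e he
      exact (hKn e (mem_filter.1 he).1).1
    · intro e he f hf hef
      exact hK.2 e (mem_filter.1 he).1 f (mem_filter.1 hf).1 hef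
    · intro e he
      exact not_le.1 (mem_filter.1 he).2
  have hcells : (K2.image (cell lam)).card ≤ V * (2 * 10 ^ 7) := by
    refine medcase_cells (by omega) hlab K2 ?_ hb4 ?_ ?_ ?_
    · intro e he
      exact hKn e (mem_filter.1 he).1
    · intro e he
      exact hlong e (mem_filter.1 he).1
    · intro e he
      exact hshort e (mem_filter.1 he).1
    · intro e he
      exact (mem_filter.1 he).2
  have hRK2 : RCh G n K2 := by
    refine ⟨fun e he => hK.1 e (mem_filter.1 he).1, ?_⟩
    intro e he f hf hef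
    exact hK.2 e (mem_filter.1 he).1 f (mem_filter.1 hf).1 hef
  have hne : ∀ e ∈ K2, lam e.1 ≠ lam e.2 := by
    intro e he h
    have h1 := hlong e (mem_filter.1 he).1
    have h2 := hlab.width e.1 e.2 (by omega) h
    omega
  have hmass : ∀ c, (∃ t t', t < t' ∧ lam t = c ∧ lam t' = c) →
      (K2.filter (fun e => lam e.2 = c)).card ≤ 2 * b := by
    intro c hc
    have h1 : (K.filter (fun e => lam e.2 = c)).card ≤ 2 * b := by
      rw [hlam] at hc ⊢
      exact labl_mass b b (by omega) K c hc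
    refine (card_le_card ?_).trans h1
    intro e he
    obtain ⟨h2, h3⟩ := mem_filter.1 he
    exact mem_filter.2 ⟨(mem_filter.1 h2).1, h3⟩
  rcases core hG hRK2 lam V b b hlab hne hmass (V * (2 * 10 ^ 7)) hcells σ hσ2 hσ3 with h | h
  · obtain ⟨x, S, h1, h2⟩ := h
    refine ⟨x, S, ?_, h2⟩
    intro s hs
    obtain ⟨h3, h4, h5⟩ := h1 s hs
    exact ⟨h3, by omega, h5⟩
  · exfalso
    have e1 : 10 ^ 10 * (σ * V) ≤ 865 * (V * b) := by
      calc 10 ^ 10 * (σ * V) = (10 ^ 10 * σ) * V := by ring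
        _ ≤ q * V := Nat.mul_le_mul_right _ hσ1
        _ ≤ (865 * b) * V := Nat.mul_le_mul_right _ hb4
        _ = 865 * (V * b) := by ring
    have e2 : 10 ^ 13 * V ≤ V * b := by
      calc 10 ^ 13 * V ≤ b * V := Nat.mul_le_mul_right _ hb3
        _ = V * b := mul_comm _ _
    have e3 : 10 ^ 10 * (σ * b) ≤ n := by
      calc 10 ^ 10 * (σ * b) = (10 ^ 10 * σ) * b := by ring
        _ ≤ q * b := Nat.mul_le_mul_right _ hσ1
        _ ≤ q * q := Nat.mul_le_mul_left _ (by omega)
        _ ≤ n := hn1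
    have e4 : 10 ^ 16 * b ≤ n := by
      calc 10 ^ 16 * b ≤ q * b := Nat.mul_le_mul_right _ hq
        _ ≤ q * q := Nat.mul_le_mul_left _ (by omega)
        _ ≤ n := hn1
    have e5 : (200 * σ + 300) * (b + 2 * b) = 600 * (σ * b) + 900 * b := by ring
    rw [e5] at h
    have e6 : 0 < n := by
      have : 0 < q * q := Nat.mul_pos (by omega) (by omega)
      omega
    generalize σ * V = a1 at *
    generalize V * b = a2 at *
    generalize σ * b = a3 at *
    omega

end Pool.Agent.Helper36.QA
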