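import Pool.Agent.Helper36.QA.Defs
import Pool.Agent.Helper36.QA.Gcd2
import Pool.Agent.Helper36.CL.Mods
import Pool.Agent.Helper36.CL.PropL

set_option autoImplicit false

namespace Pool.Agent.Helper36.QA

open Finset
open scoped Pointwise
open Pool.Agent.Helper36.CL (HasF Ham IsChord Gad Ext Used Fam remSet remSet_le win blocks_hasF)
open Pool.Agent.Helper36.Hub (Cy)

/-- Number of numbers whose chord leaves its block. -/
private theorem short2_card_cross {G : SimpleGraph ℕ} {n : ℕ} {K : Finset (ℕ × ℕ)}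
    (hK : RCh G n K) (W w1 N : ℕ) (hW : 1 ≤ W) (hN : N = n / W)
    (hw1 : w1 ≤ W) (hs : ∀ e ∈ K, e.2 < e.1 + w1) :
    (K.filter (fun e => ¬ (e.1 / W = e.2 / W ∧ e.1 / W < N))).card ≤ (N + 1) * w1 + W := by
  classical
  have hinj := hK.2
  set R : Finset ℕ := (Finset.range (N + 1)).biUnion
    (fun t => Finset.Ico ((t + 1) * W - w1) ((t + 1) * W)) with hR
  have hRc : R.card ≤ (N + 1) * w1 := by
    have := Finset.card_biUnion_le_card_mul (Finset.range (N + 1))
      (fun t => Finset.Ico ((t + 1) * W - w1) ((t + 1) * W)) w1 (fun t _ => by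
        rw [Nat.card_Ico]; omega)
    rw [Finset.card_range] at this
    exact this
  have hsub : (K.filter (fun e => ¬ (e.1 / W = e.2 / W ∧ e.1 / W < N))).card ≤
      (R ∪ Finset.Ico (N * W) (N * W + W)).card := by
    refine Finset.card_le_card_of_injOn (fun e => e.1) ?_ ?_
    · intro e he
      obtain ⟨heK, hcond⟩ := Finset.mem_filter.mp he
      have h1 := hK.1 e heK
      have h2 := hs e heK
      have d1 := Nat.div_add_mod e.1 W
      have d2 := Nat.mod_lt e.1 (show W > 0 by omega)
      have d3 : W * (e.1 / W) = e.1 / W * W := Nat.mul_comm _ _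
      have hle : e.1 / W ≤ N := by
        rw [hN]
        exact Nat.div_le_div_right (by have := h1.1; have := h1.2.1; omega)
      simp only [Finset.coe_union, Set.mem_union, Finset.mem_coe]
      by_cases h3 : e.1 / W < N
      · left
        have h4 : e.1 / W ≠ e.2 / W := fun h => hcond ⟨h, h3⟩
        have h5 : e.1 / W ≤ e.2 / W := Nat.div_le_div_right (by have := h1.1; omega)
        have h6 : e.1 / W + 1 ≤ e.2 / W := by omega
        have h7 : (e.1 / W + 1) * W ≤ e.2 := by
          calc (e.1 / W + 1) * W ≤ e.2 / W * W := Nat.mul_le_mul_right _ h6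
            _ ≤ e.2 := Nat.div_mul_le_self _ _
        rw [hR, Finset.mem_biUnion]
        refine ⟨e.1 / W, Finset.mem_range.mpr (by omega), ?_⟩
        rw [Finset.mem_Ico]
        have h8 : (e.1 / W + 1) * W = e.1 / W * W + W := by ring
        omega
      · right
        have h4 : e.1 / W = N := by omega
        rw [Finset.mem_Ico, ← h4]
        omega
    · intro e he f hf hef
      exact hinj e (Finset.mem_filter.mp he).1 f (Finset.mem_filter.mp hf).1 hef
  refine hsub.trans ((Finset.card_union_le _ _).trans ?_)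
  rw [Nat.card_Ico]
  omega

theorem q1_short2 {G : SimpleGraph ℕ} {n : ℕ} {K : Finset (ℕ × ℕ)} (hG : Ham G n)
    (hK : RCh G n K) (A q : ℕ) (hA : 1 ≤ A)
    (hq : 100000 * A ^ 2 ≤ q) (hn1 : q * q ≤ n) (hn2 : n < (q + 1) * (q + 1))
    (hcard : n ≤ 3 * A * K.card) (hshort : ∀ e ∈ K, e.2 < e.1 + q / (216 * A ^ 2)) :
    ∃ k, Clus G (2 * q) k ∧ q ≤ 1000 * A ^ 2 * k := by
  suffices h : ∃ (x : ℕ) (S : Finset ℕ), (∀ s ∈ S, x ≤ s ∧ s ≤ x + 2 * q ∧ HasF G s) ∧
      q ≤ 1000 * A ^ 2 * S.card by
    obtain ⟨x, S, h1, h2⟩ := h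
    exact ⟨S.card, ⟨x, S, h1, le_rfl⟩, h2⟩
  classical
  have hA2 : A ≤ A ^ 2 := by nlinarith
  have hA1 : 1 ≤ A ^ 2 := by nlinarith
  have hcardq : q * q ≤ 3 * A * K.card := hn1.trans hcard
  set W := q / (4 * A) with hW
  have hWq : 4 * A * W ≤ q := Nat.mul_div_le q (4 * A)
  have hqW : q < 4 * A * W + 4 * A := by
    have h1 := Nat.div_add_mod q (4 * A)
    have h2 := Nat.mod_lt q (show 4 * A > 0 by omega)
    rw [← hW] at h1
    omega
  have hWbig : 1000 ≤ W := by
    by_contra h
    have h1 : W ≤ 999 := by omega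
    have h2 : 4 * A * W ≤ 4 * A * 999 := Nat.mul_le_mul_left _ h1
    have h3 : 4 * A * 999 = 3996 * A := by ring
    omega
  have hq8 : q ≤ 5 * A * W := by
    have h1 : 4 * A ≤ A * W := by
      calc 4 * A = A * 4 := by ring
        _ ≤ A * W := Nat.mul_le_mul_left _ (by omega)
    have h2 : 5 * A * W = 4 * A * W + A * W := by ring
    omega
  set w1 := q / (216 * A ^ 2) with hw1
  have hw1q : 216 * A ^ 2 * w1 ≤ q := Nat.mul_div_le q _
  have hw1W : w1 ≤ W := by
    rw [hw1, hW]
    exact Nat.div_le_div_left (by omega) (by omega)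
  set N := n / W with hN
  have hNW : N * W ≤ n := Nat.div_mul_le_self n W
  have hN5 : N + 1 ≤ 6 * A * q := by
    have h1 : W * N ≤ W * (5 * A * (q + 2)) := by
      calc W * N = N * W := Nat.mul_comm _ _
        _ ≤ n := hNW
        _ ≤ q * (q + 2) := by nlinarith
        _ ≤ 5 * A * W * (q + 2) := Nat.mul_le_mul_right _ hq8
        _ = W * (5 * A * (q + 2)) := by ring
    have h2 := Nat.le_of_mul_le_mul_left h1 (by omega)
    have h3 : 5 * A * (q + 2) = 5 * (A * q) + 10 * A := by ring
    have h4 : 6 * A * q = 6 * (A * q) := by ring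
    have h5 : 10 * A + 1 ≤ A * q := by
      have : 11 * A ≤ A * q := by
        calc 11 * A = A * 11 := by ring
          _ ≤ A * q := Nat.mul_le_mul_left _ (by omega)
      omega
    omega
  have hN2 : 2 ≤ N := by
    rw [hN, Nat.le_div_iff_mul_le (by omega)]
    have h1 : 2 * W ≤ q * q := by nlinarith
    omega
  -- chords inside blocks
  set Kb : ℕ → Finset (ℕ × ℕ) := fun t => K.filter (fun e => e.1 / W = t ∧ e.2 / W = t) with hKb
  have hKbmem : ∀ t, ∀ e ∈ Kb t, e ∈ K ∧ t * W ≤ e.1 ∧ e.2 < (t + 1) * W := by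
    intro t e he
    obtain ⟨heK, h1, h2⟩ := Finset.mem_filter.mp he
    refine ⟨heK, ?_, ?_⟩
    · rw [← h1]; exact Nat.div_mul_le_self _ _
    · have d1 := Nat.div_add_mod e.2 W
      have d2 := Nat.mod_lt e.2 (show W > 0 by omega)
      rw [h2] at d1
      have d3 : (t + 1) * W = W * t + W := by ring
      omega
  have hKbcard : ∀ t, (Kb t).card ≤ W := by
    intro t
    have h1 : (Kb t).card ≤ (Finset.Ico (t * W) ((t + 1) * W)).card := by
      refine Finset.card_le_card_of_injOn (fun e => e.1) ?_ ?_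
      · intro e he
        have h2 := hKbmem t e he
        have h3 := (hK.1 e h2.1).1
        simp only [Finset.mem_coe, Finset.mem_Ico]
        omega
      · intro e he f hf hef
        exact hK.2 e (hKbmem t e he).1 f (hKbmem t f hf).1 hef
    rw [Nat.card_Ico] at h1
    have h2 : (t + 1) * W = t * W + W := by ring
    omega
  have hcross := short2_card_cross hK W w1 N (by omega) hN hw1W hshort
  have hin : (K.filter (fun e => e.1 / W = e.2 / W ∧ e.1 / W < N)).card ≤
      ∑ t ∈ Finset.range N, (Kb t).card := by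
    refine (Finset.card_le_card (t := (Finset.range N).biUnion Kb) ?_).trans
      Finset.card_biUnion_le
    intro e he
    obtain ⟨heK, h1, h2⟩ := Finset.mem_filter.mp he
    exact Finset.mem_biUnion.mpr ⟨e.1 / W, Finset.mem_range.mpr h2,
      Finset.mem_filter.mpr ⟨heK, rfl, h1.symm⟩⟩
  have hsplit := Finset.card_filter_add_card_filter_not (s := K)
    (fun e => e.1 / W = e.2 / W ∧ e.1 / W < N)
  set T := (Finset.range N).filter (fun t => W ≤ 12 * A * (Kb t).card) with hT
  have hgood : ∑ t ∈ Finset.range N, (Kb t).card ≤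
      T.card * W + ∑ t ∈ (Finset.range N).filter (fun t => ¬ W ≤ 12 * A * (Kb t).card),
        (Kb t).card := by
    rw [← Finset.sum_filter_add_sum_filter_not (Finset.range N)
      (fun t => W ≤ 12 * A * (Kb t).card)]
    refine Nat.add_le_add_right ?_ _
    refine (Finset.sum_le_card_nsmul _ _ W fun t _ => hKbcard t).trans ?_
    rw [smul_eq_mul]
  have hbad : 12 * A * ∑ t ∈ (Finset.range N).filter (fun t => ¬ W ≤ 12 * A * (Kb t).card),
        (Kb t).card ≤ n := by
    rw [Finset.mul_sum]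
    refine (Finset.sum_le_card_nsmul _ _ W fun t ht => ?_).trans ?_
    · have := (Finset.mem_filter.mp ht).2
      omega
    · rw [smul_eq_mul]
      refine (Nat.mul_le_mul_right W (Finset.card_filter_le _ _)).trans ?_
      rw [Finset.card_range]
      exact hNW
  set Sb := ∑ t ∈ (Finset.range N).filter (fun t => ¬ W ≤ 12 * A * (Kb t).card),
        (Kb t).card with hSb
  have hbad4 : 4 * Sb ≤ K.card := by
    have h1 : 3 * A * (4 * Sb) ≤ 3 * A * K.card := by
      calc 3 * A * (4 * Sb) = 12 * A * Sb := by ring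
        _ ≤ n := hbad
        _ ≤ _ := hcard
    exact Nat.le_of_mul_le_mul_left h1 (by omega)
  have hc1 : 12 * ((N + 1) * w1) ≤ K.card := by
    have h1 : 3 * A * (12 * ((N + 1) * w1)) ≤ 3 * A * K.card := by
      calc 3 * A * (12 * ((N + 1) * w1)) = 36 * A * w1 * (N + 1) := by ring
        _ ≤ 36 * A * w1 * (6 * A * q) := Nat.mul_le_mul_left _ hN5
        _ = 216 * A ^ 2 * w1 * q := by ring
        _ ≤ q * q := Nat.mul_le_mul_right _ hw1q
        _ ≤ _ := hcardq
    exact Nat.le_of_mul_le_mul_left h1 (by omega)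
  have hc2 : 12 * W ≤ K.card := by
    have h1 : 3 * A * (12 * W) ≤ 3 * A * K.card := by
      calc 3 * A * (12 * W) = 9 * (4 * A * W) := by ring
        _ ≤ 9 * q := Nat.mul_le_mul_left _ hWq
        _ ≤ q * q := Nat.mul_le_mul_right _ (by omega)
        _ ≤ _ := hcardq
    exact Nat.le_of_mul_le_mul_left h1 (by omega)
  have hTW : 7 * K.card ≤ 12 * (T.card * W) := by omega
  have hTbig : 2 * W < T.card := by
    by_contra h
    have h1 : T.card * W ≤ 2 * W * W := Nat.mul_le_mul_right _ (by omega)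
    have h2 : 7 * (q * q) ≤ 36 * A * (2 * W * W) := by
      calc 7 * (q * q) ≤ 7 * (3 * A * K.card) := Nat.mul_le_mul_left _ hcardq
        _ = 3 * A * (7 * K.card) := by ring
        _ ≤ 3 * A * (12 * (T.card * W)) := Nat.mul_le_mul_left _ hTW
        _ ≤ 3 * A * (12 * (2 * W * W)) := Nat.mul_le_mul_left _ (Nat.mul_le_mul_left _ h1)
        _ = 36 * A * (2 * W * W) := by ring
    have h3 : (4 * A * W) * (4 * A * W) ≤ q * q := Nat.mul_le_mul hWq hWq
    have h4 : (4 * A * W) * (4 * A * W) = 16 * A * (A * W * W) := by ring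
    have h5 : 36 * A * (2 * W * W) = 72 * (A * W * W) := by ring
    have h6 : 16 * (A * W * W) ≤ 16 * A * (A * W * W) :=
      Nat.mul_le_mul_right _ (by omega)
    have h7 : 0 < A * W * W := by positivity
    omega
  have hKbchord : ∀ t < N, ∀ e ∈ Kb t, t * W ≤ e.1 ∧ e.2 < (t + 1) * W ∧
      IsChord G n e.1 e.2 := by
    intro t _ e he
    have h1 := hKbmem t e he
    exact ⟨h1.2.1, h1.2.2, hK.1 e h1.1⟩
  have hKb' : ∀ t, ∀ e ∈ Kb t, t * W ≤ e.1 ∧ e.1 + 2 ≤ e.2 ∧ e.2 < t * W + W := by
    intro t e he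
    have h1 := hKbmem t e he
    have h2 : (t + 1) * W = t * W + W := by ring
    exact ⟨h1.2.1, (hK.1 e h1.1).1, by omega⟩
  obtain ⟨u, S, hS, hSc, hsum⟩ := win T W (36 * A) (fun t => remSet (Kb t)) hTbig
    (fun t _ => by unfold remSet; exact Finset.mem_insert_self _ _)
    (fun t _ x hx => remSet_le (Kb t) (t * W) W (hKb' t) x hx)
    (fun t ht g hg => by
      have h1 := gcd_bound2 (Kb t) (t * W) W g (hKb' t)
        (fun e he f hf hef => hK.2 e (hKbmem t e he).1 f (hKbmem t f hf).1 hef) hg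
      have h2 : W ≤ 12 * A * (Kb t).card := (Finset.mem_filter.mp ht).2
      have h3 : g * (Kb t).card ≤ 36 * A * (Kb t).card := by
        calc g * (Kb t).card ≤ 3 * W := h1
          _ ≤ 3 * (12 * A * (Kb t).card) := Nat.mul_le_mul_left _ h2
          _ = 36 * A * (Kb t).card := by ring
      refine Nat.le_of_mul_le_mul_right h3 ?_
      rcases Nat.eq_zero_or_pos (Kb t).card with h4 | h4
      · rw [h4, Nat.mul_zero] at h2
        omega
      · exact h4)
  have key : ∀ s ∈ S, s ≤ n ∧ HasF G (n - s) := by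
    intro s hs
    obtain ⟨c, hc, rfl⟩ := hsum s hs
    exact blocks_hasF hG W N (by omega) hN2 hNW Kb hKbchord T
      (fun t ht => Finset.mem_range.mp (Finset.mem_filter.mp ht).1) c hc
  refine ⟨n - u - 2 * W, S.image (fun s => n - s), ?_, ?_⟩
  · intro s hs
    obtain ⟨t, ht, rfl⟩ := Finset.mem_image.mp hs
    have h1 := hS t ht
    have h2 := key t ht
    have h3 : W ≤ q := Nat.div_le_self _ _
    exact ⟨by omega, by omega, h2.2⟩
  · rw [Finset.card_image_of_injOn]
    · have h1 : q ≤ 90 * A ^ 2 * (S.card + 1) := by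
        have h2 : 2 * q ≤ 2 * (90 * A ^ 2 * (S.card + 1)) := by
          calc 2 * q ≤ 2 * (5 * A * W) := Nat.mul_le_mul_left _ hq8
            _ = 5 * A * (2 * W) := by ring
            _ ≤ 5 * A * (36 * A * (S.card + 1)) := Nat.mul_le_mul_left _ hSc
            _ = 2 * (90 * A ^ 2 * (S.card + 1)) := by ring
        omega
      have h3 : 90 * A ^ 2 * (S.card + 1) = 90 * (A ^ 2 * S.card) + 90 * A ^ 2 := by ring
      have h4 : 1000 * A ^ 2 * S.card = 1000 * (A ^ 2 * S.card) := by ring
      omega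
    · intro a ha b hb hab
      have h1 := (key a ha).1
      have h2 := (key b hb).1
      simp only at hab
      omega

end Pool.Agent.Helper36.QA
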