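import Pool.Agent.Helper36.QA.Defs
import Pool.Agent.Helper36.QA.Short2
import Pool.Agent.Helper36.QA.LongCase
import Pool.Agent.Helper36.QA.MedCase

set_option autoImplicit false

namespace Pool.Agent.Helper36.QA

open Finset
open Pool.Agent.Helper36.CL (HasF Ham IsChord Gad)

theorem rch_filter {G : SimpleGraph ℕ} {n : ℕ} {K : Finset (ℕ × ℕ)} (hK : RCh G n K)
    (P : ℕ × ℕ → Prop) [DecidablePred P] : RCh G n (K.filter P) :=
  ⟨fun e he => hK.1 e (Finset.mem_filter.mp he).1,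
    fun e he f hf h => hK.2 e (Finset.mem_filter.mp he).1 f (Finset.mem_filter.mp hf).1 h⟩

theorem clus_weaken {G : SimpleGraph ℕ} {W W' k k' : ℕ} (h : Clus G W k) (hW : W ≤ W')
    (hk : k' ≤ k) : Clus G W' k' := by
  obtain ⟨x, S, hS, hc⟩ := h
  exact ⟨x, S, fun s hs => ⟨(hS s hs).1, by have := (hS s hs).2.1; omega, (hS s hs).2.2⟩,
    hk.trans hc⟩

/-- The main result for the model. -/
theorem all_nat {G : SimpleGraph ℕ} {n : ℕ} {K : Finset (ℕ × ℕ)} (hG : Ham G n)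
    (hK : RCh G n K) (q : ℕ) (hq : 10 ^ 16 ≤ q) (hn1 : q * q ≤ n) (hn2 : n < (q + 1) * (q + 1))
    (hcard : n ≤ 2 * K.card) : Clus G (1200 * q) (q / 10 ^ 10) := by
  classical
  set K1 := K.filter (fun e => e.2 < e.1 + q / 864) with hK1
  set K2 := K.filter (fun e => ¬ e.2 < e.1 + q / 864) with hK2
  have h12 : K1.card + K2.card = K.card :=
    Finset.card_filter_add_card_filter_not (s := K) (fun e => e.2 < e.1 + q / 864)
  set K3 := K2.filter (fun e => e.2 < e.1 + 200 * q) with hK3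
  set K4 := K2.filter (fun e => ¬ e.2 < e.1 + 200 * q) with hK4
  have h34 : K3.card + K4.card = K2.card :=
    Finset.card_filter_add_card_filter_not (s := K2) (fun e => e.2 < e.1 + 200 * q)
  have r2 : RCh G n K2 := rch_filter hK _
  rcases (by omega : n ≤ 6 * K1.card ∨ n ≤ 6 * K3.card ∨ n ≤ 6 * K4.card) with h | h | h
  · obtain ⟨k, hk, hqk⟩ := q1_short2 hG (rch_filter hK (fun e => e.2 < e.1 + q / 864)) 2 q
      (by norm_num) (by norm_num; omega) hn1 hn2 (by rw [← hK1]; omega) (fun e he => by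
        have := (Finset.mem_filter.mp he).2
        norm_num
        exact this)
    refine clus_weaken hk (by omega) ?_
    norm_num at hqk ⊢
    omega
  · exact med_case hG (rch_filter r2 (fun e => e.2 < e.1 + 200 * q)) q hq hn1 hn2 h
      (fun e he => by
        have h1 := (Finset.mem_filter.mp (Finset.mem_filter.mp he).1).2
        omega)
      (fun e he => (Finset.mem_filter.mp he).2)
  · exact long_case hG (rch_filter r2 (fun e => ¬ e.2 < e.1 + 200 * q)) q hq hn1 hn2 h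
      (fun e he => by
        have h1 := (Finset.mem_filter.mp he).2
        omega)

/-- The main result, with real constants. -/
theorem all_real : ∃ c C : ℝ, 0 < c ∧ 0 < C ∧ ∃ n₀ : ℕ,
    ∀ (n : ℕ) (G : SimpleGraph ℕ) (K : Finset (ℕ × ℕ)), n₀ ≤ n → Ham G n → RCh G n K →
      n ≤ 2 * K.card → ∃ (x : ℕ) (S : Finset ℕ),
        (∀ s ∈ S, (x : ℝ) ≤ s ∧ (s : ℝ) ≤ x + C * √(n : ℝ) ∧ HasF G s) ∧
        c * √(n : ℝ) ≤ S.card := by
  refine ⟨1 / 10 ^ 11, 1200, by positivity, by positivity, 10 ^ 32, ?_⟩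
  intro n G K hn hG hK hcard
  set q := Nat.sqrt n with hq
  have hq1 : q * q ≤ n := Nat.sqrt_le n
  have hq2 : n < (q + 1) * (q + 1) := Nat.lt_succ_sqrt n
  have hqD : 10 ^ 16 ≤ q := by
    rw [hq, Nat.le_sqrt]
    calc 10 ^ 16 * 10 ^ 16 = 10 ^ 32 := by norm_num
      _ ≤ n := hn
  obtain ⟨x, S, hS, hSc⟩ := all_nat hG hK q hqD hq1 hq2 hcard
  have hqr : (q : ℝ) ≤ √(n : ℝ) := by
    apply Real.le_sqrt_of_sq_le
    have : ((q * q : ℕ) : ℝ) ≤ n := by exact_mod_cast hq1
    push_cast at this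
    nlinarith
  have hqr2 : √(n : ℝ) ≤ 2 * q := by
    rw [Real.sqrt_le_left (by positivity)]
    have h1 : (n : ℝ) ≤ ((q + 1) * (q + 1) : ℕ) := by exact_mod_cast hq2.le
    push_cast at h1
    have h2 : (1 : ℝ) ≤ q := by exact_mod_cast (by omega : 1 ≤ q)
    nlinarith
  refine ⟨x, S, fun s hs => ?_, ?_⟩
  · obtain ⟨h1, h2, h3⟩ := hS s hs
    refine ⟨by exact_mod_cast h1, ?_, h3⟩
    have h4 : (s : ℝ) ≤ ((x + 1200 * q : ℕ) : ℝ) := by exact_mod_cast h2
    push_cast at h4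
    linarith
  · have h1 : q ≤ 5 * 10 ^ 10 * S.card := by omega
    have h2 : (q : ℝ) ≤ ((5 * 10 ^ 10 * S.card : ℕ) : ℝ) := by exact_mod_cast h1
    push_cast at h2
    rw [div_mul_eq_mul_div, one_mul, div_le_iff₀ (by positivity)]
    linarith

end Pool.Agent.Helper36.QA
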