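import Pool.Agent.Helper36.QA.Defs
import Pool.Agent.Helper36.Hub.Hubs
import Pool.Agent.Helper36.CL.Final

/-!
# The model of a Hamiltonian graph with many chords to the right (module QA-20 of MP_c54260_co, Q1)
-/

set_option autoImplicit false

namespace Pool.Agent.Helper36.QA

open Finset
open scoped Pointwise
open Pool.Agent.Helper36.CL (HasF Ham IsChord Gad Ext Used Fam)
open Pool.Agent.Helper36.Hub (Cy)

/-- every vertex of degree at least `3` is an end of a chord -/
private theorem right_chord_at {V : Type*} [Fintype V] [DecidableEq V] (G : SimpleGraph V)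
    [DecidableRel G.Adj] (h3 : 3 ≤ G.minDegree)
    (G' : SimpleGraph ℕ) (ψ : ℕ → V)
    (hinj : ∀ i < Fintype.card V, ∀ j < Fintype.card V, ψ i = ψ j → i = j)
    (hsurj : ∀ v, ∃ i < Fintype.card V, ψ i = v)
    (hadj : ∀ i j, G'.Adj i j ↔
      i < Fintype.card V ∧ j < Fintype.card V ∧ G.Adj (ψ i) (ψ j))
    (x : ℕ) (hx : x < Fintype.card V) :
    ∃ y < Fintype.card V, IsChord G' (Fintype.card V) x y ∨
      IsChord G' (Fintype.card V) y x := by
  classical
  set n := Fintype.card V with hn
  let N : Finset ℕ := (Finset.range n).filter (fun y => G'.Adj x y)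
  have hNcard : N.card = G.degree (ψ x) := by
    rw [← SimpleGraph.card_neighborFinset_eq_degree]
    refine Finset.card_bij (fun y _ => ψ y) ?_ ?_ ?_
    · intro y hy
      rw [SimpleGraph.mem_neighborFinset]
      exact ((hadj x y).1 (Finset.mem_filter.1 hy).2).2.2
    · intro y hy z hz h
      exact hinj y (Finset.mem_range.1 (Finset.mem_filter.1 hy).1) z
        (Finset.mem_range.1 (Finset.mem_filter.1 hz).1) h
    · intro v hv
      obtain ⟨y, hy, rfl⟩ := hsurj v
      rw [SimpleGraph.mem_neighborFinset] at hv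
      refine ⟨y, ?_, rfl⟩
      simp only [N, Finset.mem_filter, Finset.mem_range]
      exact ⟨hy, (hadj x y).2 ⟨hx, hy, hv⟩⟩
  have hN3 : 3 ≤ N.card := by
    rw [hNcard]
    exact h3.trans (G.minDegree_le_degree _)
  let s := if x = n - 1 then 0 else x + 1
  let p := if x = 0 then n - 1 else x - 1
  have hlt : ({s, p} : Finset ℕ).card < N.card := lt_of_le_of_lt Finset.card_le_two (by omega)
  obtain ⟨y, hyN, hysp⟩ := Finset.exists_mem_notMem_of_card_lt_card hlt
  rw [Finset.mem_insert, Finset.mem_singleton] at hysp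
  obtain ⟨hyr, hadjxy⟩ := Finset.mem_filter.1 hyN
  have hyn : y < n := Finset.mem_range.1 hyr
  have hxy : x ≠ y := hadjxy.ne
  refine ⟨y, hyn, ?_⟩
  simp only [s, p] at hysp
  rcases lt_or_gt_of_ne hxy with hlt | hlt
  · left
    refine ⟨?_, hyn, ?_, hadjxy⟩
    · split_ifs at hysp <;> omega
    · split_ifs at hysp <;> omega
  · right
    refine ⟨?_, hx, ?_, hadjxy.symm⟩
    · split_ifs at hysp <;> omega
    · split_ifs at hysp <;> omega

/-- The reflected graph. -/
private def right_refl (G : SimpleGraph ℕ) (n : ℕ) : SimpleGraph ℕ where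
  Adj x y := x < n ∧ y < n ∧ G.Adj (n - 1 - x) (n - 1 - y)
  symm := ⟨fun _ _ h => ⟨h.2.1, h.1, h.2.2.symm⟩⟩
  loopless := ⟨fun _ h => h.2.2.ne rfl⟩

private theorem right_refl_adj {G : SimpleGraph ℕ} {n x y : ℕ} :
    (right_refl G n).Adj x y ↔ x < n ∧ y < n ∧ G.Adj (n - 1 - x) (n - 1 - y) := Iff.rfl

private theorem right_refl_ham {G : SimpleGraph ℕ} {n : ℕ} (h : Ham G n) :
    Ham (right_refl G n) n := by
  obtain ⟨hn3, hstep, hwrap⟩ := h
  refine ⟨hn3, fun i hi => ?_, ?_⟩
  · rw [right_refl_adj]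
    refine ⟨by omega, by omega, ?_⟩
    have h1 := hstep (n - 1 - (i + 1)) (by omega)
    rw [show n - 1 - (i + 1) + 1 = n - 1 - i by omega] at h1
    exact h1.symm
  · rw [right_refl_adj]
    refine ⟨by omega, by omega, ?_⟩
    rw [show n - 1 - (n - 1) = 0 by omega, show n - 1 - 0 = n - 1 by omega]
    exact hwrap.symm

private theorem right_refl_hasF {G : SimpleGraph ℕ} {n k : ℕ} (h : HasF (right_refl G n) k) :
    HasF G k := by
  obtain ⟨hk, φ, hφ, hs, hw⟩ := h
  have hlt : ∀ i < k, φ i < n := by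
    intro i hi
    by_cases h : i + 1 < k
    · exact (hs i h).1
    · have : i = k - 1 := by omega
      rw [this]
      exact hw.1
  refine ⟨hk, fun i => n - 1 - φ i, ?_, ?_, ?_⟩
  · intro i hi j hj h
    have h1 := hlt i hi
    have h2 := hlt j hj
    have h3 : n - 1 - φ i = n - 1 - φ j := h
    exact hφ i hi j hj (by omega)
  · intro i hi
    exact (hs i hi).2.2
  · exact hw.2.2

private theorem right_refl_chord {G : SimpleGraph ℕ} {n x y : ℕ} (h : IsChord G n x y) :
    IsChord (right_refl G n) n (n - 1 - y) (n - 1 - x) := by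
  obtain ⟨h1, h2, h3, h4⟩ := h
  refine ⟨by omega, by omega, by omega, ?_⟩
  rw [right_refl_adj]
  refine ⟨by omega, by omega, ?_⟩
  rw [show n - 1 - (n - 1 - y) = y by omega, show n - 1 - (n - 1 - x) = x by omega]
  exact h4.symm

theorem exists_right {V : Type*} [Fintype V] [DecidableEq V] (G : SimpleGraph V)
    [DecidableRel G.Adj] (hG : G.IsHamiltonian) (h3 : 3 ≤ G.minDegree)
    (hn3 : 3 ≤ Fintype.card V) :
    ∃ (G' : SimpleGraph ℕ) (K : Finset (ℕ × ℕ)), Ham G' (Fintype.card V) ∧
      (∀ k, HasF G' k → Pool.Agent.Helper36.CL.HasCyc G k) ∧ RCh G' (Fintype.card V) K ∧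
      Fintype.card V ≤ 2 * K.card := by
  classical
  obtain ⟨G1, ψ, hH, hinj, hsurj, hadj, hcyc⟩ :=
    Pool.Agent.Helper36.CL.exists_nat_model G hG hn3
  have hch := right_chord_at G h3 G1 ψ hinj hsurj hadj
  set n := Fintype.card V with hn
  let A : Finset ℕ := (Finset.range n).filter (fun x => ∃ y, IsChord G1 n x y)
  let B : Finset ℕ := (Finset.range n).filter (fun y => ∃ x, IsChord G1 n x y)
  have hA : ∀ x ∈ A, ∃ y, IsChord G1 n x y := fun x hx => (Finset.mem_filter.1 hx).2
  have hB : ∀ y ∈ B, ∃ x, IsChord G1 n x y := fun y hy => (Finset.mem_filter.1 hy).2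
  have hAB : n ≤ A.card + B.card := by
    have h1 : Finset.range n ⊆ A ∪ B := by
      intro x hx
      rw [Finset.mem_range] at hx
      obtain ⟨y, hy, h | h⟩ := hch x hx
      · exact Finset.mem_union_left _ (Finset.mem_filter.2 ⟨Finset.mem_range.2 hx, y, h⟩)
      · exact Finset.mem_union_right _ (Finset.mem_filter.2 ⟨Finset.mem_range.2 hx, y, h⟩)
    calc n = (Finset.range n).card := (Finset.card_range n).symm
      _ ≤ (A ∪ B).card := Finset.card_le_card h1
      _ ≤ A.card + B.card := Finset.card_union_le A B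
  by_cases hcase : n ≤ 2 * A.card
  · choose! j hj using hA
    refine ⟨G1, A.image (fun x => (x, j x)), hH, hcyc, ⟨?_, ?_⟩, ?_⟩
    · intro e he
      obtain ⟨x, hx, rfl⟩ := Finset.mem_image.1 he
      exact hj x hx
    · intro e he f hf h
      obtain ⟨x, hx, rfl⟩ := Finset.mem_image.1 he
      obtain ⟨y, hy, rfl⟩ := Finset.mem_image.1 hf
      have h1 : x = y := h
      rw [h1]
    · rw [Finset.card_image_of_injective]
      · exact hcase
      · intro x y h
        exact congrArg Prod.fst h
  · choose! j hj using hB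
    refine ⟨right_refl G1 n, B.image (fun y => (n - 1 - y, n - 1 - j y)), right_refl_ham hH,
      fun k hk => hcyc k (right_refl_hasF hk), ⟨?_, ?_⟩, ?_⟩
    · intro e he
      obtain ⟨y, hy, rfl⟩ := Finset.mem_image.1 he
      exact right_refl_chord (hj y hy)
    · intro e he f hf h
      obtain ⟨x, hx, rfl⟩ := Finset.mem_image.1 he
      obtain ⟨y, hy, rfl⟩ := Finset.mem_image.1 hf
      have h1 : n - 1 - x = n - 1 - y := h
      have h2 : x < n := Finset.mem_range.1 (Finset.mem_filter.1 hx).1
      have h3 : y < n := Finset.mem_range.1 (Finset.mem_filter.1 hy).1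
      have h4 : x = y := by omega
      rw [h4]
    · rw [Finset.card_image_of_injOn]
      · omega
      · intro x hx y hy h
        have h1 : n - 1 - x = n - 1 - y := congrArg Prod.fst h
        have h2 : x < n := Finset.mem_range.1 (Finset.mem_filter.1 hx).1
        have h3 : y < n := Finset.mem_range.1 (Finset.mem_filter.1 hy).1
        omega

end Pool.Agent.Helper36.QA
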